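import Mathlib

set_option autoImplicit false

namespace Pool.Agent.Results.MP_f7ace6_lc.SharpErshov

open Nat.Partrec (Code)

/-- `P` is a computable order relation (reflexive, transitive, antisymmetric) with universe `ω` -/
structure ComputablePoset (P : ℕ → ℕ → Prop) : Prop where
  refl : ∀ x, P x x
  trans : ∀ x y z, P x y → P y z → P x z
  antisymm : ∀ x y, P x y → P y x → x = y
  computable : ComputablePred (fun p : ℕ × ℕ => P p.1 p.2)

/-- `L` is a linear extension of `P` (on the same universe) -/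
structure LinearExtension (P L : ℕ → ℕ → Prop) : Prop where
  refl : ∀ x, L x x
  trans : ∀ x y z, L x y → L y z → L x z
  antisymm : ∀ x y, L x y → L y x → x = y
  total : ∀ x y, L x y ∨ L y x
  extend : ∀ x y, P x y → L x y

/-- `R` is computably well-founded: no computable function is strictly `R`-descending -/
def CompWF (R : ℕ → ℕ → Prop) : Prop :=
  ¬ ∃ f : ℕ → ℕ, Computable f ∧ ∀ n, R (f (n + 1)) (f n) ∧ f (n + 1) ≠ f n

/-- the relation `L` has a computable approximation which changes its mind about `L x y` at most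
`h x y` times -/
def MindChanges (L : ℕ → ℕ → Prop) (h : ℕ → ℕ → ℕ) : Prop :=
  ∃ g : ℕ → ℕ → ℕ → Bool, Computable (fun p : ℕ × ℕ × ℕ => g p.1 p.2.1 p.2.2) ∧
    (∀ x y, {s | g x y (s + 1) ≠ g x y s}.encard ≤ h x y) ∧
    ∀ x y, ∃ s₀, ∀ s ≥ s₀, (g x y s = true ↔ L x y)

/-! ### Computability helpers -/

theorem computable_foldl {α β σ : Type*} [Primcodable α] [Primcodable β] [Primcodable σ]
    {f : α → List β} {g : α → σ} {h : α → σ × β → σ} (hf : Computable f) (hg : Computable g)
    (hh : Computable₂ h) : Computable fun a => (f a).foldl (fun s b => h a (s, b)) (g a) := by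
  have key : Computable fun a => Nat.rec (motive := fun _ => σ) (g a)
      (fun n IH => Option.casesOn (motive := fun _ => σ) ((f a)[n]?) IH (fun b => h a (IH, b)))
      ((f a).length) := by
    refine Computable.nat_rec (h := fun a (q : ℕ × σ) =>
      Option.casesOn (motive := fun _ => σ) ((f a)[q.1]?) q.2 (fun b => h a (q.2, b)))
      (Computable.list_length.comp hf) hg ?_
    refine Computable.option_casesOn (o := fun q : α × ℕ × σ => (f q.1)[q.2.1]?)
      (f := fun q : α × ℕ × σ => q.2.2) (g := fun (q : α × ℕ × σ) b => h q.1 (q.2.2, b)) ?_ ?_ ?_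
    · exact Computable.list_getElem?.comp (hf.comp Computable.fst)
        (Computable.fst.comp Computable.snd)
    · exact Computable.snd.comp Computable.snd
    · exact hh.comp (Computable.fst.comp Computable.fst)
        ((Computable.snd.comp (Computable.snd.comp Computable.fst)).pair Computable.snd)
  refine key.of_eq fun a => ?_
  have : ∀ n ≤ (f a).length, Nat.rec (motive := fun _ => σ) (g a)
      (fun n IH => Option.casesOn (motive := fun _ => σ) ((f a)[n]?) IH (fun b => h a (IH, b))) n
      = ((f a).take n).foldl (fun s b => h a (s, b)) (g a) := by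
    intro n
    induction n with
    | zero => intro _; simp
    | succ n ih =>
      intro hn
      have hn' : n < (f a).length := hn
      rw [List.take_succ_eq_append_getElem hn', List.foldl_append]
      simp only [List.foldl_cons, List.foldl_nil]
      rw [← ih hn'.le, List.getElem?_eq_getElem hn']
  have h2 := this _ le_rfl
  rw [List.take_length] at h2
  exact h2

theorem computable_any {α β : Type*} [Primcodable α] [Primcodable β] {f : α → List β}
    {p : α → β → Bool} (hf : Computable f) (hp : Computable₂ p) :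
    Computable fun a => (f a).any (p a) := by
  have h1 : Computable fun a => (f a).foldl (fun s b => s || p a b) false := by
    refine computable_foldl (h := fun a (q : Bool × β) => q.1 || p a q.2) hf
      (Computable.const false) ?_
    exact Primrec.or.to_comp.comp (Computable.fst.comp Computable.snd)
      (hp.comp Computable.fst (Computable.snd.comp Computable.snd))
  refine h1.of_eq fun a => ?_
  have : ∀ (l : List β) (c : Bool), l.foldl (fun s b => s || p a b) c = (c || l.any (p a)) := by
    intro l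
    induction l with
    | nil => intro c; simp
    | cons b l ih => intro c; rw [List.foldl_cons, ih, List.any_cons, Bool.or_assoc]
  rw [this]; simp

/-! ### Finite extensions of an order -/

/-- order obtained from `P` by adding the pairs of the list `C` (last added pair first) -/
def R (P : ℕ → ℕ → Bool) : List (ℕ × ℕ) → ℕ → ℕ → Bool
  | [], x, y => P x y
  | p :: C, x, y => R P C x y || (R P C x p.1 && R P C p.2 y)

/-- the list `C` is consistent -/
def Ok (P : ℕ → ℕ → Bool) : List (ℕ × ℕ) → Prop
  | [] => True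
  | p :: C => R P C p.2 p.1 = false ∧ Ok P C

/-- order relation as a Boolean function -/
structure BPos (P : ℕ → ℕ → Bool) : Prop where
  refl : ∀ x, P x x = true
  trans : ∀ x y z, P x y = true → P y z = true → P x z = true
  antisymm : ∀ x y, P x y = true → P y x = true → x = y

theorem R_pos {P : ℕ → ℕ → Bool} (hP : BPos P) : ∀ {C : List (ℕ × ℕ)}, Ok P C → BPos (R P C) := by
  intro C
  induction C with
  | nil => intro _; exact ⟨hP.refl, hP.trans, hP.antisymm⟩
  | cons p C ih =>
    intro hok
    obtain ⟨h1, h2⟩ := hok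
    have I := ih h2
    have tr : ∀ x y z, R P (p :: C) x y = true → R P (p :: C) y z = true →
        R P (p :: C) x z = true := by
      intro x y z hxy hyz
      simp only [R, Bool.or_eq_true, Bool.and_eq_true] at hxy hyz ⊢
      rcases hxy with a | ⟨a, b⟩ <;> rcases hyz with c | ⟨c, d⟩
      · exact Or.inl (I.trans _ _ _ a c)
      · exact Or.inr ⟨I.trans _ _ _ a c, d⟩
      · exact Or.inr ⟨a, I.trans _ _ _ b c⟩
      · exact Or.inr ⟨a, d⟩
    refine ⟨fun x => ?_, tr, fun x y hxy hyx => ?_⟩
    · simp only [R, I.refl, Bool.true_or]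
    · simp only [R, Bool.or_eq_true, Bool.and_eq_true] at hxy hyx
      rcases hxy with a | ⟨a, b⟩ <;> rcases hyx with c | ⟨c, d⟩
      · exact I.antisymm _ _ a c
      · rw [I.trans _ _ _ d (I.trans _ _ _ a c)] at h1
        cases h1
      · rw [I.trans _ _ _ b (I.trans _ _ _ c a)] at h1
        cases h1
      · rw [I.trans _ _ _ b c] at h1
        cases h1

theorem R_mono {P : ℕ → ℕ → Bool} {C : List (ℕ × ℕ)} {p : ℕ × ℕ} {x y : ℕ}
    (h : R P C x y = true) : R P (p :: C) x y = true := by
  simp only [R, h, Bool.true_or]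

theorem R_base {P : ℕ → ℕ → Bool} {x y : ℕ} (h : P x y = true) :
    ∀ C : List (ℕ × ℕ), R P C x y = true := by
  intro C
  induction C with
  | nil => exact h
  | cons p C ih => exact R_mono ih

theorem R_new {P : ℕ → ℕ → Bool} (hP : BPos P) {C : List (ℕ × ℕ)} (hC : Ok P C) (p : ℕ × ℕ) :
    R P (p :: C) p.1 p.2 = true := by
  have I := R_pos hP hC
  simp only [R, I.refl, Bool.and_self, Bool.or_true]

/-! ### Uniform computability of the extensions -/

/-- add `p.2` to the reachable list when `p.1` is above an element of it -/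
def stepS (P : ℕ → ℕ → Bool) (S : List ℕ) (p : ℕ × ℕ) : List ℕ :=
  bif S.any (fun u => P u p.1) then p.2 :: S else S

def word (C : List (ℕ × ℕ)) : List (ℕ × ℕ) := C.foldr (fun p w => w ++ p :: w) []

theorem R_trans {P : ℕ → ℕ → Bool} (hP : BPos P) : ∀ (C : List (ℕ × ℕ)) (x y z : ℕ),
    R P C x y = true → R P C y z = true → R P C x z = true := by
  intro C
  induction C with
  | nil => exact hP.trans
  | cons p C I =>
      intro x y z hxy hyz
      simp only [R, Bool.or_eq_true, Bool.and_eq_true] at hxy hyz ⊢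
      rcases hxy with a | ⟨a, b⟩ <;> rcases hyz with c | ⟨c, d⟩
      · exact Or.inl (I _ _ _ a c)
      · exact Or.inr ⟨I _ _ _ a c, d⟩
      · exact Or.inr ⟨a, I _ _ _ b c⟩
      · exact Or.inr ⟨a, d⟩

theorem word_spec {P : ℕ → ℕ → Bool} (hP : BPos P) : ∀ (C : List (ℕ × ℕ)) (S : List ℕ) (y : ℕ),
    ((word C).foldl (stepS P) S).any (fun u => P u y) = S.any (fun u => R P C u y) := by
  intro C
  induction C with
  | nil => intro S y; rfl
  | cons p C ih =>
    intro S y
    have hw : word (p :: C) = word C ++ p :: word C := rfl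
    rw [hw, List.foldl_append, List.foldl_cons, ih]
    set S1 := (word C).foldl (stepS P) S with hS1
    have e1 : ∀ z, S1.any (fun u => P u z) = S.any (fun u => R P C u z) := fun z => ih S z
    have e2 : ∀ z, S1.any (fun u => R P C u z) = S.any (fun u => R P C u z) := by
      intro z
      rw [Bool.eq_iff_iff]
      constructor
      · intro h
        obtain ⟨v, hv, hvz⟩ := List.any_eq_true.1 h
        have : S1.any (fun u => P u v) = true := List.any_eq_true.2 ⟨v, hv, hP.refl v⟩
        rw [e1] at this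
        obtain ⟨u, hu, huv⟩ := List.any_eq_true.1 this
        exact List.any_eq_true.2 ⟨u, hu, R_trans hP C _ _ _ huv hvz⟩
      · intro h
        rw [← e1] at h
        obtain ⟨u, hu, huz⟩ := List.any_eq_true.1 h
        exact List.any_eq_true.2 ⟨u, hu, R_base huz C⟩
    have e3 : (stepS P S1 p).any (fun u => R P C u y)
        = (S1.any (fun u => R P C u y) || (S1.any (fun u => P u p.1) && R P C p.2 y)) := by
      unfold stepS
      cases h : S1.any (fun u => P u p.1) with
      | true => simp [Bool.or_comm]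
      | false => simp
    rw [e3, e2, e1]
    rw [Bool.eq_iff_iff]
    simp only [R, Bool.or_eq_true, Bool.and_eq_true, List.any_eq_true]
    constructor
    · rintro (⟨u, hu, h⟩ | ⟨⟨u, hu, h⟩, h'⟩)
      · exact ⟨u, hu, Or.inl h⟩
      · exact ⟨u, hu, Or.inr ⟨h, h'⟩⟩
    · rintro ⟨u, hu, h | ⟨h, h'⟩⟩
      · exact Or.inl ⟨u, hu, h⟩
      · exact Or.inr ⟨⟨u, hu, h⟩, h'⟩

theorem primrec_word : Primrec word := by
  unfold word
  refine Primrec.list_foldr (h := fun (_ : List (ℕ × ℕ)) (q : (ℕ × ℕ) × List (ℕ × ℕ)) =>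
    q.2 ++ q.1 :: q.2) Primrec.id (Primrec.const []) ?_
  exact Primrec.list_append.comp (Primrec.snd.comp Primrec.snd)
    (Primrec.list_cons.comp (Primrec.fst.comp Primrec.snd) (Primrec.snd.comp Primrec.snd))

theorem computable_R {P : ℕ → ℕ → Bool} (hP : BPos P) (hc : Computable₂ P) :
    Computable (fun q : List (ℕ × ℕ) × ℕ × ℕ => R P q.1 q.2.1 q.2.2) := by
  have h1 : Computable (fun q : List (ℕ × ℕ) × ℕ × ℕ =>
      ((word q.1).foldl (fun S p => bif S.any (fun u => P u p.1) then p.2 :: S else S)
        [q.2.1]).any (fun u => P u q.2.2)) := by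
    refine computable_any (p := fun (q : List (ℕ × ℕ) × ℕ × ℕ) u => P u q.2.2) ?_ ?_
    · refine computable_foldl (h := fun (_ : List (ℕ × ℕ) × ℕ × ℕ) (r : List ℕ × (ℕ × ℕ)) =>
        bif r.1.any (fun u => P u r.2.1) then r.2.2 :: r.1 else r.1)
        (primrec_word.to_comp.comp Computable.fst)
        (Computable.list_cons.comp (Computable.fst.comp Computable.snd) (Computable.const [])) ?_
      have hb : Computable (fun z : (List (ℕ × ℕ) × ℕ × ℕ) × (List ℕ × (ℕ × ℕ)) =>
          z.2.1.any (fun u => P u z.2.2.1)) :=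
        computable_any (p := fun (z : (List (ℕ × ℕ) × ℕ × ℕ) × (List ℕ × (ℕ × ℕ))) u =>
          P u z.2.2.1) (Computable.fst.comp Computable.snd)
          (hc.comp Computable.snd (Computable.fst.comp (Computable.snd.comp
            (Computable.snd.comp Computable.fst))))
      exact Computable.cond hb
        (Computable.list_cons.comp (Computable.snd.comp (Computable.snd.comp Computable.snd))
          (Computable.fst.comp Computable.snd))
        (Computable.fst.comp Computable.snd)
    · exact hc.comp Computable.snd (Computable.snd.comp (Computable.snd.comp Computable.fst))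
  refine h1.of_eq fun q => ?_
  have := word_spec hP q.1 [q.2.1] q.2.2
  simp only [List.any_cons, List.any_nil, Bool.or_false] at this
  rw [← this]
  rfl

/-! ### Counting changes -/

theorem range_le {α : Type*} (F : ℕ → α) :
    (Set.range F).encard ≤ {s | F (s + 1) ≠ F s}.encard + 1 := by
  have hsub : Set.range F ⊆ insert (F 0) ((fun s => F (s + 1)) '' {s | F (s + 1) ≠ F s}) := by
    rintro _ ⟨n, rfl⟩
    induction n with
    | zero => exact Set.mem_insert _ _
    | succ n ih =>
      by_cases h : F (n + 1) = F n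
      · rw [h]; exact ih
      · exact Set.mem_insert_of_mem _ ⟨n, h, rfl⟩
  refine (Set.encard_le_encard hsub).trans ?_
  refine (Set.encard_insert_le _ _).trans ?_
  gcongr
  exact Set.encard_image_le _ _

theorem changes_comp {α β : Type*} (F : ℕ → α) (H : α → β) :
    {s | H (F (s + 1)) ≠ H (F s)}.encard ≤ {s | F (s + 1) ≠ F s}.encard := by
  refine Set.encard_le_encard fun s hs h => hs ?_
  rw [h]

theorem changes_step {α β : Type*} (F : ℕ → α) (H : α → ℕ → β)
    (h1 : ∀ c s s', H c (s + 1) ≠ H c s → H c (s' + 1) ≠ H c s' → s = s') :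
    {s | H (F (s + 1)) (s + 1) ≠ H (F s) s}.encard + 1 ≤
      2 * ({s | F (s + 1) ≠ F s}.encard + 1) := by
  have hsub : {s | H (F (s + 1)) (s + 1) ≠ H (F s) s} ⊆
      {s | F (s + 1) ≠ F s} ∪ {s | H (F s) (s + 1) ≠ H (F s) s} := by
    intro s hs
    by_cases h : F (s + 1) = F s
    · right
      exact fun h' => hs (by rw [h]; exact h')
    · left; exact h
  have hinj : Set.InjOn F {s | H (F s) (s + 1) ≠ H (F s) s} := by
    intro s hs s' hs' h
    exact h1 _ _ _ hs (by rw [h]; exact hs')
  have h2 : {s | H (F s) (s + 1) ≠ H (F s) s}.encard ≤ (Set.range F).encard := by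
    rw [← hinj.encard_image]
    exact Set.encard_le_encard (Set.image_subset_range _ _)
  have h3 := (Set.encard_le_encard hsub).trans (Set.encard_union_le _ _)
  have h4 := range_le F
  calc {s | H (F (s + 1)) (s + 1) ≠ H (F s) s}.encard + 1
      ≤ ({s | F (s + 1) ≠ F s}.encard + ({s | F (s + 1) ≠ F s}.encard + 1)) + 1 := by
        gcongr
        exact h3.trans (by gcongr; exact h2.trans h4)
    _ = 2 * ({s | F (s + 1) ≠ F s}.encard + 1) := by ring

theorem eventually_const {α : Type*} (F : ℕ → α) (h : {s | F (s + 1) ≠ F s}.encard < ⊤) :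
    ∃ c, ∃ s₀, ∀ s ≥ s₀, F s = c := by
  have hf : {s | F (s + 1) ≠ F s}.Finite := Set.encard_lt_top_iff.1 h
  obtain ⟨b, hb⟩ := hf.bddAbove
  refine ⟨F (b + 1), b + 1, fun s hs => ?_⟩
  induction s, hs using Nat.le_induction with
  | base => rfl
  | succ s hs ih =>
    rw [← ih]
    by_contra hne
    have := hb (show s ∈ {s | F (s + 1) ≠ F s} from hne)
    omega

/-! ### The construction of the linear extension -/

/-- decide the pair number `m` -/
def dec (P : ℕ → ℕ → Bool) (C : List (ℕ × ℕ)) (m : ℕ) : List (ℕ × ℕ) :=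
  bif R P C m.unpair.2 m.unpair.1 then C else m.unpair :: C

/-- candidate number `t` of requirement `i`: a pair to be added -/
def cand (P : ℕ → ℕ → Bool) (w : ℕ → ℕ → Option (ℕ × ℕ)) (i : ℕ) (C : List (ℕ × ℕ)) (t : ℕ) :
    Option (ℕ × ℕ) :=
  (w i t).bind fun q => bif R P C q.2 q.1 then none else some q

/-- first candidate below `s` -/
def srch (P : ℕ → ℕ → Bool) (w : ℕ → ℕ → Option (ℕ × ℕ)) (i : ℕ) (C : List (ℕ × ℕ)) :
    ℕ → Option (ℕ × ℕ)
  | 0 => none
  | t + 1 => (srch P w i C t).orElse fun _ => cand P w i C t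

/-- action of requirement `i` at stage `s` -/
def act (P : ℕ → ℕ → Bool) (w : ℕ → ℕ → Option (ℕ × ℕ)) (i : ℕ) (C : List (ℕ × ℕ)) (s : ℕ) :
    List (ℕ × ℕ) :=
  (srch P w i C s).toList ++ C

/-- number of requirements treated before the pair number `j` is decided -/
def rr (h : ℕ → ℕ) : ℕ → ℕ
  | 0 => 0
  | j + 1 => bif 2 ^ (rr h j + 1) ≤ h (j + 1) + 1 then rr h j + 1 else rr h j

/-- list of added pairs before the pair number `j` is decided, as computed at stage `s` -/
def D (P : ℕ → ℕ → Bool) (w : ℕ → ℕ → Option (ℕ × ℕ)) (h : ℕ → ℕ) : ℕ → ℕ → List (ℕ × ℕ)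
  | 0, _ => []
  | j + 1, s => bif 2 ^ (rr h j + 1) ≤ h (j + 1) + 1 then act P w (rr h j) (dec P (D P w h j s) j) s
      else dec P (D P w h j s) j

theorem srch_some {P : ℕ → ℕ → Bool} {w : ℕ → ℕ → Option (ℕ × ℕ)} {i : ℕ} {C : List (ℕ × ℕ)}
    {q : ℕ × ℕ} : ∀ {s : ℕ}, srch P w i C s = some q →
      ∃ t, w i t = some q ∧ R P C q.2 q.1 = false := by
  intro s
  induction s with
  | zero => intro h; cases h
  | succ s ih =>
    intro h
    rw [srch] at h
    cases hs : srch P w i C s with
    | some q' =>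
      rw [hs] at h
      simp only [Option.orElse_some, Option.some.injEq] at h
      subst h
      exact ih hs
    | none =>
      rw [hs] at h
      simp only [Option.orElse_none, cand] at h
      cases hw : w i s with
      | none => rw [hw] at h; cases h
      | some q' =>
        rw [hw] at h
        simp only [Option.bind_some] at h
        cases hR : R P C q'.2 q'.1 with
        | true => rw [hR] at h; cases h
        | false =>
          rw [hR] at h
          simp only [cond_false, Option.some.injEq] at h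
          subst h
          exact ⟨s, hw, hR⟩

theorem srch_mono {P : ℕ → ℕ → Bool} {w : ℕ → ℕ → Option (ℕ × ℕ)} {i : ℕ} {C : List (ℕ × ℕ)}
    {q : ℕ × ℕ} {s s' : ℕ} (hs : s ≤ s') (h : srch P w i C s = some q) :
    srch P w i C s' = some q := by
  induction s', hs using Nat.le_induction with
  | base => exact h
  | succ s' _ ih => rw [srch, ih]; rfl

theorem srch_none {P : ℕ → ℕ → Bool} {w : ℕ → ℕ → Option (ℕ × ℕ)} {i : ℕ} {C : List (ℕ × ℕ)}
    {q : ℕ × ℕ} {t s : ℕ} (hts : t < s) (h : srch P w i C s = none) (hw : w i t = some q) :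
    R P C q.2 q.1 = true := by
  cases h1 : srch P w i C (t + 1) with
  | some q' => rw [srch_mono hts h1] at h; cases h
  | none =>
    rw [srch] at h1
    cases h2 : srch P w i C t with
    | some q' => rw [h2] at h1; cases h1
    | none =>
      rw [h2] at h1
      simp only [Option.orElse_none, cand, hw, Option.bind_some] at h1
      cases hR : R P C q.2 q.1 with
      | true => rfl
      | false => rw [hR] at h1; cases h1

theorem act_change {P : ℕ → ℕ → Bool} {w : ℕ → ℕ → Option (ℕ × ℕ)} {i : ℕ} {C : List (ℕ × ℕ)}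
    {s : ℕ} (h : act P w i C (s + 1) ≠ act P w i C s) :
    srch P w i C s = none ∧ ∃ q, srch P w i C (s + 1) = some q := by
  cases h1 : srch P w i C s with
  | some q => exact absurd (by unfold act; rw [h1, srch_mono (Nat.le_succ s) h1]) h
  | none =>
    refine ⟨rfl, ?_⟩
    cases h2 : srch P w i C (s + 1) with
    | some q => exact ⟨q, rfl⟩
    | none => exact absurd (by unfold act; rw [h1, h2]) h

theorem act_once {P : ℕ → ℕ → Bool} {w : ℕ → ℕ → Option (ℕ × ℕ)} {i : ℕ} {C : List (ℕ × ℕ)}
    {s s' : ℕ} (h : act P w i C (s + 1) ≠ act P w i C s)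
    (h' : act P w i C (s' + 1) ≠ act P w i C s') : s = s' := by
  obtain ⟨a, q, b⟩ := act_change h
  obtain ⟨a', q', b'⟩ := act_change h'
  rcases lt_trichotomy s s' with hl | hl | hl
  · rw [srch_mono hl b] at a'; cases a'
  · exact hl
  · rw [srch_mono hl b'] at a; cases a

theorem ok_dec {P : ℕ → ℕ → Bool} {C : List (ℕ × ℕ)} (h : Ok P C) (m : ℕ) : Ok P (dec P C m) := by
  unfold dec
  cases hR : R P C m.unpair.2 m.unpair.1 with
  | true => exact h
  | false => exact ⟨hR, h⟩

theorem ok_act {P : ℕ → ℕ → Bool} {w : ℕ → ℕ → Option (ℕ × ℕ)} {i : ℕ} {C : List (ℕ × ℕ)}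
    (h : Ok P C) (s : ℕ) : Ok P (act P w i C s) := by
  unfold act
  cases hs : srch P w i C s with
  | none => exact h
  | some q =>
    obtain ⟨t, _, hR⟩ := srch_some hs
    exact ⟨hR, h⟩

theorem ok_D {P : ℕ → ℕ → Bool} {w : ℕ → ℕ → Option (ℕ × ℕ)} {h : ℕ → ℕ} :
    ∀ j s, Ok P (D P w h j s) := by
  intro j
  induction j with
  | zero => intro s; exact trivial
  | succ j ih =>
    intro s
    rw [D]
    cases decide (2 ^ (rr h j + 1) ≤ h (j + 1) + 1) with
    | true => exact ok_act (ok_dec (ih s) j) s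
    | false => exact ok_dec (ih s) j

theorem two_pow_rr {h : ℕ → ℕ} (hm : Monotone h) : ∀ j, 2 ^ (rr h j) ≤ h j + 1 := by
  intro j
  induction j with
  | zero => simp [rr]
  | succ j ih =>
    rw [rr]
    by_cases hc : 2 ^ (rr h j + 1) ≤ h (j + 1) + 1
    · simp [hc]
    · have h1 := hm (Nat.le_succ j)
      simp only [hc, decide_false, cond_false]
      simp only [Nat.succ_eq_add_one] at h1
      omega

theorem D_changes {P : ℕ → ℕ → Bool} {w : ℕ → ℕ → Option (ℕ × ℕ)} {h : ℕ → ℕ} :
    ∀ j, {s | D P w h j (s + 1) ≠ D P w h j s}.encard + 1 ≤ ((2 ^ (rr h j) : ℕ) : ℕ∞) := by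
  intro j
  induction j with
  | zero => simp [D, rr]
  | succ j ih =>
    by_cases hc : 2 ^ (rr h j + 1) ≤ h (j + 1) + 1
    · have e1 : ∀ s, D P w h (j + 1) s = act P w (rr h j) (dec P (D P w h j s) j) s := by
        intro s; rw [D]; simp [hc]
      have e2 : rr h (j + 1) = rr h j + 1 := by rw [rr]; simp [hc]
      rw [e2]
      simp only [e1]
      have := changes_step (D P w h j) (fun C s => act P w (rr h j) (dec P C j) s)
        (fun c s s' a b => act_once a b)
      refine this.trans ?_
      calc (2 : ℕ∞) * ({s | D P w h j (s + 1) ≠ D P w h j s}.encard + 1)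
          ≤ 2 * ((2 ^ (rr h j) : ℕ) : ℕ∞) := by gcongr
        _ = ((2 ^ (rr h j + 1) : ℕ) : ℕ∞) := by push_cast; ring
    · have e1 : ∀ s, D P w h (j + 1) s = dec P (D P w h j s) j := by
        intro s; rw [D]; simp [hc]
      have e2 : rr h (j + 1) = rr h j := by rw [rr]; simp [hc]
      rw [e2]
      simp only [e1]
      exact (add_le_add (changes_comp (D P w h j) (fun C => dec P C j)) le_rfl).trans ih

theorem D_lim {P : ℕ → ℕ → Bool} {w : ℕ → ℕ → Option (ℕ × ℕ)} {h : ℕ → ℕ} (j : ℕ) :
    ∃ C, ∃ s₀, ∀ s ≥ s₀, D P w h j s = C := by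
  refine eventually_const _ ?_
  have h1 := D_changes (P := P) (w := w) (h := h) j
  refine lt_of_le_of_lt ((le_self_add).trans h1) ?_
  exact ENat.natCast_lt_top _

/-- limit list -/
noncomputable def Dl (P : ℕ → ℕ → Bool) (w : ℕ → ℕ → Option (ℕ × ℕ)) (h : ℕ → ℕ) (j : ℕ) :
    List (ℕ × ℕ) := Classical.choose (D_lim (P := P) (w := w) (h := h) j)

theorem Dl_spec {P : ℕ → ℕ → Bool} {w : ℕ → ℕ → Option (ℕ × ℕ)} {h : ℕ → ℕ} (j : ℕ) :
    ∃ s₀, ∀ s ≥ s₀, D P w h j s = Dl P w h j := Classical.choose_spec (D_lim j)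

theorem ok_Dl {P : ℕ → ℕ → Bool} {w : ℕ → ℕ → Option (ℕ × ℕ)} {h : ℕ → ℕ} (j : ℕ) :
    Ok P (Dl P w h j) := by
  obtain ⟨s₀, hs⟩ := Dl_spec (P := P) (w := w) (h := h) j
  rw [← hs s₀ le_rfl]
  exact ok_D j s₀

theorem R_dec {P : ℕ → ℕ → Bool} {C : List (ℕ × ℕ)} {m x y : ℕ} (h : R P C x y = true) :
    R P (dec P C m) x y = true := by
  unfold dec
  cases hR : R P C m.unpair.2 m.unpair.1 with
  | true => exact h
  | false => exact R_mono h

theorem R_act {P : ℕ → ℕ → Bool} {w : ℕ → ℕ → Option (ℕ × ℕ)} {i : ℕ} {C : List (ℕ × ℕ)}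
    {s x y : ℕ} (h : R P C x y = true) : R P (act P w i C s) x y = true := by
  unfold act
  cases hs : srch P w i C s with
  | none => exact h
  | some q => exact R_mono h

theorem R_Dl_dec {P : ℕ → ℕ → Bool} {w : ℕ → ℕ → Option (ℕ × ℕ)} {h : ℕ → ℕ} {j x y : ℕ}
    (hxy : R P (dec P (Dl P w h j) j) x y = true) : R P (Dl P w h (j + 1)) x y = true := by
  obtain ⟨s₀, hs⟩ := Dl_spec (P := P) (w := w) (h := h) j
  obtain ⟨s₁, hs'⟩ := Dl_spec (P := P) (w := w) (h := h) (j + 1)
  have e := hs' (max s₀ s₁) (le_max_right _ _)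
  rw [← e, D, hs _ (le_max_left _ _)]
  cases decide (2 ^ (rr h j + 1) ≤ h (j + 1) + 1) with
  | true => exact R_act hxy
  | false => exact hxy

theorem R_Dl_mono {P : ℕ → ℕ → Bool} {w : ℕ → ℕ → Option (ℕ × ℕ)} {h : ℕ → ℕ} {j j' x y : ℕ}
    (hj : j ≤ j') (hxy : R P (Dl P w h j) x y = true) : R P (Dl P w h j') x y = true := by
  induction j', hj using Nat.le_induction with
  | base => exact hxy
  | succ j' _ ih => exact R_Dl_dec (R_dec ih)

theorem dec_total {P : ℕ → ℕ → Bool} (hP : BPos P) {C : List (ℕ × ℕ)} (hC : Ok P C) (x y : ℕ) :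
    R P (dec P C (Nat.pair x y)) x y = true ∨ R P (dec P C (Nat.pair x y)) y x = true := by
  unfold dec
  rw [Nat.unpair_pair]
  cases hR : R P C y x with
  | true => right; simpa using hR
  | false => left; simpa using R_new hP hC (x, y)

/-- the linear extension -/
def Lin (P : ℕ → ℕ → Bool) (w : ℕ → ℕ → Option (ℕ × ℕ)) (h : ℕ → ℕ) (x y : ℕ) : Prop :=
  ∃ j, R P (Dl P w h j) x y = true

theorem Lin_ext {P : ℕ → ℕ → Bool} (hP : BPos P) (w : ℕ → ℕ → Option (ℕ × ℕ)) (h : ℕ → ℕ) :
    LinearExtension (fun x y => P x y = true) (Lin P w h) := by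
  refine ⟨fun x => ⟨0, (R_pos hP (ok_Dl 0)).refl x⟩, ?_, ?_, ?_, ?_⟩
  · rintro x y z ⟨j, hj⟩ ⟨k, hk⟩
    exact ⟨max j k, (R_pos hP (ok_Dl _)).trans _ _ _ (R_Dl_mono (le_max_left _ _) hj)
      (R_Dl_mono (le_max_right _ _) hk)⟩
  · rintro x y ⟨j, hj⟩ ⟨k, hk⟩
    exact (R_pos hP (ok_Dl (max j k))).antisymm _ _ (R_Dl_mono (le_max_left _ _) hj)
      (R_Dl_mono (le_max_right _ _) hk)
  · intro x y
    rcases dec_total hP (ok_Dl (w := w) (h := h) (Nat.pair x y)) x y with a | a
    · exact Or.inl ⟨_, R_Dl_dec a⟩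
    · exact Or.inr ⟨_, R_Dl_dec a⟩
  · intro x y hxy
    exact ⟨0, R_base hxy _⟩

theorem rr_le {h : ℕ → ℕ} (j : ℕ) : rr h (j + 1) ≤ rr h j + 1 := by
  rw [rr]
  cases decide (2 ^ (rr h j + 1) ≤ h (j + 1) + 1) <;> simp

/-- every requirement is treated -/
theorem rr_surj {h : ℕ → ℕ} (hu : ∀ N, ∃ m, ∀ m' ≥ m, N ≤ h m') (i : ℕ) :
    ∃ j, rr h j = i ∧ 2 ^ (rr h j + 1) ≤ h (j + 1) + 1 := by
  have hex : ∃ j, i < rr h j := by
    by_contra hno
    push Not at hno
    have hmono : Monotone (rr h) := by
      refine monotone_nat_of_le_succ fun j => ?_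
      rw [rr]
      cases decide (2 ^ (rr h j + 1) ≤ h (j + 1) + 1) <;> simp
    obtain ⟨m, hm⟩ := hu (2 ^ (i + 1))
    have key : ∀ d, d ≤ rr h (m + d) := by
      intro d
      induction d with
      | zero => exact Nat.zero_le _
      | succ d ih =>
        have h1 : 2 ^ (rr h (m + d) + 1) ≤ h (m + d + 1) + 1 := by
          have a := hm (m + d + 1) (by omega)
          have b : 2 ^ (rr h (m + d) + 1) ≤ 2 ^ (i + 1) :=
            Nat.pow_le_pow_right (by norm_num) (by have := hno (m + d); omega)
          omega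
        have : rr h (m + (d + 1)) = rr h (m + d) + 1 := by
          rw [← Nat.add_assoc, rr]; simp [h1]
        omega
    have a := key (i + 1)
    have b := hno (m + (i + 1))
    omega
  classical
  have h0 : Nat.find hex ≠ 0 := by
    intro h0
    have := Nat.find_spec hex
    rw [h0] at this
    simp [rr] at this
  obtain ⟨j, hj⟩ := Nat.exists_eq_succ_of_ne_zero h0
  have h1 : ¬ i < rr h j := Nat.find_min hex (by rw [hj]; exact Nat.lt_succ_self j)
  have h2 : i < rr h (j + 1) := by have := Nat.find_spec hex; rwa [hj] at this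
  have h3 := rr_le (h := h) j
  refine ⟨j, by omega, ?_⟩
  by_contra hc
  have : rr h (j + 1) = rr h j := by rw [rr]; simp [hc]
  omega

theorem requirement {P : ℕ → ℕ → Bool} (hP : BPos P) (w : ℕ → ℕ → Option (ℕ × ℕ)) {h : ℕ → ℕ}
    (hu : ∀ N, ∃ m, ∀ m' ≥ m, N ≤ h m') (i : ℕ) :
    (∃ t q, w i t = some q ∧ Lin P w h q.1 q.2 ∧ q.1 ≠ q.2) ∨
    ∃ C, Ok P C ∧ ∀ t q, w i t = some q → R P C q.2 q.1 = true := by
  obtain ⟨j, hj, hc⟩ := rr_surj hu i
  subst hj
  set C := dec P (Dl P w h j) j with hC
  have okC : Ok P C := ok_dec (ok_Dl j) j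
  by_cases hall : ∀ s, srch P w (rr h j) C s = none
  · right
    exact ⟨C, okC, fun t q ht => srch_none (Nat.lt_succ_self t) (hall (t + 1)) ht⟩
  · left
    push Not at hall
    obtain ⟨s, hs⟩ := hall
    obtain ⟨q, hq⟩ := Option.ne_none_iff_exists'.1 hs
    obtain ⟨t, ht, hR⟩ := srch_some hq
    refine ⟨t, q, ht, ?_, ?_⟩
    · obtain ⟨s₀, hs0⟩ := Dl_spec (P := P) (w := w) (h := h) j
      obtain ⟨s₁, hs1⟩ := Dl_spec (P := P) (w := w) (h := h) (j + 1)
      refine ⟨j + 1, ?_⟩
      have e := hs1 (max (max s₀ s₁) s) ((le_max_right _ _).trans (le_max_left _ _))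
      rw [← e, D, hs0 _ ((le_max_left _ _).trans (le_max_left _ _))]
      simp only [hc, decide_true, cond_true]
      unfold act
      rw [← hC, srch_mono (le_max_right _ _) hq]
      exact R_new hP okC q
    · intro he
      rw [he, (R_pos hP okC).refl] at hR
      cases hR

/-! ### Computability of the approximation -/

theorem computable_rr {h : ℕ → ℕ} (hc : Computable h) : Computable (rr h) := by
  have h1 : Computable fun j : ℕ => Nat.rec (motive := fun _ => ℕ) 0
      (fun j IH => bif 2 ^ (IH + 1) ≤ h (j + 1) + 1 then IH + 1 else IH) j := by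
    refine Computable.nat_rec (h := fun (_ : ℕ) (q : ℕ × ℕ) =>
      bif 2 ^ (q.2 + 1) ≤ h (q.1 + 1) + 1 then q.2 + 1 else q.2) Computable.id
      (Computable.const 0) ?_
    have p2 : Primrec (fun n : ℕ => 2 ^ n) := by
      have : Primrec (fun n : ℕ => Nat.rec (motive := fun _ => ℕ) 1 (fun _ IH => IH * 2) n) :=
        Primrec.nat_rec' (h := fun (_ : ℕ) (q : ℕ × ℕ) => q.2 * 2) Primrec.id (Primrec.const 1)
          (Primrec.nat_mul.comp (Primrec.snd.comp Primrec.snd) (Primrec.const 2))
      refine this.of_eq fun n => ?_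
      induction n with
      | zero => rfl
      | succ n ih => rw [pow_succ, ← ih]
    have hs2 : Computable (fun a : ℕ × ℕ × ℕ => a.2.2 + 1) :=
      (Primrec.succ.comp (Primrec.snd.comp Primrec.snd)).to_comp
    have hb : Computable (fun a : ℕ × ℕ × ℕ =>
        decide (2 ^ (a.2.2 + 1) ≤ h (a.2.1 + 1) + 1)) := by
      have hle : Computable₂ (fun a b : ℕ => decide (a ≤ b)) := Primrec.nat_le.decide.to_comp
      exact hle.comp (p2.to_comp.comp hs2)
        (Computable.succ.comp (hc.comp (Computable.succ.comp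
          (Computable.fst.comp Computable.snd))))
    exact Computable.cond hb hs2 (Computable.snd.comp Computable.snd)
  refine h1.of_eq fun j => ?_
  induction j with
  | zero => rfl
  | succ j ih => rw [rr, ← ih]

theorem computable_flag {h : ℕ → ℕ} (hc : Computable h) :
    Computable (fun j => decide (2 ^ (rr h j + 1) ≤ h (j + 1) + 1)) := by
  have p2 : Primrec (fun n : ℕ => 2 ^ n) := by
    have : Primrec (fun n : ℕ => Nat.rec (motive := fun _ => ℕ) 1 (fun _ IH => IH * 2) n) :=
      Primrec.nat_rec' (h := fun (_ : ℕ) (q : ℕ × ℕ) => q.2 * 2) Primrec.id (Primrec.const 1)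
        (Primrec.nat_mul.comp (Primrec.snd.comp Primrec.snd) (Primrec.const 2))
    refine this.of_eq fun n => ?_
    induction n with
    | zero => rfl
    | succ n ih => rw [pow_succ, ← ih]
  have hle : Computable₂ (fun a b : ℕ => decide (a ≤ b)) := Primrec.nat_le.decide.to_comp
  exact hle.comp (p2.to_comp.comp (Computable.succ.comp (computable_rr hc)))
    (Computable.succ.comp (hc.comp Computable.succ))

theorem computable_dec {P : ℕ → ℕ → Bool} (hP : BPos P) (hc : Computable₂ P) :
    Computable₂ (dec P) := by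
  have hR := computable_R hP hc
  have hu : Computable (fun a : List (ℕ × ℕ) × ℕ => a.2.unpair) :=
    Primrec.unpair.to_comp.comp Computable.snd
  have hb := hR.comp (Computable.fst.pair ((Computable.snd.comp hu).pair
    (Computable.fst.comp hu)))
  exact Computable.cond hb Computable.fst (Computable.list_cons.comp hu Computable.fst)

theorem computable_cand {P : ℕ → ℕ → Bool} (hP : BPos P) (hc : Computable₂ P)
    {w : ℕ → ℕ → Option (ℕ × ℕ)} (hw : Computable₂ w) :
    Computable (fun a : ℕ × List (ℕ × ℕ) × ℕ => cand P w a.1 a.2.1 a.2.2) := by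
  have hR := computable_R hP hc
  unfold cand
  refine Computable.option_bind (f := fun a : ℕ × List (ℕ × ℕ) × ℕ => w a.1 a.2.2)
    (g := fun (a : ℕ × List (ℕ × ℕ) × ℕ) (q : ℕ × ℕ) =>
      bif R P a.2.1 q.2 q.1 then none else some q) ?_ ?_
  · exact hw.comp Computable.fst (Computable.snd.comp Computable.snd)
  · have hq : Computable (fun z : (ℕ × List (ℕ × ℕ) × ℕ) × (ℕ × ℕ) =>
        (z.1.2.1, z.2.2, z.2.1)) :=
      (Computable.fst.comp (Computable.snd.comp Computable.fst)).pair
        ((Computable.snd.comp Computable.snd).pair (Computable.fst.comp Computable.snd))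
    have hb := hR.comp hq
    exact Computable.cond hb (Computable.const none) (Computable.option_some.comp Computable.snd)

theorem computable_srch {P : ℕ → ℕ → Bool} (hP : BPos P) (hc : Computable₂ P)
    {w : ℕ → ℕ → Option (ℕ × ℕ)} (hw : Computable₂ w) :
    Computable (fun a : ℕ × List (ℕ × ℕ) × ℕ => srch P w a.1 a.2.1 a.2.2) := by
  have h1 : Computable fun a : ℕ × List (ℕ × ℕ) × ℕ =>
      Nat.rec (motive := fun _ => Option (ℕ × ℕ)) none
      (fun t IH => Option.casesOn (motive := fun _ => Option (ℕ × ℕ)) IH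
        (cand P w a.1 a.2.1 t) (fun q => some q)) a.2.2 := by
    refine Computable.nat_rec (h := fun (a : ℕ × List (ℕ × ℕ) × ℕ) (q : ℕ × Option (ℕ × ℕ)) =>
      Option.casesOn (motive := fun _ => Option (ℕ × ℕ)) q.2 (cand P w a.1 a.2.1 q.1)
        (fun q => some q)) (Computable.snd.comp Computable.snd) (Computable.const none) ?_
    refine Computable.option_casesOn
      (o := fun z : (ℕ × List (ℕ × ℕ) × ℕ) × (ℕ × Option (ℕ × ℕ)) => z.2.2)
      (f := fun z : (ℕ × List (ℕ × ℕ) × ℕ) × (ℕ × Option (ℕ × ℕ)) => cand P w z.1.1 z.1.2.1 z.2.1)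
      (g := fun (_ : (ℕ × List (ℕ × ℕ) × ℕ) × (ℕ × Option (ℕ × ℕ))) (q : ℕ × ℕ) => some q)
      (Computable.snd.comp Computable.snd) ?_ ?_
    · have hq : Computable (fun z : (ℕ × List (ℕ × ℕ) × ℕ) × (ℕ × Option (ℕ × ℕ)) =>
          (z.1.1, z.1.2.1, z.2.1)) :=
        (Computable.fst.comp Computable.fst).pair
          ((Computable.fst.comp (Computable.snd.comp Computable.fst)).pair
            (Computable.fst.comp Computable.snd))
      have hb := (computable_cand hP hc hw).comp hq
      exact hb
    · exact Computable.option_some.comp Computable.snd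
  refine h1.of_eq fun a => ?_
  obtain ⟨i, C, s⟩ := a
  simp only
  induction s with
  | zero => rfl
  | succ s ih =>
    rw [srch]
    change Option.rec (motive := fun _ => Option (ℕ × ℕ)) (cand P w i C s) (fun q => some q)
      (Nat.rec (motive := fun _ => Option (ℕ × ℕ)) none
        (fun t IH => Option.rec (motive := fun _ => Option (ℕ × ℕ)) (cand P w i C t)
          (fun val => some val) IH) s) = _
    rw [ih]
    cases srch P w i C s <;> rfl

theorem computable_act {P : ℕ → ℕ → Bool} (hP : BPos P) (hc : Computable₂ P)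
    {w : ℕ → ℕ → Option (ℕ × ℕ)} (hw : Computable₂ w) :
    Computable (fun a : ℕ × List (ℕ × ℕ) × ℕ => act P w a.1 a.2.1 a.2.2) := by
  have h1 : Computable (fun a : ℕ × List (ℕ × ℕ) × ℕ =>
      Option.casesOn (motive := fun _ => List (ℕ × ℕ)) (srch P w a.1 a.2.1 a.2.2) a.2.1
        (fun q => q :: a.2.1)) := by
    refine Computable.option_casesOn (o := fun a : ℕ × List (ℕ × ℕ) × ℕ => srch P w a.1 a.2.1 a.2.2)
      (f := fun a : ℕ × List (ℕ × ℕ) × ℕ => a.2.1)
      (g := fun (a : ℕ × List (ℕ × ℕ) × ℕ) (q : ℕ × ℕ) => q :: a.2.1)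
      (computable_srch hP hc hw) (Computable.fst.comp Computable.snd) ?_
    exact Computable.list_cons.comp Computable.snd
      (Computable.fst.comp (Computable.snd.comp Computable.fst))
  refine h1.of_eq fun a => ?_
  unfold act
  cases srch P w a.1 a.2.1 a.2.2 <;> rfl

theorem computable_D {P : ℕ → ℕ → Bool} (hP : BPos P) (hc : Computable₂ P)
    {w : ℕ → ℕ → Option (ℕ × ℕ)} (hw : Computable₂ w) {h : ℕ → ℕ} (hh : Computable h) :
    Computable₂ (D P w h) := by
  have h1 : Computable fun a : ℕ × ℕ => Nat.rec (motive := fun _ => List (ℕ × ℕ)) []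
      (fun j IH => bif 2 ^ (rr h j + 1) ≤ h (j + 1) + 1 then act P w (rr h j) (dec P IH j) a.2
      else dec P IH j) a.1 := by
    refine Computable.nat_rec (h := fun (a : ℕ × ℕ) (q : ℕ × List (ℕ × ℕ)) =>
      bif 2 ^ (rr h q.1 + 1) ≤ h (q.1 + 1) + 1 then act P w (rr h q.1) (dec P q.2 q.1) a.2
      else dec P q.2 q.1) Computable.fst (Computable.const []) ?_
    have hj : Computable (fun z : (ℕ × ℕ) × (ℕ × List (ℕ × ℕ)) => z.2.1) :=
      Computable.fst.comp Computable.snd
    have hd : Computable (fun z : (ℕ × ℕ) × (ℕ × List (ℕ × ℕ)) => dec P z.2.2 z.2.1) :=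
      (computable_dec hP hc).comp (Computable.snd.comp Computable.snd) hj
    have hq : Computable (fun z : (ℕ × ℕ) × (ℕ × List (ℕ × ℕ)) =>
        (rr h z.2.1, dec P z.2.2 z.2.1, z.1.2)) :=
      ((computable_rr hh).comp hj).pair (hd.pair (Computable.snd.comp Computable.fst))
    have ha := (computable_act hP hc hw).comp hq
    exact Computable.cond ((computable_flag hh).comp hj) ha hd
  refine h1.of_eq fun a => ?_
  obtain ⟨j, s⟩ := a
  simp only
  induction j with
  | zero => rfl
  | succ j ih => rw [D, ← ih]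

theorem Lin_mind {P : ℕ → ℕ → Bool} (hP : BPos P) (hc : Computable₂ P)
    {w : ℕ → ℕ → Option (ℕ × ℕ)} (hw : Computable₂ w) {h : ℕ → ℕ} (hh : Computable h)
    (hm : Monotone h) : MindChanges (Lin P w h) (fun x y => h (Nat.pair x y)) := by
  refine ⟨fun x y s => R P (dec P (D P w h (Nat.pair x y) s) (Nat.pair x y)) x y, ?_, ?_, ?_⟩
  · have hm' : Computable (fun p : ℕ × ℕ × ℕ => Nat.pair p.1 p.2.1) :=
      (Primrec₂.natPair.comp Primrec.fst (Primrec.fst.comp Primrec.snd)).to_comp
    have hD := (computable_D hP hc hw hh).comp hm' (Computable.snd.comp Computable.snd)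
    have hd := (computable_dec hP hc).comp hD hm'
    have hq := hd.pair (Computable.fst.pair
      (Computable.fst.comp (Computable.snd (α := ℕ) (β := ℕ × ℕ))))
    have := (computable_R hP hc).comp hq
    exact this
  · intro x y
    have h1 := changes_comp (D P w h (Nat.pair x y)) (fun C => R P (dec P C (Nat.pair x y)) x y)
    have h2 := D_changes (P := P) (w := w) (h := h) (Nat.pair x y)
    have h3 := two_pow_rr hm (Nat.pair x y)
    have h4 : {s | D P w h (Nat.pair x y) (s + 1) ≠ D P w h (Nat.pair x y) s}.encard + 1 ≤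
        ((h (Nat.pair x y) : ℕ) : ℕ∞) + 1 := h2.trans (by exact_mod_cast h3)
    exact h1.trans ((ENat.add_le_add_iff_right (by simp)).1 h4)
  · intro x y
    obtain ⟨s₀, hs⟩ := Dl_spec (P := P) (w := w) (h := h) (Nat.pair x y)
    refine ⟨s₀, fun s hss => ?_⟩
    simp only
    rw [hs s hss]
    constructor
    · intro hR
      exact ⟨_, R_Dl_dec hR⟩
    · intro hL
      rcases dec_total hP (ok_Dl (w := w) (h := h) (Nat.pair x y)) x y with a | a
      · exact a
      · have := (Lin_ext hP w h).antisymm x y hL ⟨_, R_Dl_dec a⟩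
        subst this
        exact a

theorem ev_h {h : ℕ → ℕ} (hm : Monotone h) (hu : ∀ N, ∃ m, N ≤ h m) :
    ∀ N, ∃ m, ∀ m' ≥ m, N ≤ h m' := by
  intro N
  obtain ⟨m, hm'⟩ := hu N
  exact ⟨m, fun m' h' => hm'.trans (hm h')⟩

/-! ### Computable well-foundedness -/

theorem wf_cons {P : ℕ → ℕ → Bool} (hP : BPos P) {C : List (ℕ × ℕ)} {p : ℕ × ℕ}
    (hok : Ok P (p :: C)) (hwf : CompWF (fun x y => R P C x y = true)) :
    CompWF (fun x y => R P (p :: C) x y = true) := by
  rintro ⟨f, hf, hd⟩
  have I := R_pos hP hok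
  have J := R_pos hP hok.2
  have mono : ∀ m n, n ≤ m → R P (p :: C) (f m) (f n) = true := by
    intro m n hnm
    induction m, hnm using Nat.le_induction with
    | base => exact I.refl _
    | succ m _ ih => exact I.trans _ _ _ (hd m).1 ih
  have key : ∃ N, ∀ n ≥ N, R P C (f (n + 1)) (f n) = true := by
    by_cases hn : ∃ n, R P C (f (n + 1)) (f n) = false
    · obtain ⟨n, hn⟩ := hn
      refine ⟨n + 1, fun m hm => ?_⟩
      by_contra hne
      have h1 := (hd n).1
      have h2 := (hd m).1
      simp only [R, Bool.or_eq_true, Bool.and_eq_true] at h1 h2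
      rcases h1 with h1 | ⟨h1, h1'⟩
      · rw [hn] at h1; cases h1
      rcases h2 with h2 | ⟨h2, h2'⟩
      · exact hne h2
      have a : R P (p :: C) p.2 p.1 = true :=
        I.trans _ _ _ (R_mono h2') (I.trans _ _ _ (mono m (n + 1) hm) (R_mono h1))
      have b := I.antisymm _ _ a (R_new hP hok.2 p)
      have c := hok.1
      rw [b, J.refl] at c
      cases c
    · push Not at hn
      refine ⟨0, fun n _ => ?_⟩
      have := hn n
      simpa using this
  obtain ⟨N, hN⟩ := key
  exact hwf ⟨fun n => f (N + n), hf.comp (Primrec.nat_add.comp (Primrec.const N)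
    Primrec.id).to_comp, fun n => ⟨hN _ (Nat.le_add_right N n), (hd _).2⟩⟩

theorem wf_R {P : ℕ → ℕ → Bool} (hP : BPos P) (hwf : CompWF (fun x y => P x y = true)) :
    ∀ {C : List (ℕ × ℕ)}, Ok P C → CompWF (fun x y => R P C x y = true) := by
  intro C
  induction C with
  | nil => intro _; exact hwf
  | cons p C ih => intro hok; exact wf_cons hP hok (ih hok.2)

/-- pairs listed for the `i`-th code: its values at arguments `k < k'` -/
def wDesc (i t : ℕ) : Option (ℕ × ℕ) :=
  (Code.evaln t.unpair.2 (Denumerable.ofNat Code i) t.unpair.1.unpair.1).bind fun u =>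
    (Code.evaln t.unpair.2 (Denumerable.ofNat Code i) t.unpair.1.unpair.2).bind fun v =>
      bif t.unpair.1.unpair.1 < t.unpair.1.unpair.2 then some (u, v) else none

theorem primrec_wDesc : Primrec₂ wDesc := by
  have u1 : Primrec (fun n : ℕ => n.unpair.1) := Primrec.fst.comp Primrec.unpair
  have u2 : Primrec (fun n : ℕ => n.unpair.2) := Primrec.snd.comp Primrec.unpair
  have hc : Primrec (fun a : ℕ × ℕ => (Denumerable.ofNat Code a.1)) :=
    (Primrec.ofNat Code).comp Primrec.fst
  have ha : Primrec (fun a : ℕ × ℕ => a.2.unpair.1.unpair.1) := u1.comp (u1.comp Primrec.snd)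
  have hb : Primrec (fun a : ℕ × ℕ => a.2.unpair.1.unpair.2) := u2.comp (u1.comp Primrec.snd)
  have ht : Primrec (fun a : ℕ × ℕ => a.2.unpair.2) := u2.comp Primrec.snd
  have e1 : Primrec (fun a : ℕ × ℕ =>
      Code.evaln a.2.unpair.2 (Denumerable.ofNat Code a.1) a.2.unpair.1.unpair.1) :=
    Code.primrec_evaln.comp ((ht.pair hc).pair ha)
  have e2 : Primrec (fun a : ℕ × ℕ =>
      Code.evaln a.2.unpair.2 (Denumerable.ofNat Code a.1) a.2.unpair.1.unpair.2) :=
    Code.primrec_evaln.comp ((ht.pair hc).pair hb)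
  unfold wDesc
  refine Primrec.option_bind e1 ?_
  refine Primrec.option_bind (e2.comp Primrec.fst) ?_
  have hlt : Primrec (fun z : ((ℕ × ℕ) × ℕ) × ℕ =>
      decide (z.1.1.2.unpair.1.unpair.1 < z.1.1.2.unpair.1.unpair.2)) :=
    Primrec.nat_lt.decide.comp (ha.comp (Primrec.fst.comp Primrec.fst))
      (hb.comp (Primrec.fst.comp Primrec.fst))
  exact Primrec.cond hlt
    (Primrec.option_some.comp ((Primrec.snd.comp Primrec.fst).pair Primrec.snd))
    (Primrec.const none)

theorem wDesc_some {i t : ℕ} {q : ℕ × ℕ} (h : wDesc i t = some q) :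
    ∃ k k', k < k' ∧ q.1 ∈ Code.eval (Denumerable.ofNat Code i) k ∧
      q.2 ∈ Code.eval (Denumerable.ofNat Code i) k' := by
  unfold wDesc at h
  rw [Option.bind_eq_some_iff] at h
  obtain ⟨u, hu, h⟩ := h
  rw [Option.bind_eq_some_iff] at h
  obtain ⟨v, hv, h⟩ := h
  by_cases hlt : t.unpair.1.unpair.1 < t.unpair.1.unpair.2
  · rw [decide_eq_true hlt] at h
    simp only [cond_true, Option.some.injEq] at h
    subst h
    exact ⟨_, _, hlt, Code.evaln_sound hu, Code.evaln_sound hv⟩
  · rw [decide_eq_false hlt] at h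
    cases h

theorem wDesc_mem {i k k' u v : ℕ} (hk : k < k')
    (hu : u ∈ Code.eval (Denumerable.ofNat Code i) k)
    (hv : v ∈ Code.eval (Denumerable.ofNat Code i) k') : ∃ t, wDesc i t = some (u, v) := by
  obtain ⟨a, ha⟩ := Code.evaln_complete.1 hu
  obtain ⟨b, hb⟩ := Code.evaln_complete.1 hv
  refine ⟨Nat.pair (Nat.pair k k') (max a b), ?_⟩
  unfold wDesc
  simp only [Nat.unpair_pair]
  rw [Code.evaln_mono (le_max_left a b) ha, Code.evaln_mono (le_max_right a b) hb]
  simp [hk]

theorem exists_index {f : ℕ → ℕ} (hf : Computable f) :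
    ∃ i, ∀ k, Code.eval (Denumerable.ofNat Code i) k = Part.some (f k) := by
  obtain ⟨c, hc⟩ := Code.exists_code.1 (Partrec.nat_iff.1 hf)
  refine ⟨Encodable.encode c, fun k => ?_⟩
  rw [Denumerable.ofNat_encode, hc]
  rfl

theorem toBool {P : ℕ → ℕ → Prop} (hP : ComputablePoset P) :
    ∃ Q : ℕ → ℕ → Bool, BPos Q ∧ Computable₂ Q ∧ ∀ x y, Q x y = true ↔ P x y := by
  classical
  obtain ⟨hd, hc⟩ := hP.computable
  refine ⟨fun x y => @decide (P x y) (hd (x, y)), ⟨?_, ?_, ?_⟩, hc, ?_⟩
  · intro x; simpa using hP.refl x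
  · intro x y z h1 h2
    simp only [decide_eq_true_eq] at h1 h2 ⊢
    exact hP.trans _ _ _ h1 h2
  · intro x y h1 h2
    simp only [decide_eq_true_eq] at h1 h2
    exact hP.antisymm _ _ h1 h2
  · intro x y; simp

/-- every computable, computably well-founded poset has, for every computable order function `h`,
a computably well-founded linear extension approximable with at most `h` mind changes -/
theorem upper {P : ℕ → ℕ → Prop} (hP : ComputablePoset P) (hwf : CompWF P) {h : ℕ → ℕ}
    (hh : Computable h) (hm : Monotone h) (hu : ∀ N, ∃ m, N ≤ h m) :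
    ∃ L : ℕ → ℕ → Prop, LinearExtension P L ∧ CompWF L ∧
      MindChanges L (fun x y => h (Nat.pair x y)) := by
  obtain ⟨Q, hQ, hQc, hQP⟩ := toBool hP
  have hPQ : (fun x y => Q x y = true) = P := by
    funext x y; exact propext (hQP x y)
  have hE := Lin_ext hQ wDesc h
  rw [hPQ] at hE
  refine ⟨Lin Q wDesc h, hE, ?_, Lin_mind hQ hQc primrec_wDesc.to_comp hh hm⟩
  rintro ⟨f, hf, hd⟩
  obtain ⟨i, hi⟩ := exists_index hf
  have mono : ∀ m n, n ≤ m → Lin Q wDesc h (f m) (f n) := by
    intro m n hnm
    induction m, hnm using Nat.le_induction with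
    | base => exact hE.refl _
    | succ m _ ih => exact hE.trans _ _ _ (hd m).1 ih
  have mem : ∀ k u, u ∈ Code.eval (Denumerable.ofNat Code i) k → u = f k := by
    intro k u hu
    rw [hi k] at hu
    exact Part.mem_some_iff.1 hu
  rcases requirement hQ wDesc (ev_h hm hu) i with ⟨t, q, ht, hL, hne⟩ | ⟨C, hC, hall⟩
  · obtain ⟨k, k', hk, h1, h2⟩ := wDesc_some ht
    have e1 := mem _ _ h1
    have e2 := mem _ _ h2
    have := mono k' k hk.le
    rw [← e1, ← e2] at this
    exact hne (hE.antisymm _ _ hL this)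
  · have hwfC := wf_R hQ (C := C) (by rw [hPQ]; exact hwf) hC
    refine hwfC ⟨f, hf, fun n => ⟨?_, (hd n).2⟩⟩
    obtain ⟨t, ht⟩ := wDesc_mem (i := i) (k := n) (k' := n + 1) (u := f n) (v := f (n + 1))
      (Nat.lt_succ_self n) (by rw [hi]; exact Part.mem_some _) (by rw [hi]; exact Part.mem_some _)
    exact hall t _ ht

/-! ### Orders obtained by free insertions -/

namespace Low

/-- decision procedure (with fuel) of the order in which the element `v ≥ 2` is freely inserted
between the older elements `lo v` and `hi v`; `0` and `1` are the least and greatest elements -/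
def leF (lo hi : ℕ → ℕ) : ℕ → ℕ → ℕ → Bool
  | 0, x, y => decide (x = y)
  | k + 1, x, y => if x = y then true else if x < y then leF lo hi k x (lo y)
      else if x = 1 then false else leF lo hi k (hi x) y

def le (lo hi : ℕ → ℕ) (x y : ℕ) : Bool := leF lo hi (x + y) x y

structure Dec (lo hi : ℕ → ℕ) : Prop where
  lo_lt : ∀ v, 1 ≤ v → lo v < v
  hi_lt : ∀ v, 2 ≤ v → hi v < v

theorem leF_stable {lo hi : ℕ → ℕ} (h : Dec lo hi) : ∀ m x y k, x + y ≤ m → x + y ≤ k →
    leF lo hi k x y = leF lo hi (x + y) x y := by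
  intro m
  induction m with
  | zero =>
    intro x y k hm hk
    obtain rfl : x = 0 := by omega
    obtain rfl : y = 0 := by omega
    cases k <;> simp [leF]
  | succ m ih =>
    intro x y k hm hk
    by_cases h0 : x + y = 0
    · obtain rfl : x = 0 := by omega
      obtain rfl : y = 0 := by omega
      cases k <;> simp [leF]
    · obtain ⟨j, hj⟩ := Nat.exists_eq_succ_of_ne_zero h0
      obtain ⟨k', rfl⟩ := Nat.exists_eq_succ_of_ne_zero (show k ≠ 0 by omega)
      rw [hj]
      simp only [leF]
      by_cases hxy : x = y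
      · simp [hxy]
      · rw [if_neg hxy, if_neg hxy]
        by_cases hlt : x < y
        · rw [if_pos hlt, if_pos hlt]
          have h1 := h.lo_lt y (by omega)
          rw [ih x (lo y) k' (by omega) (by omega), ih x (lo y) j (by omega) (by omega)]
        · rw [if_neg hlt, if_neg hlt]
          by_cases h1 : x = 1
          · simp [h1]
          · rw [if_neg h1, if_neg h1]
            have h2 := h.hi_lt x (by omega)
            rw [ih (hi x) y k' (by omega) (by omega), ih (hi x) y j (by omega) (by omega)]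

theorem le_self (lo hi : ℕ → ℕ) (x : ℕ) : le lo hi x x = true := by
  unfold le
  cases x with
  | zero => simp [leF]
  | succ x => rw [show x + 1 + (x + 1) = (x + (x + 1)) + 1 by ring]; simp [leF]

theorem le_down {lo hi : ℕ → ℕ} (h : Dec lo hi) {x y : ℕ} (hxy : x < y) :
    le lo hi x y = le lo hi x (lo y) := by
  have h1 := h.lo_lt y (by omega)
  unfold le
  obtain ⟨j, hj⟩ := Nat.exists_eq_succ_of_ne_zero (show x + y ≠ 0 by omega)
  rw [hj]
  simp only [leF]
  rw [if_neg (by omega), if_pos hxy]
  exact leF_stable h _ _ _ _ le_rfl (by omega)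

theorem le_up {lo hi : ℕ → ℕ} (h : Dec lo hi) {x y : ℕ} (hxy : y < x) (h2 : 2 ≤ x) :
    le lo hi x y = le lo hi (hi x) y := by
  have h1 := h.hi_lt x h2
  unfold le
  obtain ⟨j, hj⟩ := Nat.exists_eq_succ_of_ne_zero (show x + y ≠ 0 by omega)
  rw [hj]
  simp only [leF]
  rw [if_neg (by omega), if_neg (by omega), if_neg (by omega)]
  exact leF_stable h _ _ _ _ le_rfl (by omega)

theorem le_one_zero (lo hi : ℕ → ℕ) : le lo hi 1 0 = false := by
  simp [le, leF]

theorem le_bot {lo hi : ℕ → ℕ} (h : Dec lo hi) : ∀ y, le lo hi 0 y = true := by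
  intro y
  induction y using Nat.strong_induction_on with
  | _ y ih =>
    by_cases hy : y = 0
    · subst hy; exact le_self _ _ _
    · rw [le_down h (by omega)]
      exact ih _ (h.lo_lt y (by omega))

theorem le_top {lo hi : ℕ → ℕ} (h : Dec lo hi) : ∀ x, le lo hi x 1 = true := by
  intro x
  induction x using Nat.strong_induction_on with
  | _ x ih =>
    by_cases h0 : x = 0
    · subst h0; exact le_bot h 1
    · by_cases h1 : x = 1
      · subst h1; exact le_self _ _ _
      · rw [le_up h (by omega) (by omega)]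
        exact ih _ (h.hi_lt x (by omega))

/-- the insertions below `m` are legitimate -/
def Val (lo hi : ℕ → ℕ) (m : ℕ) : Prop :=
  ∀ v, 2 ≤ v → v < m → le lo hi (lo v) (hi v) = true ∧ lo v ≠ hi v

theorem le_trans' {lo hi : ℕ → ℕ} (h : Dec lo hi) : ∀ m, Val lo hi m → ∀ x y z,
    x < m → y < m → z < m → le lo hi x y = true → le lo hi y z = true → le lo hi x z = true := by
  intro m
  induction m with
  | zero => intro _ x y z hx; omega
  | succ m ih =>
    intro hV x y z hx hy hz h1 h2
    have hV' : Val lo hi m := fun v a b => hV v a (by omega)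
    have IH := ih hV'
    by_cases exy : x = y
    · subst exy; exact h2
    by_cases eyz : y = z
    · subst eyz; exact h1
    by_cases exz : x = z
    · subst exz; exact le_self _ _ _
    rcases Nat.lt_or_ge y m with hym | hym
    · rcases Nat.lt_or_ge x m with hxm | hxm
      · rcases Nat.lt_or_ge z m with hzm | hzm
        · exact IH x y z hxm hym hzm h1 h2
        · obtain rfl : z = m := by omega
          rw [le_down h hym] at h2
          rw [le_down h hxm]
          exact IH _ _ _ hxm hym (h.lo_lt z (by omega)) h1 h2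
      · obtain rfl : x = m := by omega
        have hzm : z < x := by omega
        have h2x : 2 ≤ x := by omega
        rw [le_up h hym h2x] at h1
        rw [le_up h hzm h2x]
        exact IH _ _ _ (h.hi_lt x h2x) hym hzm h1 h2
    · obtain rfl : y = m := by omega
      have hxm : x < y := by omega
      have hzm : z < y := by omega
      have h2y : 2 ≤ y := by omega
      rw [le_down h hxm] at h1
      rw [le_up h hzm h2y] at h2
      have hv := hV y h2y (by omega)
      have a := h.lo_lt y (by omega)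
      have b := h.hi_lt y h2y
      exact IH _ _ _ hxm b hzm (IH _ _ _ hxm a b h1 hv.1) h2

theorem le_antisymm' {lo hi : ℕ → ℕ} (h : Dec lo hi) : ∀ m, Val lo hi m → ∀ x y,
    x < m → y < m → le lo hi x y = true → le lo hi y x = true → x = y := by
  intro m
  induction m with
  | zero => intro _ x y hx; omega
  | succ m ih =>
    intro hV x y hx hy h1 h2
    have hV' : Val lo hi m := fun v a b => hV v a (by omega)
    have IH := ih hV'
    have key : ∀ x y, x < y → y < m + 1 → le lo hi x y = true → le lo hi y x = true → False := by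
      intro x y hxy hy h1 h2
      rcases Nat.lt_or_ge y m with hym | hym
      · have := IH x y (by omega) hym h1 h2
        omega
      · obtain rfl : y = m := by omega
        by_cases hy1 : y = 1
        · obtain rfl : x = 0 := by omega
          subst hy1
          rw [le_one_zero] at h2
          cases h2
        · have h2y : 2 ≤ y := by omega
          rw [le_down h hxy] at h1
          rw [le_up h hxy h2y] at h2
          have hv := hV y h2y (by omega)
          have a := h.lo_lt y (by omega)
          have b := h.hi_lt y h2y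
          have := le_trans' h y hV' _ _ _ b hxy a h2 h1
          exact hv.2 (IH _ _ a b hv.1 this)
    rcases lt_trichotomy x y with hlt | heq | hgt
    · exact (key x y hlt hy h1 h2).elim
    · exact heq
    · exact (key y x hgt hx h2 h1).elim

end Low

/-! ### The construction against one approximation -/

namespace Low

/-- record of a stage: level, smaller element, larger element, index, lower end, upper end,
status (0 waiting, 1 jumped, 2 passive, 3 dropped) -/
abbrev Rec := ℕ × ℕ × ℕ × ℕ × ℕ × ℕ × ℕ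

def kR (r : Rec) : ℕ := r.1
def aR (r : Rec) : ℕ := r.2.1
def bR (r : Rec) : ℕ := r.2.2.1
def eR (r : Rec) : ℕ := r.2.2.2.1
def lR (r : Rec) : ℕ := r.2.2.2.2.1
def uR (r : Rec) : ℕ := r.2.2.2.2.2.1
def sR (r : Rec) : ℕ := r.2.2.2.2.2.2

def d0 : Rec := (0, 0, 0, 0, 0, 0, 3)
def gt (S : List Rec) (t : ℕ) : Rec := S.getD t d0

def loL (S : List Rec) (v : ℕ) : ℕ :=
  if v < 2 then 0 else if (v - 2) % 3 = 2 then bR (gt S ((v - 2) / 3)) else lR (gt S ((v - 2) / 3))
def hiL (S : List Rec) (v : ℕ) : ℕ := if v < 2 then 1 else uR (gt S ((v - 2) / 3))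

/-- first number below `m` with property `p` -/
def fstP (p : ℕ → Bool) : ℕ → Option ℕ
  | 0 => none
  | m + 1 => match fstP p m with
    | some t => some t
    | none => bif p m then some m else none

/-- last number below `m` with property `p` -/
def lstP (p : ℕ → Bool) : ℕ → Option ℕ
  | 0 => none
  | m + 1 => bif p m then some m else lstP p m

/-- number of numbers below `m` with property `p` -/
def cntP (p : ℕ → Bool) : ℕ → ℕ
  | 0 => 0
  | m + 1 => cntP p m + bif p m then 1 else 0

theorem fstP_some {p : ℕ → Bool} : ∀ {m t : ℕ}, fstP p m = some t →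
    t < m ∧ p t = true ∧ ∀ u < t, p u = false := by
  have key : ∀ m, (∀ t, fstP p m = some t → t < m ∧ p t = true ∧ ∀ u < t, p u = false) ∧
      (fstP p m = none → ∀ u < m, p u = false) := by
    intro m
    induction m with
    | zero => exact ⟨fun t h => (by cases h), fun _ u hu => (by omega)⟩
    | succ m ih =>
      cases hm : fstP p m with
      | some t' =>
        have e : fstP p (m + 1) = some t' := by rw [fstP, hm]
        rw [e]
        refine ⟨fun t h => ?_, fun h => by cases h⟩
        obtain rfl := Option.some.inj h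
        have := ih.1 _ hm
        exact ⟨by omega, this.2⟩
      | none =>
        have hn := ih.2 hm
        cases hp : p m with
        | true =>
          have e : fstP p (m + 1) = some m := by rw [fstP, hm]; simp [hp]
          rw [e]
          refine ⟨fun t h => ?_, fun h => by cases h⟩
          obtain rfl := Option.some.inj h
          exact ⟨by omega, hp, hn⟩
        | false =>
          have e : fstP p (m + 1) = none := by rw [fstP, hm]; simp [hp]
          rw [e]
          refine ⟨fun t h => (by cases h), fun _ u hu => ?_⟩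
          rcases Nat.lt_or_ge u m with h | h
          · exact hn u h
          · obtain rfl : u = m := by omega
            exact hp
  intro m t h
  exact (key m).1 t h

theorem fstP_none {p : ℕ → Bool} : ∀ {m : ℕ}, fstP p m = none → ∀ u < m, p u = false := by
  intro m
  induction m with
  | zero => intro _ u hu; omega
  | succ m ih =>
    intro h u hu
    cases hm : fstP p m with
    | some t' => rw [fstP, hm] at h; cases h
    | none =>
      rw [fstP, hm] at h
      cases hp : p m with
      | true => simp [hp] at h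
      | false =>
        rcases Nat.lt_or_ge u m with h' | h'
        · exact ih hm u h'
        · obtain rfl : u = m := by omega
          exact hp

theorem lstP_some {p : ℕ → Bool} : ∀ {m t : ℕ}, lstP p m = some t →
    t < m ∧ p t = true ∧ ∀ u, t < u → u < m → p u = false := by
  intro m
  induction m with
  | zero => intro t h; cases h
  | succ m ih =>
    intro t h
    rw [lstP] at h
    cases hp : p m with
    | true =>
      rw [hp] at h
      obtain rfl : m = t := by simpa using h
      exact ⟨by omega, hp, fun u h1 h2 => by omega⟩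
    | false =>
      rw [hp] at h
      have := ih h
      refine ⟨by omega, this.2.1, fun u h1 h2 => ?_⟩
      rcases Nat.lt_or_ge u m with h' | h'
      · exact this.2.2 u h1 h'
      · obtain rfl : u = m := by omega
        exact hp

theorem lstP_none {p : ℕ → Bool} : ∀ {m : ℕ}, lstP p m = none → ∀ u < m, p u = false := by
  intro m
  induction m with
  | zero => intro _ u hu; omega
  | succ m ih =>
    intro h u hu
    rw [lstP] at h
    cases hp : p m with
    | true => rw [hp] at h; cases h
    | false =>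
      rw [hp] at h
      rcases Nat.lt_or_ge u m with h' | h'
      · exact ih h u h'
      · obtain rfl : u = m := by omega
        exact hp

/-- current answer of the approximation `g` to the question whether `a` is below `b` -/
def ori (g : ℕ → ℕ → ℕ → Bool) (s a b : ℕ) : Bool := if a < b then g a b s else !(g b a s)

def flipE (n : ℕ) (g : ℕ → ℕ → ℕ → Bool) (S : List Rec) (s t : ℕ) : Bool :=
  decide (sR (gt S t) ≤ 2) && (decide (kR (gt S t) < n) &&
    !(ori g s (aR (gt S t)) (bR (gt S t))))

/-- the function with code `e` maps `q` into the cone of `r` -/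
def cvg (S : List Rec) (s e r q : ℕ) : Bool :=
  match Code.evaln s (Denumerable.ofNat Code e) q with
  | some v => decide (v < 3 * s + 2) && le (loL S) (hiL S) v r
  | none => false

def jumpE (S : List Rec) (s t : ℕ) : Bool :=
  decide (sR (gt S t) = 0) && (List.range s).any (fun q => cvg S s (eR (gt S t)) (3 * t + 4) q)

def actE (n : ℕ) (g : ℕ → ℕ → ℕ → Bool) (S : List Rec) (s : ℕ) : Option ℕ :=
  fstP (fun t => flipE n g S s t || jumpE S s t) s

/-- does the acting record (if any) act by a flip -/
def isFl (n : ℕ) (g : ℕ → ℕ → ℕ → Bool) (S : List Rec) (s : ℕ) : Bool :=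
  match actE n g S s with
  | some u => flipE n g S s u
  | none => false

/-- status after the action -/
def newSt (n : ℕ) (g : ℕ → ℕ → ℕ → Bool) (S : List Rec) (s t : ℕ) : ℕ :=
  match actE n g S s with
  | some u =>
    if flipE n g S s u = true then (if kR (gt S t) ≤ kR (gt S u) then 3 else sR (gt S t))
    else if kR (gt S t) < kR (gt S u) then 3 else if t = u then 1
      else if u < t ∧ kR (gt S t) = kR (gt S u) ∧ sR (gt S t) ≤ 2 then 2 else sR (gt S t)
  | none => sR (gt S t)

def newK (n : ℕ) (g : ℕ → ℕ → ℕ → Bool) (S : List Rec) (s : ℕ) : ℕ :=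
  match actE n g S s with
  | some u => if flipE n g S s u = true then kR (gt S u) + 1 else 0
  | none => 0

def newA (n : ℕ) (g : ℕ → ℕ → ℕ → Bool) (S : List Rec) (s : ℕ) : ℕ :=
  match actE n g S s with
  | some u => if flipE n g S s u = true then bR (gt S u)
      else if g (3 * s + 2) (3 * s + 3) s = true then 3 * s + 2 else 3 * s + 3
  | none => if g (3 * s + 2) (3 * s + 3) s = true then 3 * s + 2 else 3 * s + 3

def newB (n : ℕ) (g : ℕ → ℕ → ℕ → Bool) (S : List Rec) (s : ℕ) : ℕ :=
  match actE n g S s with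
  | some u => if flipE n g S s u = true then aR (gt S u)
      else if g (3 * s + 2) (3 * s + 3) s = true then 3 * s + 3 else 3 * s + 2
  | none => if g (3 * s + 2) (3 * s + 3) s = true then 3 * s + 3 else 3 * s + 2

def newE (n : ℕ) (g : ℕ → ℕ → ℕ → Bool) (S : List Rec) (s : ℕ) : ℕ :=
  cntP (fun t => decide (newSt n g S s t ≤ 1) && decide (kR (gt S t) = newK n g S s)) s

def newLo (n : ℕ) (g : ℕ → ℕ → ℕ → Bool) (S : List Rec) (s : ℕ) : ℕ :=
  match lstP (fun t => decide (newSt n g S s t = 0)) s with
  | some t => bR (gt S t)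
  | none => 0

def newUp (n : ℕ) (g : ℕ → ℕ → ℕ → Bool) (S : List Rec) (s : ℕ) : ℕ :=
  match lstP (fun t => decide (newSt n g S s t ≤ 1)) s with
  | some t => if newSt n g S s t = 0 then 3 * t + 4 else aR (gt S t)
  | none => 1

def setS (r : Rec) (x : ℕ) : Rec := (kR r, aR r, bR r, eR r, lR r, uR r, x)

def next (n : ℕ) (g : ℕ → ℕ → ℕ → Bool) (S : List Rec) (s : ℕ) : List Rec :=
  (List.range s).map (fun t => setS (gt S t) (newSt n g S s t)) ++
    [(newK n g S s, newA n g S s, newB n g S s, newE n g S s, newLo n g S s, newUp n g S s, 0)]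

def St (n : ℕ) (g : ℕ → ℕ → ℕ → Bool) : ℕ → List Rec
  | 0 => []
  | s + 1 => next n g (St n g s) s

/-! ### Basic facts on the sequence of states -/

section Sem

variable (n : ℕ) (g : ℕ → ℕ → ℕ → Bool)

def K (t : ℕ) : ℕ := newK n g (St n g t) t
def A (t : ℕ) : ℕ := newA n g (St n g t) t
def B (t : ℕ) : ℕ := newB n g (St n g t) t
def E (t : ℕ) : ℕ := newE n g (St n g t) t
def Lo (t : ℕ) : ℕ := newLo n g (St n g t) t
def Up (t : ℕ) : ℕ := newUp n g (St n g t) t
/-- status of `t` before the action of stage `s` -/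
def st (s t : ℕ) : ℕ := sR (gt (St n g s) t)
/-- status of `t` after the action of stage `s` -/
def st' (s t : ℕ) : ℕ := newSt n g (St n g s) s t
def ac (s : ℕ) : Option ℕ := actE n g (St n g s) s
def fl (s t : ℕ) : Bool := flipE n g (St n g s) s t
def ju (s t : ℕ) : Bool := jumpE (St n g s) s t

def lo (v : ℕ) : ℕ :=
  if v < 2 then 0 else if (v - 2) % 3 = 2 then B n g ((v - 2) / 3) else Lo n g ((v - 2) / 3)
def hi (v : ℕ) : ℕ := if v < 2 then 1 else Up n g ((v - 2) / 3)

variable {n g}

theorem length_St (s : ℕ) : (St n g s).length = s := by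
  cases s with
  | zero => rfl
  | succ s => simp [St, next]

theorem gt_succ_lt {s t : ℕ} (h : t < s) :
    gt (St n g (s + 1)) t = setS (gt (St n g s) t) (st' n g s t) := by
  show gt (next n g (St n g s) s) t = _
  unfold next gt
  rw [List.getD_append _ _ _ _ (by simpa using h)]
  simp [List.getD, h, st']

theorem gt_succ_self (s : ℕ) : gt (St n g (s + 1)) s =
    (K n g s, A n g s, B n g s, E n g s, Lo n g s, Up n g s, 0) := by
  show gt (next n g (St n g s) s) s = _
  unfold next gt
  rw [List.getD_append_right _ _ _ _ (by simp)]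
  simp [K, A, B, E, Lo, Up]

theorem fields {s t : ℕ} (h : t < s) :
    kR (gt (St n g s) t) = K n g t ∧ aR (gt (St n g s) t) = A n g t ∧
    bR (gt (St n g s) t) = B n g t ∧ eR (gt (St n g s) t) = E n g t ∧
    lR (gt (St n g s) t) = Lo n g t ∧ uR (gt (St n g s) t) = Up n g t := by
  induction s, (show t + 1 ≤ s from h) using Nat.le_induction with
  | base => rw [gt_succ_self]; exact ⟨rfl, rfl, rfl, rfl, rfl, rfl⟩
  | succ s hs ih =>
    rw [gt_succ_lt (by omega)]
    exact ih (by omega)

theorem st_succ_lt {s t : ℕ} (h : t < s) : st n g (s + 1) t = st' n g s t := by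
  show sR (gt (St n g (s + 1)) t) = _
  rw [gt_succ_lt h]; rfl

theorem st_succ_self (s : ℕ) : st n g (s + 1) s = 0 := by
  show sR (gt (St n g (s + 1)) s) = _
  rw [gt_succ_self]; rfl

theorem loL_eq {s v : ℕ} (h : v < 3 * s + 2) : loL (St n g s) v = lo n g v := by
  unfold loL lo
  by_cases h2 : v < 2
  · simp [h2]
  · have : (v - 2) / 3 < s := by omega
    rw [if_neg h2, if_neg h2]
    rw [(fields this).2.2.1, (fields this).2.2.2.2.1]

theorem hiL_eq {s v : ℕ} (h : v < 3 * s + 2) : hiL (St n g s) v = hi n g v := by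
  unfold hiL hi
  by_cases h2 : v < 2
  · simp [h2]
  · have : (v - 2) / 3 < s := by omega
    rw [if_neg h2, if_neg h2]
    rw [(fields this).2.2.2.2.2]

/-- the three kinds of stages -/
theorem stage_cases (s : ℕ) :
    ((∀ t < s, fl n g s t = false ∧ ju n g s t = false) ∧ (∀ t < s, st' n g s t = st n g s t) ∧
      K n g s = 0 ∧ ((A n g s = 3 * s + 2 ∧ B n g s = 3 * s + 3 ∧ g (3 * s + 2) (3 * s + 3) s = true) ∨
        (A n g s = 3 * s + 3 ∧ B n g s = 3 * s + 2 ∧ g (3 * s + 2) (3 * s + 3) s = false))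
      ∧ ac n g s = none) ∨
    (∃ u < s, ac n g s = some u ∧ fl n g s u = true ∧ (∀ t < u, fl n g s t = false ∧ ju n g s t = false) ∧
      (∀ t < s, st' n g s t = if K n g t ≤ K n g u then 3 else st n g s t) ∧
      K n g s = K n g u + 1 ∧ A n g s = B n g u ∧ B n g s = A n g u) ∨
    (∃ u < s, ac n g s = some u ∧ fl n g s u = false ∧ ju n g s u = true ∧
      (∀ t < u, fl n g s t = false ∧ ju n g s t = false) ∧
      (∀ t < s, st' n g s t = if K n g t < K n g u then 3 else if t = u then 1 else
        if u < t ∧ K n g t = K n g u ∧ st n g s t ≤ 2 then 2 else st n g s t) ∧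
      K n g s = 0 ∧ ((A n g s = 3 * s + 2 ∧ B n g s = 3 * s + 3 ∧ g (3 * s + 2) (3 * s + 3) s = true) ∨
        (A n g s = 3 * s + 3 ∧ B n g s = 3 * s + 2 ∧ g (3 * s + 2) (3 * s + 3) s = false))) := by
  cases ha : ac n g s with
  | none =>
    left
    have h1 := fstP_none ha
    have ha' : actE n g (St n g s) s = none := ha
    refine ⟨fun t ht => ?_, fun t ht => ?_, ?_, ?_, rfl⟩
    · have := h1 t ht
      simpa [fl, ju] using this
    · show newSt n g (St n g s) s t = _
      unfold newSt
      rw [ha']; rfl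
    · show newK n g (St n g s) s = _
      unfold newK
      rw [ha']
    · show (newA n g (St n g s) s = _ ∧ newB n g (St n g s) s = _ ∧ _) ∨
        (newA n g (St n g s) s = _ ∧ newB n g (St n g s) s = _ ∧ _)
      unfold newA newB
      rw [ha']
      cases hg : g (3 * s + 2) (3 * s + 3) s <;> simp
  | some u =>
    right
    obtain ⟨hu, hp, hmin⟩ := fstP_some ha
    have ha' : actE n g (St n g s) s = some u := ha
    have hmin' : ∀ t < u, fl n g s t = false ∧ ju n g s t = false := by
      intro t ht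
      have := hmin t ht
      simpa [fl, ju] using this
    cases hf : fl n g s u with
    | true =>
      left
      have hf' : flipE n g (St n g s) s u = true := hf
      refine ⟨u, hu, rfl, hf, hmin', fun t ht => ?_, ?_, ?_, ?_⟩
      · show newSt n g (St n g s) s t = _
        unfold newSt
        rw [ha']
        simp only [hf', if_true]
        rw [(fields ht).1, (fields hu).1]; rfl
      · show newK n g (St n g s) s = _
        unfold newK
        rw [ha']
        simp only [hf', if_true]
        rw [(fields hu).1]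
      · show newA n g (St n g s) s = _
        unfold newA
        rw [ha']
        simp only [hf', if_true]
        rw [(fields hu).2.2.1]
      · show newB n g (St n g s) s = _
        unfold newB
        rw [ha']
        simp only [hf', if_true]
        rw [(fields hu).2.1]
    | false =>
      right
      have hf' : flipE n g (St n g s) s u = false := hf
      have hj : ju n g s u = true := by
        have h2 : (flipE n g (St n g s) s u || jumpE (St n g s) s u) = true := hp
        rw [hf'] at h2
        simpa [ju] using h2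
      refine ⟨u, hu, rfl, hf, hj, hmin', fun t ht => ?_, ?_, ?_⟩
      · show newSt n g (St n g s) s t = _
        unfold newSt
        rw [ha']
        simp only [hf', Bool.false_eq_true, if_false]
        rw [(fields ht).1, (fields hu).1]; rfl
      · show newK n g (St n g s) s = _
        unfold newK
        rw [ha']
        simp only [hf', Bool.false_eq_true, if_false]
      · show (newA n g (St n g s) s = _ ∧ newB n g (St n g s) s = _ ∧ _) ∨
          (newA n g (St n g s) s = _ ∧ newB n g (St n g s) s = _ ∧ _)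
        unfold newA newB
        rw [ha']
        simp only [hf', Bool.false_eq_true, if_false]
        cases hg : g (3 * s + 2) (3 * s + 3) s <;> simp

theorem Lo_cases (s : ℕ) :
    (Lo n g s = 0 ∧ ∀ t < s, st' n g s t ≠ 0) ∨
    ∃ t < s, Lo n g s = B n g t ∧ st' n g s t = 0 ∧ ∀ u, t < u → u < s → st' n g s u ≠ 0 := by
  have e : Lo n g s = newLo n g (St n g s) s := rfl
  cases h : lstP (fun t => decide (newSt n g (St n g s) s t = 0)) s with
  | none =>
    left
    refine ⟨by rw [e, newLo, h], fun t ht h0 => ?_⟩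
    have := lstP_none h t ht
    simp only [decide_eq_false_iff_not] at this
    exact this h0
  | some t =>
    right
    obtain ⟨h1, h2, h3⟩ := lstP_some h
    refine ⟨t, h1, ?_, of_decide_eq_true h2, fun u a b h0 => ?_⟩
    · rw [e, newLo, h]
      exact (fields h1).2.2.1
    · have := h3 u a b
      simp only [decide_eq_false_iff_not] at this
      exact this h0

variable (n g) in
/-- top of the region of `t`, after the action of stage `s` -/
def Top' (s t : ℕ) : ℕ := if st' n g s t = 0 then 3 * t + 4 else A n g t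

theorem Up_cases (s : ℕ) :
    (Up n g s = 1 ∧ ∀ t < s, ¬ st' n g s t ≤ 1) ∨
    ∃ t < s, Up n g s = Top' n g s t ∧ st' n g s t ≤ 1 ∧
      ∀ u, t < u → u < s → ¬ st' n g s u ≤ 1 := by
  have e : Up n g s = newUp n g (St n g s) s := rfl
  cases h : lstP (fun t => decide (newSt n g (St n g s) s t ≤ 1)) s with
  | none =>
    left
    refine ⟨by rw [e, newUp, h], fun t ht h0 => ?_⟩
    have := lstP_none h t ht
    simp only [decide_eq_false_iff_not] at this
    exact this h0
  | some t =>
    right
    obtain ⟨h1, h2, h3⟩ := lstP_some h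
    refine ⟨t, h1, ?_, of_decide_eq_true h2, fun u a b h0 => ?_⟩
    · rw [e, newUp, h]
      simp only [(fields h1).2.1]
      rfl
    · have := h3 u a b
      simp only [decide_eq_false_iff_not] at this
      exact this h0

end Sem

end Low

/-! ### Invariants -/

namespace Low

section Inv

variable {n : ℕ} {g : ℕ → ℕ → ℕ → Bool}

theorem AB_bounds : ∀ s, 2 ≤ A n g s ∧ A n g s < 3 * s + 4 ∧ 2 ≤ B n g s ∧ B n g s < 3 * s + 4 ∧
    A n g s ≠ B n g s := by
  intro s
  induction s using Nat.strong_induction_on with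
  | _ s ih =>
    rcases stage_cases (n := n) (g := g) s with ⟨_, _, _, h, _⟩ | ⟨u, hu, _, _, _, _, _, ha, hb⟩ |
      ⟨u, hu, _, _, _, _, _, _, h⟩
    · rcases h with ⟨a, b, _⟩ | ⟨a, b, _⟩ <;> rw [a, b] <;> omega
    · have := ih u hu
      rw [ha, hb]; omega
    · rcases h with ⟨a, b, _⟩ | ⟨a, b, _⟩ <;> rw [a, b] <;> omega

theorem Lo_lt (s : ℕ) : Lo n g s < 3 * s + 2 := by
  rcases Lo_cases (n := n) (g := g) s with ⟨h, _⟩ | ⟨t, ht, h, _⟩
  · rw [h]; omega
  · rw [h]; have := AB_bounds (n := n) (g := g) t; omega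

theorem Up_lt (s : ℕ) : Up n g s < 3 * s + 2 := by
  rcases Up_cases (n := n) (g := g) s with ⟨h, _⟩ | ⟨t, ht, h, _⟩
  · rw [h]; omega
  · rw [h]
    unfold Top'
    have := AB_bounds (n := n) (g := g) t
    split <;> omega

theorem lo_X (s : ℕ) : lo n g (3 * s + 2) = Lo n g s := by
  unfold lo
  rw [if_neg (by omega), if_neg (by omega)]
  congr 1; omega

theorem lo_Y (s : ℕ) : lo n g (3 * s + 3) = Lo n g s := by
  unfold lo
  rw [if_neg (by omega), if_neg (by omega)]
  congr 1; omega

theorem lo_Z (s : ℕ) : lo n g (3 * s + 4) = B n g s := by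
  unfold lo
  rw [if_neg (by omega), if_pos (by omega)]
  congr 1; omega

theorem hi_new {s v : ℕ} (h1 : 3 * s + 2 ≤ v) (h2 : v ≤ 3 * s + 4) : hi n g v = Up n g s := by
  unfold hi
  rw [if_neg (by omega)]
  congr 1; omega

variable (n g) in
theorem dec : Dec (lo n g) (hi n g) := by
  refine ⟨fun v hv => ?_, fun v hv => ?_⟩
  · by_cases h2 : v < 2
    · unfold lo; rw [if_pos h2]; omega
    · obtain ⟨s, hs⟩ : ∃ s, v = 3 * s + 2 ∨ v = 3 * s + 3 ∨ v = 3 * s + 4 :=
        ⟨(v - 2) / 3, by omega⟩
      have := Lo_lt (n := n) (g := g) s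
      rcases hs with rfl | rfl | rfl
      · rw [lo_X]; omega
      · rw [lo_Y]; omega
      · rw [lo_Z]; exact (AB_bounds s).2.2.2.1
  · obtain ⟨s, hs⟩ : ∃ s, 3 * s + 2 ≤ v ∧ v ≤ 3 * s + 4 := ⟨(v - 2) / 3, by omega⟩
    rw [hi_new hs.1 hs.2]
    have := Up_lt (n := n) (g := g) s
    omega

variable (n g) in
/-- the order -/
def Le (x y : ℕ) : Bool := le (lo n g) (hi n g) x y

variable (n g) in
def Lt (x y : ℕ) : Prop := Le n g x y = true ∧ x ≠ y

theorem leF_congr {lo hi lo' hi' : ℕ → ℕ} (h : Dec lo hi) {m : ℕ} (h1 : ∀ v < m, lo v = lo' v)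
    (h2 : ∀ v < m, hi v = hi' v) : ∀ k x y, x < m → y < m →
    leF lo hi k x y = leF lo' hi' k x y := by
  intro k
  induction k with
  | zero => intro x y _ _; simp [leF]
  | succ k ih =>
    intro x y hx hy
    simp only [leF]
    by_cases hxy : x = y
    · simp [hxy]
    · rw [if_neg hxy, if_neg hxy]
      by_cases hlt : x < y
      · rw [if_pos hlt, if_pos hlt, ← h1 y hy]
        exact ih _ _ hx ((h.lo_lt y (by omega)).trans hy)
      · rw [if_neg hlt, if_neg hlt]
        by_cases hx1 : x = 1
        · rw [if_pos hx1, if_pos hx1]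
        · rw [if_neg hx1, if_neg hx1, ← h2 x hx]
          exact ih _ _ ((h.hi_lt x (by omega)).trans hx) hy

theorem le_stage {s x y : ℕ} (hx : x < 3 * s + 2) (hy : y < 3 * s + 2) :
    le (loL (St n g s)) (hiL (St n g s)) x y = Le n g x y := by
  unfold Le le
  exact (leF_congr (dec n g) (m := 3 * s + 2) (fun v hv => (loL_eq hv).symm)
    (fun v hv => (hiL_eq hv).symm) _ _ _ hx hy).symm

theorem Le_self (x : ℕ) : Le n g x x = true := le_self _ _ x
theorem Le_bot (x : ℕ) : Le n g 0 x = true := le_bot (dec n g) x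
theorem Le_top (x : ℕ) : Le n g x 1 = true := le_top (dec n g) x

/-- a new element is below an old one iff the upper end of its interval is -/
theorem Le_new_left {s v x : ℕ} (h1 : 3 * s + 2 ≤ v) (h2 : v ≤ 3 * s + 4) (hx : x < 3 * s + 2) :
    Le n g v x = Le n g (Up n g s) x := by
  unfold Le
  rw [le_up (dec n g) (by omega) (by omega), hi_new h1 h2]

theorem Le_X_right {s x : ℕ} (hx : x < 3 * s + 2) :
    Le n g x (3 * s + 2) = Le n g x (Lo n g s) := by
  unfold Le
  rw [le_down (dec n g) (by omega), lo_X]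

theorem Le_Y_right {s x : ℕ} (hx : x < 3 * s + 3) :
    Le n g x (3 * s + 3) = Le n g x (Lo n g s) := by
  unfold Le
  rw [le_down (dec n g) (by omega), lo_Y]

theorem Le_Z_right {s x : ℕ} (hx : x < 3 * s + 4) :
    Le n g x (3 * s + 4) = Le n g x (B n g s) := by
  unfold Le
  rw [le_down (dec n g) (by omega), lo_Z]

theorem B_lt_Z (s : ℕ) : Lt n g (B n g s) (3 * s + 4) := by
  have := AB_bounds (n := n) (g := g) s
  refine ⟨?_, by omega⟩
  rw [Le_Z_right (by omega)]
  exact Le_self _

variable (n g) in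
/-- region of `t` for a status function -/
def Reg (σ : ℕ → ℕ) (t x : ℕ) : Prop :=
  Lt n g x (if σ t = 0 then 3 * t + 4 else A n g t) ∧
  (σ t = 0 → Lt n g (B n g t) x) ∧ (σ t = 1 → Le n g x (3 * t + 4) = false)

variable (n g) in
structure Invt (s : ℕ) (σ : ℕ → ℕ) : Prop where
  val : Val (lo n g) (hi n g) (3 * s + 2)
  inc : ∀ t < s, Le n g (A n g t) (B n g t) = false ∧ Le n g (B n g t) (A n g t) = false
  lev : ∀ t t', t < t' → t' < s → σ t ≤ 2 → σ t' ≤ 2 → K n g t' ≤ K n g t
  reg : ∀ t t', t < t' → t' < s → σ t ≤ 1 → σ t' ≤ 2 → (σ t' ≤ 1 ∨ K n g t' < K n g t) →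
    Reg n g σ t (A n g t') ∧ Reg n g σ t (B n g t') ∧ Reg n g σ t (3 * t' + 4)

theorem Reg_congr {σ σ' : ℕ → ℕ} {t x : ℕ} (h : σ' t = σ t) (hr : Reg n g σ t x) :
    Reg n g σ' t x := by
  unfold Reg at hr ⊢
  rw [h]; exact hr

/-- the invariant survives the action -/
theorem inv_action {s : ℕ} (h : Invt n g s (st n g s)) : Invt n g s (st' n g s) := by
  rcases stage_cases (n := n) (g := g) s with ⟨_, e, _⟩ | ⟨u, hu, _, _, _, e, _⟩ |
      ⟨u, hu, _, _, hj, _, e, _⟩
  · refine ⟨h.val, h.inc, fun t t' a b c d => ?_, fun t t' a b c d f => ?_⟩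
    · rw [e t (by omega)] at c
      rw [e t' b] at d
      exact h.lev t t' a b c d
    · rw [e t (by omega)] at c
      rw [e t' b] at d f
      obtain ⟨r1, r2, r3⟩ := h.reg t t' a b c d f
      exact ⟨Reg_congr (e t (by omega)) r1, Reg_congr (e t (by omega)) r2,
        Reg_congr (e t (by omega)) r3⟩
  · have key : ∀ t < s, st' n g s t ≤ 2 → st' n g s t = st n g s t := by
      intro t ht hs
      rw [e t ht] at hs ⊢
      by_cases hk : K n g t ≤ K n g u
      · rw [if_pos hk] at hs; omega
      · rw [if_neg hk]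
    refine ⟨h.val, h.inc, fun t t' a b c d => ?_, fun t t' a b c d f => ?_⟩
    · have c' := key t (by omega) c
      have d' := key t' b d
      rw [c'] at c; rw [d'] at d
      exact h.lev t t' a b c d
    · have c' := key t (by omega) (by omega)
      have d' := key t' b d
      rw [c'] at c; rw [d'] at d f
      obtain ⟨r1, r2, r3⟩ := h.reg t t' a b c d f
      exact ⟨Reg_congr c' r1, Reg_congr c' r2, Reg_congr c' r3⟩
  · have hu0 : st n g s u = 0 := by
      unfold ju jumpE at hj
      rw [Bool.and_eq_true] at hj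
      exact of_decide_eq_true hj.1
    have pres : ∀ t < s, st' n g s t ≤ 2 → st n g s t ≤ 2 := by
      intro t ht hs
      rw [e t ht] at hs
      by_cases h1 : K n g t < K n g u
      · rw [if_pos h1] at hs; omega
      rw [if_neg h1] at hs
      by_cases h2 : t = u
      · subst h2; omega
      rw [if_neg h2] at hs
      by_cases h3 : u < t ∧ K n g t = K n g u ∧ st n g s t ≤ 2
      · exact h3.2.2
      · rw [if_neg h3] at hs; exact hs
    have alive : ∀ t < s, st' n g s t ≤ 1 → t = u ∨ (t < u ∧ st' n g s t = st n g s t) := by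
      intro t ht hs
      have hp := pres t ht (by omega)
      rw [e t ht] at hs ⊢
      by_cases h1 : K n g t < K n g u
      · rw [if_pos h1] at hs; omega
      rw [if_neg h1] at hs ⊢
      by_cases h2 : t = u
      · exact Or.inl h2
      rw [if_neg h2] at hs ⊢
      right
      by_cases h3 : u < t ∧ K n g t = K n g u ∧ st n g s t ≤ 2
      · rw [if_pos h3] at hs; omega
      · rw [if_neg h3] at hs ⊢
        refine ⟨?_, rfl⟩
        by_contra h4
        have h5 : u < t := by omega
        have := h.lev u t h5 ht (by omega) hp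
        exact h3 ⟨h5, by omega, hp⟩
    refine ⟨h.val, h.inc, fun t t' a b c d => h.lev t t' a b (pres t (by omega) c) (pres t' b d),
      fun t t' a b c d f => ?_⟩
    rcases alive t (by omega) c with rfl | ⟨htu, c'⟩
    · exfalso
      rcases f with f | f
      · rcases alive t' b f with h1 | ⟨h1, _⟩ <;> omega
      · rw [e t' b, if_pos f] at d; omega
    · have f' : st n g s t' ≤ 1 ∨ K n g t' < K n g t := by
        rcases f with f | f
        · rcases alive t' b f with h1 | ⟨_, h1⟩
          · left; rw [h1]; omega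
          · left; omega
        · exact Or.inr f
      have c2 := c
      rw [c'] at c2
      obtain ⟨r1, r2, r3⟩ := h.reg t t' a b c2 (pres t' b d) f'
      exact ⟨Reg_congr c' r1, Reg_congr c' r2, Reg_congr c' r3⟩

/-- the pair of a flipping record is in the regions of the remaining active records -/
theorem flip_reg {s u : ℕ} (h : Invt n g s (st n g s)) (hu : u < s) (hf : fl n g s u = true)
    (e : ∀ t < s, st' n g s t = if K n g t ≤ K n g u then 3 else st n g s t) {t : ℕ} (ht : t < s)
    (ha : st' n g s t ≤ 1) :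
    Reg n g (st' n g s) t (A n g u) ∧ Reg n g (st' n g s) t (B n g u) := by
  have hu2 : st n g s u ≤ 2 := by
    unfold fl flipE at hf
    rw [Bool.and_eq_true] at hf
    exact of_decide_eq_true hf.1
  have hk : K n g u < K n g t := by
    rw [e t ht] at ha
    by_contra hc
    rw [if_pos (by omega)] at ha; omega
  have hst : st' n g s t = st n g s t := by
    rw [e t ht, if_neg (by omega)]
  rw [hst] at ha
  have htu : t < u := by
    rcases lt_trichotomy t u with h1 | h1 | h1
    · exact h1
    · subst h1; omega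
    · have := h.lev u t h1 ht hu2 (by omega)
      omega
  obtain ⟨r1, r2, _⟩ := h.reg t u htu hu ha hu2 (Or.inr hk)
  exact ⟨Reg_congr hst r1, Reg_congr hst r2⟩

theorem Top'_eq (s t : ℕ) : Top' n g s t = if st' n g s t = 0 then 3 * t + 4 else A n g t := rfl

/-- relation of the new interval to the regions of the active records -/
theorem Up_spec {s : ℕ} (h : Invt n g s (st' n g s)) {t : ℕ} (ht : t < s)
    (ha : st' n g s t ≤ 1) : Le n g (Up n g s) (Top' n g s t) = true ∧
      (st' n g s t = 0 → Le n g (B n g t) (Lo n g s) = true) ∧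
      (st' n g s t = 1 → Le n g (Up n g s) (3 * t + 4) = false) := by
  refine ⟨?_, fun h0 => ?_, fun h1 => ?_⟩
  · rcases Up_cases (n := n) (g := g) s with ⟨_, h2⟩ | ⟨t0, ht0, e, h2, h3⟩
    · exact absurd ha (h2 t ht)
    rcases lt_trichotomy t t0 with h4 | h4 | h4
    · obtain ⟨r1, _, r3⟩ := h.reg t t0 h4 ht0 ha (by omega) (Or.inl h2)
      rw [e]
      unfold Top'
      by_cases h5 : st' n g s t0 = 0
      · rw [if_pos h5]; exact r3.1.1
      · rw [if_neg h5]; exact r1.1.1
    · subst h4; rw [e]; exact Le_self _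
    · exact absurd ha (h3 t h4 ht)
  · rcases Lo_cases (n := n) (g := g) s with ⟨_, h2⟩ | ⟨t0, ht0, e, h2, h3⟩
    · exact absurd h0 (h2 t ht)
    rcases lt_trichotomy t t0 with h4 | h4 | h4
    · obtain ⟨_, r2, _⟩ := h.reg t t0 h4 ht0 ha (by omega) (Or.inl (by omega))
      rw [e]
      exact (r2.2.1 h0).1
    · subst h4; rw [e]; exact Le_self _
    · exact absurd h0 (h3 t h4 ht)
  · rcases Up_cases (n := n) (g := g) s with ⟨_, h2⟩ | ⟨t0, ht0, e, h2, h3⟩
    · exact absurd ha (h2 t ht)
    rcases lt_trichotomy t t0 with h4 | h4 | h4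
    · obtain ⟨r1, _, r3⟩ := h.reg t t0 h4 ht0 ha (by omega) (Or.inl h2)
      rw [e]
      unfold Top'
      by_cases h5 : st' n g s t0 = 0
      · rw [if_pos h5]; exact r3.2.2 h1
      · rw [if_neg h5]; exact r1.2.2 h1
    · subst h4
      rw [e]
      unfold Top'
      rw [if_neg (by omega)]
      have := AB_bounds (n := n) (g := g) t
      rw [Le_Z_right (by omega)]
      exact (h.inc t ht).1
    · exact absurd ha (h3 t h4 ht)

theorem Up_ne_zero (s : ℕ) : Up n g s ≠ 0 := by
  rcases Up_cases (n := n) (g := g) s with ⟨e, _⟩ | ⟨t0, _, e, _⟩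
  · rw [e]; omega
  · rw [e]
    unfold Top'
    have := AB_bounds (n := n) (g := g) t0
    split <;> omega

theorem Lo_lt_Up {s : ℕ} (h : Invt n g s (st' n g s)) : Lt n g (Lo n g s) (Up n g s) := by
  rcases Lo_cases (n := n) (g := g) s with ⟨e, _⟩ | ⟨t1, ht1, e, h1, _⟩
  · rw [e]
    exact ⟨Le_bot _, fun hc => Up_ne_zero s hc.symm⟩
  · rcases Up_cases (n := n) (g := g) s with ⟨_, h2⟩ | ⟨t0, ht0, e', h2, h3⟩
    · exact absurd (by omega) (h2 t1 ht1)
    rw [e, e']
    rcases lt_trichotomy t1 t0 with h4 | h4 | h4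
    · obtain ⟨r1, _, r3⟩ := h.reg t1 t0 h4 ht0 (by omega) (by omega) (Or.inl h2)
      unfold Top'
      by_cases h5 : st' n g s t0 = 0
      · rw [if_pos h5]; exact r3.2.1 h1
      · rw [if_neg h5]; exact r1.2.1 h1
    · subst h4
      unfold Top'
      rw [if_pos h1]
      exact B_lt_Z _
    · exact absurd (by omega) (h3 t1 h4 ht1)

/-- facts on the new elements of a stage -/
theorem new_facts {s : ℕ} (h : Invt n g s (st n g s)) :
    Lt n g (B n g s) (Up n g s) ∧
    (Le n g (A n g s) (B n g s) = false ∧ Le n g (B n g s) (A n g s) = false) ∧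
    ∀ t < s, st' n g s t ≤ 1 → Reg n g (st' n g s) t (A n g s) ∧
      Reg n g (st' n g s) t (B n g s) ∧ Reg n g (st' n g s) t (3 * s + 4) := by
  have h' := inv_action h
  have hLU := Lo_lt_Up h'
  have hUs := Up_lt (n := n) (g := g) s
  have hLs := Lo_lt (n := n) (g := g) s
  have hUL : Le n g (Up n g s) (Lo n g s) = false := by
    cases hc : Le n g (Up n g s) (Lo n g s) with
    | false => rfl
    | true => exact absurd (le_antisymm' (dec n g) _ h'.val _ _ hLs hUs hLU.1 hc) hLU.2
  -- regions for the two new elements `3 * s + 2`, `3 * s + 3`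
  have hXY : ∀ w, w = 3 * s + 2 ∨ w = 3 * s + 3 → ∀ t < s, st' n g s t ≤ 1 →
      Reg n g (st' n g s) t w := by
    intro w hw t ht ha
    have hT : Top' n g s t < 3 * s + 2 := by
      unfold Top'
      have := AB_bounds (n := n) (g := g) t
      split <;> omega
    obtain ⟨u1, u2, u3⟩ := Up_spec h' ht ha
    have hB := AB_bounds (n := n) (g := g) t
    refine ⟨⟨?_, ?_⟩, fun h0 => ⟨?_, by omega⟩, fun h1 => ?_⟩
    · show Le n g w (Top' n g s t) = true
      rw [Le_new_left (s := s) (by omega) (by omega) hT]; exact u1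
    · show w ≠ Top' n g s t
      omega
    · have := u2 h0
      rcases hw with rfl | rfl
      · rw [Le_X_right (by omega)]; exact this
      · rw [Le_Y_right (by omega)]; exact this
    · rw [Le_new_left (s := s) (by omega) (by omega) (by omega)]; exact u3 h1
  have hXYinc : Le n g (3 * s + 2) (3 * s + 3) = false ∧ Le n g (3 * s + 3) (3 * s + 2) = false := by
    constructor
    · rw [Le_Y_right (by omega), Le_new_left (s := s) (by omega) (by omega) (by omega)]; exact hUL
    · unfold Le
      rw [le_up (dec n g) (by omega) (by omega), hi_new (s := s) (by omega) (by omega)]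
      show Le n g (Up n g s) (3 * s + 2) = false
      rw [Le_X_right (by omega)]; exact hUL
  -- the pair of the new record
  have hpair : Lt n g (B n g s) (Up n g s) ∧
      (Le n g (A n g s) (B n g s) = false ∧ Le n g (B n g s) (A n g s) = false) ∧
      ∀ t < s, st' n g s t ≤ 1 → Reg n g (st' n g s) t (A n g s) ∧
      Reg n g (st' n g s) t (B n g s) := by
    have hlev0 : ((A n g s = 3 * s + 2 ∧ B n g s = 3 * s + 3 ∧ g (3 * s + 2) (3 * s + 3) s = true) ∨
        (A n g s = 3 * s + 3 ∧ B n g s = 3 * s + 2 ∧ g (3 * s + 2) (3 * s + 3) s = false)) →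
        Lt n g (B n g s) (Up n g s) ∧
      (Le n g (A n g s) (B n g s) = false ∧ Le n g (B n g s) (A n g s) = false) ∧
      ∀ t < s, st' n g s t ≤ 1 → Reg n g (st' n g s) t (A n g s) ∧
      Reg n g (st' n g s) t (B n g s) := by
      rintro (⟨a, b, _⟩ | ⟨a, b, _⟩)
      · rw [a, b]
        refine ⟨⟨?_, by omega⟩, hXYinc, fun t ht ha => ⟨hXY _ (Or.inl rfl) t ht ha,
          hXY _ (Or.inr rfl) t ht ha⟩⟩
        rw [Le_new_left (s := s) (by omega) (by omega) hUs]; exact Le_self _
      · rw [a, b]
        refine ⟨⟨?_, by omega⟩, hXYinc.symm, fun t ht ha => ⟨hXY _ (Or.inr rfl) t ht ha,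
          hXY _ (Or.inl rfl) t ht ha⟩⟩
        rw [Le_new_left (s := s) (by omega) (by omega) hUs]; exact Le_self _
    rcases stage_cases (n := n) (g := g) s with ⟨_, _, _, hab, _⟩ |
      ⟨u, hu, _, hf, _, e, _, ha, hb⟩ | ⟨u, hu, _, _, _, _, _, _, hab⟩
    · exact hlev0 hab
    · rw [ha, hb]
      refine ⟨?_, (h.inc u hu).symm, fun t ht hal => (flip_reg h hu hf e ht hal).symm⟩
      rcases Up_cases (n := n) (g := g) s with ⟨e1, _⟩ | ⟨t0, ht0, e1, h2, _⟩
      · rw [e1]
        refine ⟨Le_top _, ?_⟩
        have := AB_bounds (n := n) (g := g) u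
        omega
      · rw [e1]
        exact (flip_reg h hu hf e ht0 h2).1.1
    · exact hlev0 hab
  refine ⟨hpair.1, hpair.2.1, fun t ht ha => ⟨(hpair.2.2 t ht ha).1, (hpair.2.2 t ht ha).2, ?_⟩⟩
  have hT : Top' n g s t < 3 * s + 2 := by
    unfold Top'
    have := AB_bounds (n := n) (g := g) t
    split <;> omega
  obtain ⟨u1, _, u3⟩ := Up_spec h' ht ha
  have hB := AB_bounds (n := n) (g := g) t
  refine ⟨⟨?_, ?_⟩, fun h0 => ⟨?_, by omega⟩, fun h1 => ?_⟩
  · show Le n g (3 * s + 4) (Top' n g s t) = true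
    rw [Le_new_left (s := s) (by omega) (by omega) hT]; exact u1
  · show 3 * s + 4 ≠ Top' n g s t
    omega
  · rw [Le_Z_right (by omega)]
    exact ((hpair.2.2 t ht ha).2.2.1 h0).1
  · rw [Le_new_left (s := s) (by omega) (by omega) (by omega)]; exact u3 h1

theorem K_le_of_present {s : ℕ} {t : ℕ} (ht : t < s) (ha : st' n g s t ≤ 2) :
    K n g s ≤ K n g t := by
  rcases stage_cases (n := n) (g := g) s with ⟨_, _, hk, _⟩ |
      ⟨u, hu, _, _, _, e, hk, _⟩ | ⟨u, hu, _, _, _, _, _, hk, _⟩
  · omega
  · rw [e t ht] at ha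
    by_contra hc
    rw [if_pos (by omega)] at ha; omega
  · omega

theorem inv : ∀ s, Invt n g s (st n g s) := by
  intro s
  induction s with
  | zero =>
    refine ⟨fun v a b => by omega, fun t ht => by omega, fun t t' _ h => by omega,
      fun t t' _ h => by omega⟩
  | succ s ih =>
    have h' := inv_action ih
    obtain ⟨n1, n2, n3⟩ := new_facts ih
    have hLU := Lo_lt_Up h'
    refine ⟨?_, ?_, ?_, ?_⟩
    · intro v hv2 hv
      rcases Nat.lt_or_ge v (3 * s + 2) with h1 | h1
      · exact h'.val v hv2 h1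
      · have hv' : v = 3 * s + 2 ∨ v = 3 * s + 3 ∨ v = 3 * s + 4 := by omega
        rcases hv' with rfl | rfl | rfl
        · rw [lo_X, hi_new (s := s) (by omega) (by omega)]; exact hLU
        · rw [lo_Y, hi_new (s := s) (by omega) (by omega)]; exact hLU
        · rw [lo_Z, hi_new (s := s) (by omega) (by omega)]; exact n1
    · intro t ht
      rcases Nat.lt_or_ge t s with h1 | h1
      · exact h'.inc t h1
      · obtain rfl : t = s := by omega
        exact n2
    · intro t t' a b c d
      rw [st_succ_lt (by omega)] at c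
      rcases Nat.lt_or_ge t' s with h1 | h1
      · rw [st_succ_lt h1] at d
        exact h'.lev t t' a h1 c d
      · obtain rfl : t' = s := by omega
        exact K_le_of_present a c
    · intro t t' a b c d f
      have et : st n g (s + 1) t = st' n g s t := st_succ_lt (by omega)
      rw [et] at c
      rcases Nat.lt_or_ge t' s with h1 | h1
      · rw [st_succ_lt h1] at d f
        obtain ⟨r1, r2, r3⟩ := h'.reg t t' a h1 c d f
        exact ⟨Reg_congr et r1, Reg_congr et r2, Reg_congr et r3⟩
      · obtain rfl : t' = s := by omega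
        obtain ⟨r1, r2, r3⟩ := n3 t a c
        exact ⟨Reg_congr et r1, Reg_congr et r2, Reg_congr et r3⟩

theorem val_all (m : ℕ) : Val (lo n g) (hi n g) m := by
  intro v h2 _
  exact (inv (v + 1)).val v h2 (by omega)

theorem Le_trans {x y z : ℕ} (h1 : Le n g x y = true) (h2 : Le n g y z = true) :
    Le n g x z = true :=
  le_trans' (dec n g) (x + y + z + 1) (val_all _) x y z (by omega) (by omega) (by omega) h1 h2

theorem Le_antisymm {x y : ℕ} (h1 : Le n g x y = true) (h2 : Le n g y x = true) : x = y :=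
  le_antisymm' (dec n g) (x + y + 1) (val_all _) x y (by omega) (by omega) h1 h2

/-- all elements created from stage `s` on are below `x` when `Up` is -/
theorem new_below {s v : ℕ} (h : 3 * s + 2 ≤ v) : ∃ s' ≥ s, 3 * s' + 2 ≤ v ∧ v ≤ 3 * s' + 4 :=
  ⟨(v - 2) / 3, by omega, by omega, by omega⟩

end Inv

end Low

/-! ### Dynamics of the construction -/

namespace Low

section Dyn

variable {n : ℕ} {g : ℕ → ℕ → ℕ → Bool}

theorem fl_spec {s u : ℕ} (hu : u < s) (h : fl n g s u = true) :
    st n g s u ≤ 2 ∧ K n g u < n ∧ ori g s (A n g u) (B n g u) = false := by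
  unfold fl flipE at h
  rw [Bool.and_eq_true, Bool.and_eq_true, (fields hu).1, (fields hu).2.1, (fields hu).2.2.1] at h
  refine ⟨of_decide_eq_true h.1, of_decide_eq_true h.2.1, ?_⟩
  have := h.2.2
  simpa using this

theorem fl_of {s u : ℕ} (hu : u < s) (h1 : st n g s u ≤ 2) (h2 : K n g u < n)
    (h3 : ori g s (A n g u) (B n g u) = false) : fl n g s u = true := by
  unfold fl flipE
  rw [Bool.and_eq_true, Bool.and_eq_true, (fields hu).1, (fields hu).2.1, (fields hu).2.2.1, h3]
  exact ⟨decide_eq_true h1, decide_eq_true h2, rfl⟩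

theorem ju_st {s u : ℕ} (h : ju n g s u = true) : st n g s u = 0 := by
  unfold ju jumpE at h
  rw [Bool.and_eq_true] at h
  exact of_decide_eq_true h.1

theorem ju_spec {s u : ℕ} (hu : u < s) (h : ju n g s u = true) :
    ∃ q v, Code.evaln s (Denumerable.ofNat Code (E n g u)) q = some v ∧
      Le n g v (3 * u + 4) = true := by
  unfold ju jumpE at h
  rw [Bool.and_eq_true] at h
  obtain ⟨q, _, hq⟩ := List.any_eq_true.1 h.2
  rw [(fields hu).2.2.2.1] at hq
  unfold cvg at hq
  cases hv : Code.evaln s (Denumerable.ofNat Code (E n g u)) q with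
  | none => rw [hv] at hq; cases hq
  | some v =>
    rw [hv] at hq
    simp only [Bool.and_eq_true] at hq
    have hv3 := of_decide_eq_true hq.1
    refine ⟨q, v, hv, ?_⟩
    rw [← le_stage hv3 (show 3 * u + 4 < 3 * s + 2 by omega)]
    exact hq.2

theorem ju_of {s u q v : ℕ} (hu : u < s) (h0 : st n g s u = 0) (hq : q < s)
    (hv : Code.evaln s (Denumerable.ofNat Code (E n g u)) q = some v) (hv3 : v < 3 * s + 2)
    (hle : Le n g v (3 * u + 4) = true) : ju n g s u = true := by
  unfold ju jumpE
  rw [Bool.and_eq_true]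
  refine ⟨decide_eq_true h0, List.any_eq_true.2 ⟨q, List.mem_range.2 hq, ?_⟩⟩
  rw [(fields hu).2.2.2.1]
  unfold cvg
  rw [hv]
  simp only [Bool.and_eq_true]
  refine ⟨decide_eq_true hv3, ?_⟩
  rw [le_stage hv3 (show 3 * u + 4 < 3 * s + 2 by omega)]
  exact hle

theorem st_le_three : ∀ {s t : ℕ}, t < s → st n g s t ≤ 3 := by
  intro s
  induction s with
  | zero => intro t h; omega
  | succ s ih =>
    intro t h
    rcases Nat.lt_or_ge t s with h1 | h1
    · rw [st_succ_lt h1]
      have := ih h1
      rcases stage_cases (n := n) (g := g) s with ⟨_, e, _⟩ | ⟨u, _, _, _, _, e, _⟩ |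
        ⟨u, _, _, _, _, _, e, _⟩
      · rw [e t h1]; exact this
      · rw [e t h1]; split <;> omega
      · rw [e t h1]; split
        · omega
        split
        · omega
        split <;> omega
    · obtain rfl : t = s := by omega
      rw [st_succ_self]; omega

theorem st_mono_succ {s t : ℕ} (h : t < s) : st n g s t ≤ st n g (s + 1) t := by
  rw [st_succ_lt h]
  have h3 := st_le_three (n := n) (g := g) h
  rcases stage_cases (n := n) (g := g) s with ⟨_, e, _⟩ | ⟨u, _, _, _, _, e, _⟩ |
    ⟨u, _, _, _, hj, _, e, _⟩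
  · rw [e t h]
  · rw [e t h]; split <;> omega
  · rw [e t h]; split
    · omega
    split
    · rename_i hc
      rw [hc, ju_st hj]; omega
    split <;> omega

theorem st_mono {s s' t : ℕ} (h : t < s) (hs : s ≤ s') : st n g s t ≤ st n g s' t := by
  induction s', hs using Nat.le_induction with
  | base => exact le_rfl
  | succ s' hs' ih => exact ih.trans (st_mono_succ (by omega))

theorem act_lt {s u : ℕ} (h : ac n g s = some u) : u < s := (fstP_some h).1

theorem act_strict {s u : ℕ} (h : ac n g s = some u) : st n g s u < st n g (s + 1) u := by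
  have hu := act_lt h
  rw [st_succ_lt hu]
  rcases stage_cases (n := n) (g := g) s with ⟨_, _, _, _, hn⟩ | ⟨v, hv, hav, hf, _, e, _⟩ |
    ⟨v, hv, hav, _, hj, _, e, _⟩
  · rw [hn] at h; cases h
  · rw [hav] at h
    obtain rfl := Option.some.inj h
    have := (fl_spec hv hf).1
    rw [e v hv, if_pos le_rfl]; omega
  · rw [hav] at h
    obtain rfl := Option.some.inj h
    have := ju_st hj
    rw [e v hv, if_neg (by omega), if_pos rfl]; omega

theorem no_act (u : ℕ) : ∃ s₀, ∀ s ≥ s₀, ac n g s ≠ some u := by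
  by_contra hc
  push Not at hc
  obtain ⟨s1, h1, a1⟩ := hc (u + 1)
  obtain ⟨s2, h2, a2⟩ := hc (s1 + 1)
  obtain ⟨s3, h3, a3⟩ := hc (s2 + 1)
  obtain ⟨s4, h4, a4⟩ := hc (s3 + 1)
  have b1 := act_strict a1
  have b2 := act_strict a2
  have b3 := act_strict a3
  have b4 := act_strict a4
  have c1 := st_mono (n := n) (g := g) (t := u) (s := s1 + 1) (by omega) h2
  have c2 := st_mono (n := n) (g := g) (t := u) (s := s2 + 1) (by omega) h3
  have c3 := st_mono (n := n) (g := g) (t := u) (s := s3 + 1) (by omega) h4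
  have := st_le_three (n := n) (g := g) (s := s4 + 1) (t := u) (by omega)
  omega

theorem no_act_below (m : ℕ) : ∃ s₀, ∀ s ≥ s₀, ∀ u < m, ac n g s ≠ some u := by
  induction m with
  | zero => exact ⟨0, fun s _ u hu => by omega⟩
  | succ m ih =>
    obtain ⟨a, ha⟩ := ih
    obtain ⟨b, hb⟩ := no_act (n := n) (g := g) m
    refine ⟨max a b, fun s hs u hu => ?_⟩
    rcases Nat.lt_or_ge u m with h | h
    · exact ha s ((le_max_left _ _).trans hs) u h
    · obtain rfl : u = m := by omega
      exact hb s ((le_max_right _ _).trans hs)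

theorem event_act {s u : ℕ} (hu : u < s) (h : fl n g s u = true ∨ ju n g s u = true) :
    ∃ u' ≤ u, ac n g s = some u' := by
  rcases stage_cases (n := n) (g := g) s with ⟨e, _⟩ | ⟨v, hv, hav, _, e, _⟩ |
    ⟨v, hv, hav, _, _, e, _⟩
  · have := e u hu
    rw [this.1, this.2] at h
    rcases h with h | h <;> cases h
  · refine ⟨v, ?_, hav⟩
    by_contra hc
    have := e u (by omega)
    rw [this.1, this.2] at h
    rcases h with h | h <;> cases h
  · refine ⟨v, ?_, hav⟩
    by_contra hc
    have := e u (by omega)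
    rw [this.1, this.2] at h
    rcases h with h | h <;> cases h

theorem no_event (u : ℕ) : ∃ s₀, ∀ s ≥ s₀, u < s ∧ fl n g s u = false ∧ ju n g s u = false := by
  obtain ⟨s₀, hs⟩ := no_act_below (n := n) (g := g) (u + 1)
  refine ⟨max s₀ (u + 1), fun s h => ?_⟩
  have hus : u < s := (le_max_right _ _).trans h
  have key : ¬ (fl n g s u = true ∨ ju n g s u = true) := by
    intro hc
    obtain ⟨u', hu', ha⟩ := event_act hus hc
    exact hs s ((le_max_left _ _).trans h) u' (by omega) ha
  push Not at key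
  refine ⟨hus, ?_, ?_⟩
  · simpa using key.1
  · simpa using key.2

theorem K_le (s : ℕ) : K n g s ≤ n := by
  rcases stage_cases (n := n) (g := g) s with ⟨_, _, hk, _⟩ |
      ⟨u, hu, _, hf, _, e, hk, _⟩ | ⟨u, hu, _, _, _, _, _, hk, _⟩
  · omega
  · have := (fl_spec hu hf).2.1
    omega
  · omega

theorem limsup_exists (f : ℕ → ℕ) : ∀ m, (∃ s₀, ∀ s ≥ s₀, f s ≤ m) →
    ∃ k, (∀ s₀, ∃ s ≥ s₀, f s = k) ∧ ∃ s₀, ∀ s ≥ s₀, f s ≤ k := by
  intro m
  induction m with
  | zero =>
    rintro ⟨s₀, h⟩
    refine ⟨0, fun s1 => ⟨max s₀ s1, le_max_right _ _, ?_⟩, s₀, h⟩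
    have := h (max s₀ s1) (le_max_left _ _)
    omega
  | succ m ih =>
    rintro ⟨s₀, h⟩
    by_cases hc : ∀ s1, ∃ s ≥ s1, f s = m + 1
    · exact ⟨m + 1, hc, s₀, h⟩
    · push Not at hc
      obtain ⟨s1, hs1⟩ := hc
      refine ih ⟨max s₀ s1, fun s hs => ?_⟩
      have a := h s ((le_max_left _ _).trans hs)
      have b := hs1 s ((le_max_right _ _).trans hs)
      omega

variable (n g) in
/-- the level `k` is the largest one occurring infinitely often, and from stage `s₁` on the
construction is quiet above it -/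
structure Stab (k s₁ : ℕ) : Prop where
  inf : ∀ s₀, ∃ s ≥ s₀, K n g s = k
  kle : ∀ s ≥ s₁, K n g s ≤ k
  act : ∀ s ≥ s₁, ∀ u, ac n g s = some u → K n g u ≤ k
  flip : ∀ s ≥ s₁, ∀ u, ac n g s = some u → fl n g s u = true → K n g u < k

theorem exists_stab : ∃ k s₁, Stab n g k s₁ := by
  obtain ⟨k, hinf, s₀, hs₀⟩ := limsup_exists (K n g) n ⟨0, fun s _ => K_le s⟩
  obtain ⟨s₁, hs₁⟩ := no_act_below (n := n) (g := g) s₀
  refine ⟨k, max s₀ s₁, hinf, fun s hs => hs₀ s ((le_max_left _ _).trans hs), ?_, ?_⟩
  · intro s hs u ha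
    by_contra hc
    have : u < s₀ := by
      by_contra h2
      exact hc (hs₀ u (by omega))
    exact hs₁ s ((le_max_right _ _).trans hs) u this ha
  · intro s hs u ha hf
    rcases stage_cases (n := n) (g := g) s with ⟨_, _, _, _, hn⟩ | ⟨v, hv, hav, hf', _, e, hk, _⟩ |
      ⟨v, hv, hav, hf', _, _, e, _⟩
    · rw [hn] at ha; cases ha
    · rw [hav] at ha
      obtain rfl := Option.some.inj ha
      have := hs₀ s ((le_max_left _ _).trans hs)
      omega
    · rw [hav] at ha
      obtain rfl := Option.some.inj ha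
      rw [hf'] at hf; cases hf

/-- if an active record becomes inactive, so do the newer ones of the same level -/
theorem death_prop {s t' t : ℕ} (h : t' < t) (ht : t < s) (hK : K n g t' = K n g t)
    (h1 : st n g s t' ≤ 1) (h2 : 2 ≤ st n g (s + 1) t') : 2 ≤ st n g (s + 1) t := by
  rw [st_succ_lt (by omega)] at h2
  rw [st_succ_lt ht]
  rcases stage_cases (n := n) (g := g) s with ⟨_, e, _⟩ | ⟨u, _, _, _, _, e, _⟩ |
    ⟨u, _, _, _, hj, _, e, _⟩
  · rw [e t' (by omega)] at h2; omega
  · rw [e t' (by omega)] at h2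
    rw [e t ht]
    by_cases hc : K n g t' ≤ K n g u
    · rw [if_pos (by omega)]; omega
    · rw [if_neg hc] at h2; omega
  · rw [e t' (by omega)] at h2
    rw [e t ht]
    by_cases hc : K n g t' < K n g u
    · rw [if_pos (by omega)]; omega
    rw [if_neg hc] at h2
    rw [if_neg (by omega)]
    by_cases h3 : t' = u
    · rw [if_pos h3] at h2; omega
    rw [if_neg h3] at h2
    by_cases h4 : u < t' ∧ K n g t' = K n g u ∧ st n g s t' ≤ 2
    · rw [if_neg (by omega)]
      by_cases h5 : st n g s t ≤ 2
      · rw [if_pos ⟨by omega, by omega, h5⟩]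
      · rw [if_neg (by omega)]; omega
    · rw [if_neg h4] at h2; omega

/-- after stage `s₁`, an active record of level `k` can only be stopped by an older one -/
theorem death_k {k s₁ : ℕ} (hS : Stab n g k s₁) {s t : ℕ} (hs : s₁ ≤ s) (ht : t < s)
    (hK : K n g t = k) (h1 : st n g s t ≤ 1) (h2 : 2 ≤ st n g (s + 1) t) :
    ∃ v < t, ac n g s = some v ∧ K n g v = k ∧ st n g s v = 0 := by
  rw [st_succ_lt ht] at h2
  rcases stage_cases (n := n) (g := g) s with ⟨_, e, _⟩ | ⟨u, _, ha, hf, _, e, _⟩ |
    ⟨u, _, ha, _, hj, _, e, _⟩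
  · rw [e t ht] at h2; omega
  · rw [e t ht] at h2
    have := hS.flip s hs u ha hf
    rw [if_neg (by omega)] at h2; omega
  · rw [e t ht] at h2
    have hku := hS.act s hs u ha
    rw [if_neg (by omega)] at h2
    by_cases h3 : t = u
    · rw [if_pos h3] at h2; omega
    rw [if_neg h3] at h2
    by_cases h4 : u < t ∧ K n g t = K n g u ∧ st n g s t ≤ 2
    · exact ⟨u, h4.1, ha, by omega, ju_st hj⟩
    · rw [if_neg h4] at h2; omega

/-- after stage `s₁`, records of level at least `k` are never dropped -/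
theorem present_k {k s₁ : ℕ} (hS : Stab n g k s₁) {s t : ℕ} (hs : s₁ ≤ s) (ht : t < s)
    (hK : k ≤ K n g t) (h1 : st n g s t ≤ 2) : st n g (s + 1) t ≤ 2 := by
  rw [st_succ_lt ht]
  rcases stage_cases (n := n) (g := g) s with ⟨_, e, _⟩ | ⟨u, _, ha, hf, _, e, _⟩ |
    ⟨u, _, ha, _, hj, _, e, _⟩
  · rw [e t ht]; omega
  · rw [e t ht]
    have := hS.flip s hs u ha hf
    rw [if_neg (by omega)]; omega
  · rw [e t ht]
    have hku := hS.act s hs u ha
    rw [if_neg (by omega)]
    split
    · omega
    split <;> omega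

theorem present_k' {k s₁ : ℕ} (hS : Stab n g k s₁) {s s' t : ℕ} (hs : s₁ ≤ s) (ht : t < s)
    (hK : k ≤ K n g t) (h1 : st n g s t ≤ 2) (hss : s ≤ s') : st n g s' t ≤ 2 := by
  induction s', hss using Nat.le_induction with
  | base => exact h1
  | succ s' hs' ih => exact present_k hS (by omega) (by omega) hK ih

end Dyn

end Low

/-! ### The order is computably well-founded -/

namespace Low

section WF

variable {n : ℕ} {g : ℕ → ℕ → ℕ → Bool}

variable (n g) in
/-- records of level `k` which stay active forever -/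
def Sk (k t : ℕ) : Prop := K n g t = k ∧ ∀ s, t < s → st n g s t ≤ 1

theorem exists_death {t s : ℕ} (_ht : t < s) (h0 : st n g s t ≤ 1)
    (h : ¬ ∀ s', t < s' → st n g s' t ≤ 1) :
    ∃ s' ≥ s, st n g s' t ≤ 1 ∧ 2 ≤ st n g (s' + 1) t := by
  push Not at h
  obtain ⟨s2, h2, h3⟩ := h
  have hlt : s < s2 := by
    by_contra hc
    have := st_mono (n := n) (g := g) h2 (show s2 ≤ s by omega)
    omega
  by_contra hc
  push Not at hc
  have : ∀ s' ≥ s, st n g s' t ≤ 1 := by
    intro s' hs'
    induction s', hs' using Nat.le_induction with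
    | base => exact h0
    | succ s' hs' ih =>
      have := hc s' hs' ih
      omega
  have := this s2 hlt.le
  omega

theorem Sk_unbounded {k s₁ : ℕ} (hS : Stab n g k s₁) (m : ℕ) : ∃ t ≥ m, Sk n g k t := by
  by_contra hc
  push Not at hc
  obtain ⟨s₂, hs₂⟩ := no_act_below (n := n) (g := g) m
  obtain ⟨p, hp, hpK⟩ := hS.inf (max (max s₁ s₂) m)
  have hp1 : s₁ ≤ p := ((le_max_left _ _).trans (le_max_left _ _)).trans hp
  have hp2 : s₂ ≤ p := ((le_max_right _ _).trans (le_max_left _ _)).trans hp
  have hpm : m ≤ p := (le_max_right _ _).trans hp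
  have hex : ∃ u, u ≤ p ∧ K n g u = k ∧ st n g (p + 1) u ≤ 1 ∧ ¬ Sk n g k u :=
    ⟨p, le_rfl, hpK, by rw [st_succ_self]; omega, hc p hpm⟩
  classical
  obtain ⟨hup, huK, hu1, hun⟩ := Nat.find_spec hex
  set u := Nat.find hex with hu
  have hmin : ∀ v < u, ¬ (v ≤ p ∧ K n g v = k ∧ st n g (p + 1) v ≤ 1 ∧ ¬ Sk n g k v) :=
    fun v hv => Nat.find_min hex hv
  obtain ⟨s', hs', h1, h2⟩ := exists_death (n := n) (g := g) (t := u) (s := p + 1) (by omega) hu1
    (fun hall => hun ⟨huK, hall⟩)
  obtain ⟨v, hv, ha, hvK, hv0⟩ := death_k hS (by omega) (by omega) huK h1 h2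
  have hv1 : st n g (p + 1) v ≤ 1 := by
    have := st_mono (n := n) (g := g) (show v < p + 1 by omega) hs'
    omega
  have hvS : Sk n g k v := by
    by_contra hcv
    exact hmin v hv ⟨by omega, hvK, hv1, hcv⟩
  have hvm : v < m := by
    by_contra hcv
    exact hc v (by omega) hvS
  exact hs₂ s' (by omega) v hvm ha

theorem cntP_eq {p : ℕ → Bool} {q : ℕ → Prop} [DecidablePred q] : ∀ m,
    (∀ u < m, p u = true ↔ q u) → cntP p m = Nat.count q m := by
  intro m
  induction m with
  | zero => intro _; simp [cntP]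
  | succ m ih =>
    intro h
    rw [cntP, ih (fun u hu => h u (by omega)), Nat.count_succ]
    have := h m (by omega)
    cases hp : p m with
    | true => rw [if_pos (this.1 hp)]; rfl
    | false =>
      have hq : ¬ q m := fun hc => by rw [this.2 hc] at hp; cases hp
      rw [if_neg hq]; rfl

open Classical in
theorem E_eq {k t : ℕ} (ht : Sk n g k t) : E n g t = Nat.count (Sk n g k) t := by
  show newE n g (St n g t) t = _
  unfold newE
  refine cntP_eq t fun t' ht' => ?_
  have e1 : newSt n g (St n g t) t t' = st n g (t + 1) t' := (st_succ_lt ht').symm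
  have e2 : newK n g (St n g t) t = k := ht.1
  rw [e1, e2, (fields ht').1, Bool.and_eq_true]
  constructor
  · rintro ⟨h1, h2⟩
    have h1 := of_decide_eq_true h1
    have h2 := of_decide_eq_true h2
    refine ⟨h2, ?_⟩
    by_contra hc
    obtain ⟨s', hs', h3, h4⟩ := exists_death (n := n) (g := g) (t := t') (s := t + 1) (by omega)
      h1 hc
    have := death_prop (n := n) (g := g) ht' (by omega) (h2.trans ht.1.symm) h3 h4
    have := ht.2 (s' + 1) (by omega)
    omega
  · intro h
    exact ⟨decide_eq_true (h.2 _ (by omega)), decide_eq_true h.1⟩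

theorem exists_index_rec {k s₁ : ℕ} (hS : Stab n g k s₁) (e : ℕ) :
    ∃ t, Sk n g k t ∧ E n g t = e := by
  classical
  have hinf : (Set.ofPred (Sk n g k)).Infinite := by
    rw [Set.infinite_iff_exists_gt]
    · intro m
      obtain ⟨t, ht, h⟩ := Sk_unbounded hS (m + 1)
      exact ⟨t, h, by omega⟩
  refine ⟨Nat.nth (Sk n g k) e, Nat.nth_mem_of_infinite hinf e, ?_⟩
  rw [E_eq (Nat.nth_mem_of_infinite hinf e), Nat.count_nth_of_infinite hinf]

theorem Le_new_Up {s v x : ℕ} (h1 : 3 * s + 2 ≤ v) (h2 : v ≤ 3 * s + 4) (hx : x < 3 * s + 2) :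
    Le n g v x = Le n g (Up n g s) x := Le_new_left h1 h2 hx

theorem inj_bound {f : ℕ → ℕ} (hf : ∀ a b, a < b → f a ≠ f b) (q m : ℕ) :
    ∃ q' ≥ q, m ≤ f q' := by
  by_contra hc
  push Not at hc
  have : Set.InjOn f (Set.Ici q) := by
    intro a _ b _ hab
    rcases lt_trichotomy a b with h | h | h
    · exact absurd hab (hf a b h)
    · exact h
    · exact absurd hab.symm (hf b a h)
  have h2 : (f '' Set.Ici q).Finite := (Set.finite_lt_nat m).subset (by
    rintro _ ⟨a, ha, rfl⟩
    exact hc a ha)
  have h3 := h2.of_finite_image this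
  exact Set.Ici_infinite q h3

theorem Le_wf : CompWF (fun x y => Le n g x y = true) := by
  rintro ⟨f, hf, hd⟩
  obtain ⟨e, he⟩ := exists_index hf
  obtain ⟨k, s₁, hS⟩ := exists_stab (n := n) (g := g)
  obtain ⟨t, ht, hE⟩ := exists_index_rec hS e
  have mono : ∀ b a, a ≤ b → Le n g (f b) (f a) = true := by
    intro b a hab
    induction b, hab using Nat.le_induction with
    | base => exact Le_self _
    | succ b _ ih => exact Le_trans (hd b).1 ih
  have finj : ∀ a b, a < b → f a ≠ f b := by
    intro a b hab h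
    have h1 := mono b (a + 1) hab
    rw [← h] at h1
    exact (hd a).2 (Le_antisymm (hd a).1 h1)
  have ev : ∀ q, ∃ s₀, ∀ s ≥ s₀, Code.evaln s (Denumerable.ofNat Code (E n g t)) q = some (f q) := by
    intro q
    have : f q ∈ Code.eval (Denumerable.ofNat Code (E n g t)) q := by
      rw [hE, he q]; exact Part.mem_some _
    obtain ⟨s₀, hs₀⟩ := Code.evaln_complete.1 this
    exact ⟨s₀, fun s hs => Code.evaln_mono hs hs₀⟩
  by_cases h0 : ∀ s, t < s → st n g s t = 0
  · -- never acts
    obtain ⟨s₂, hs₂⟩ := no_event (n := n) (g := g) t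
    have hnot : ∀ q, Le n g (f q) (3 * t + 4) = false := by
      intro q
      obtain ⟨s₃, hs₃⟩ := ev q
      by_contra hc
      have hc' : Le n g (f q) (3 * t + 4) = true := by simpa using hc
      set s := max (max s₂ s₃) (max (q + 1) (f q)) with hs
      have a1 : s₂ ≤ s := (le_max_left _ _).trans (le_max_left _ _)
      have a2 : s₃ ≤ s := (le_max_right _ _).trans (le_max_left _ _)
      have a3 : q + 1 ≤ s := (le_max_left _ _).trans (le_max_right _ _)
      have a4 : f q ≤ s := (le_max_right _ _).trans (le_max_right _ _)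
      obtain ⟨hts, _, hj⟩ := hs₂ s a1
      have := ju_of hts (h0 s hts) (show q < s by omega) (hs₃ s a2) (by omega) hc'
      rw [this] at hj; cases hj
    obtain ⟨q, _, hq⟩ := inj_bound finj 0 (3 * (t + 1) + 2)
    obtain ⟨s', hs', b1, b2⟩ := new_below hq
    have h1 := Le_new_Up (n := n) (g := g) b1 b2 (show 3 * t + 4 < 3 * s' + 2 by omega)
    rw [hnot q] at h1
    have h2 : st' n g s' t = 0 := by
      rw [← st_succ_lt (by omega)]; exact h0 _ (by omega)
    have h3 := (Up_spec (inv_action (inv s')) (show t < s' by omega)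
      (show st' n g s' t ≤ 1 by omega)).1
    rw [Top'_eq, if_pos h2] at h3
    rw [h3] at h1; cases h1
  · push Not at h0
    obtain ⟨s₂, hts₂, hne⟩ := h0
    have hex : ∃ s, t < s ∧ st n g s t ≠ 0 := ⟨s₂, hts₂, hne⟩
    classical
    obtain ⟨hta, hst⟩ := Nat.find_spec hex
    set s₃ := Nat.find hex with hs₃
    have hmin : ∀ s < s₃, ¬ (t < s ∧ st n g s t ≠ 0) := fun s hs => Nat.find_min hex hs
    have hs₃t : s₃ ≠ t + 1 := by
      intro h
      rw [h, st_succ_self] at hst
      exact hst rfl
    obtain ⟨s, rfl' : s₃ = s + 1⟩ := Nat.exists_eq_succ_of_ne_zero (show s₃ ≠ 0 by omega)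
    have hts : t < s := by omega
    have hst0 : st n g s t = 0 := by
      by_contra hc
      exact hmin s (by omega) ⟨hts, hc⟩
    rw [rfl', st_succ_lt hts] at hst
    have h1s := ht.2 (s + 1) (by omega)
    rw [st_succ_lt hts] at h1s
    -- the action at stage `s` is the jump of `t`
    have hju : ju n g s t = true := by
      rcases stage_cases (n := n) (g := g) s with ⟨_, e1, _⟩ | ⟨u, _, _, _, _, e1, _⟩ |
        ⟨u, _, _, _, hj, _, e1, _⟩
      · rw [e1 t hts] at hst; exact absurd hst0 hst
      · rw [e1 t hts] at hst h1s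
        split at h1s
        · omega
        · rename_i hc; rw [if_neg hc] at hst; exact absurd hst0 hst
      · rw [e1 t hts] at hst h1s
        split at h1s
        · omega
        · rename_i hc
          rw [if_neg hc] at hst
          split at h1s
          · rename_i hc2; rw [hc2]; exact hj
          · rename_i hc2
            rw [if_neg hc2] at hst
            split at h1s
            · omega
            · rename_i hc3; rw [if_neg hc3] at hst; exact absurd hst0 hst
    obtain ⟨q, v, hv, hle⟩ := ju_spec hts hju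
    have hvq : v = f q := by
      have h2 := Code.evaln_sound hv
      rw [hE, he q] at h2
      exact Part.mem_some_iff.1 h2
    rw [hvq] at hle
    obtain ⟨q', hq', hq2⟩ := inj_bound finj q (3 * s + 2)
    have h4 : Le n g (f q') (3 * t + 4) = true := Le_trans (mono q' q hq') hle
    obtain ⟨s', hs', b1, b2⟩ := new_below hq2
    rw [Le_new_Up (n := n) (g := g) b1 b2 (show 3 * t + 4 < 3 * s' + 2 by omega)] at h4
    have h5 : st' n g s' t = 1 := by
      rw [← st_succ_lt (by omega)]
      have a := ht.2 (s' + 1) (by omega)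
      have b := st_mono (n := n) (g := g) (show t < s + 1 by omega) (show s + 1 ≤ s' + 1 by omega)
      rw [st_succ_lt hts] at b
      omega
    have h6 := (Up_spec (inv_action (inv s')) (show t < s' by omega)
      (show st' n g s' t ≤ 1 by omega)).2.2 h5
    rw [h6] at h4; cases h4

end WF

end Low

/-! ### The descending sequence -/

namespace Low

theorem enum {q : ℕ → Bool} (hq : Computable q) (hinf : ∀ m, ∃ t ≥ m, q t = true) :
    ∃ f : ℕ → ℕ, Computable f ∧ StrictMono f ∧ ∀ m, q (f m) = true := by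
  have h1 : Partrec (fun m : ℕ => Nat.rfind fun d => (Part.some (q (m + d)) : Part Bool)) := by
    refine Partrec.rfind (p := fun m d => (Part.some (q (m + d)) : Part Bool)) ?_
    exact hq.comp Primrec.nat_add.to_comp
  have hdom : ∀ m : ℕ, (Nat.rfind fun d => (Part.some (q (m + d)) : Part Bool)).Dom := by
    intro m
    obtain ⟨t, ht, hqt⟩ := hinf m
    rw [Nat.rfind_dom]
    refine ⟨t - m, ?_, fun _ => trivial⟩
    rw [Part.mem_some_iff, show m + (t - m) = t by omega, hqt]
  set nx : ℕ → ℕ := fun m => m + (Nat.rfind fun d => (Part.some (q (m + d)) : Part Bool)).get (hdom m)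
    with hnx
  have hnxc : Computable nx := by
    have h2 : Computable (fun m : ℕ =>
        (Nat.rfind fun d => (Part.some (q (m + d)) : Part Bool)).get (hdom m)) :=
      h1.of_eq fun m => (Part.some_get (hdom m)).symm
    exact Primrec.nat_add.to_comp.comp Computable.id h2
  have hspec : ∀ m, m ≤ nx m ∧ q (nx m) = true := by
    intro m
    refine ⟨Nat.le_add_right _ _, ?_⟩
    have := Nat.rfind_spec (Part.get_mem (hdom m))
    rw [Part.mem_some_iff] at this
    exact this.symm
  refine ⟨fun m => Nat.rec (motive := fun _ => ℕ) (nx 0) (fun _ IH => nx (IH + 1)) m, ?_, ?_, ?_⟩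
  · exact Computable.nat_rec (h := fun (_ : ℕ) (z : ℕ × ℕ) => nx (z.2 + 1)) Computable.id
      (Computable.const _) (hnxc.comp (Computable.succ.comp (Computable.snd.comp Computable.snd)))
  · refine strictMono_nat_of_lt_succ fun m => ?_
    exact Nat.lt_of_succ_le (hspec _).1
  · intro m
    cases m with
    | zero => exact (hspec 0).2
    | succ m => exact (hspec _).2

section Psi

variable {n : ℕ} {g : ℕ → ℕ → ℕ → Bool}

variable (g) in
/-- number of changes of the approximation before `t` -/
def chg (x y t : ℕ) : ℕ := ((Finset.range t).filter (fun s => g x y (s + 1) ≠ g x y s)).card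

theorem chg_mono {x y t s : ℕ} (h : t ≤ s) : chg g x y t ≤ chg g x y s := by
  unfold chg
  refine Finset.card_le_card fun u hu => ?_
  rw [Finset.mem_filter, Finset.mem_range] at hu ⊢
  exact ⟨by omega, hu.2⟩

theorem exists_change {x y t s : ℕ} (h : t ≤ s) (hne : g x y t ≠ g x y s) :
    ∃ u, t ≤ u ∧ u < s ∧ g x y (u + 1) ≠ g x y u := by
  by_contra hc
  push Not at hc
  apply hne
  clear hne
  induction s, h using Nat.le_induction with
  | base => rfl
  | succ s hs ih =>
    rw [hc s hs (by omega)]
    exact ih fun u h1 h2 => hc u h1 (by omega)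

theorem chg_lt {x y t s : ℕ} (h : t ≤ s) (hne : g x y t ≠ g x y s) :
    chg g x y t + 1 ≤ chg g x y s := by
  obtain ⟨u, h1, h2, h3⟩ := exists_change h hne
  unfold chg
  apply Finset.card_lt_card
  rw [Finset.ssubset_iff_of_subset]
  · refine ⟨u, ?_, ?_⟩
    · rw [Finset.mem_filter, Finset.mem_range]; exact ⟨h2, h3⟩
    · rw [Finset.mem_filter, Finset.mem_range]; omega
  · intro v hv
    rw [Finset.mem_filter, Finset.mem_range] at hv ⊢
    exact ⟨by omega, hv.2⟩

theorem chg_le {x y : ℕ} (h : {s | g x y (s + 1) ≠ g x y s}.encard ≤ n) (t : ℕ) :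
    chg g x y t ≤ n := by
  unfold chg
  have h1 : (((Finset.range t).filter (fun s => g x y (s + 1) ≠ g x y s) : Finset ℕ) : Set ℕ) ⊆
      {s | g x y (s + 1) ≠ g x y s} := by
    intro u hu
    rw [Finset.mem_coe, Finset.mem_filter] at hu
    exact hu.2
  have h2 := (Set.encard_le_encard h1).trans h
  rw [Set.encard_coe_eq_coe_finsetCard] at h2
  exact_mod_cast h2

theorem ori_swap {s a b : ℕ} (h : a ≠ b) : ori g s b a = !(ori g s a b) := by
  unfold ori
  rcases lt_trichotomy a b with h1 | h1 | h1
  · rw [if_neg (by omega), if_pos h1]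
  · exact absurd h1 h
  · rw [if_pos h1, if_neg (by omega)]; simp

theorem ori_minmax {s a b : ℕ} :
    ori g s a b = if a < b then g (min a b) (max a b) s else !(g (min a b) (max a b) s) := by
  unfold ori
  split
  · rw [min_eq_left (by omega), max_eq_right (by omega)]
  · rw [min_eq_right (by omega), max_eq_left (by omega)]

theorem count_inv : ∀ t, K n g t ≤ chg g (min (A n g t) (B n g t)) (max (A n g t) (B n g t)) t ∧
    ori g t (A n g t) (B n g t) = true := by
  intro t
  induction t using Nat.strong_induction_on with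
  | _ t ih =>
    have lev0 : K n g t = 0 →
        ((A n g t = 3 * t + 2 ∧ B n g t = 3 * t + 3 ∧ g (3 * t + 2) (3 * t + 3) t = true) ∨
        (A n g t = 3 * t + 3 ∧ B n g t = 3 * t + 2 ∧ g (3 * t + 2) (3 * t + 3) t = false)) →
        K n g t ≤ chg g (min (A n g t) (B n g t)) (max (A n g t) (B n g t)) t ∧
        ori g t (A n g t) (B n g t) = true := by
      rintro hk (⟨a, b, c⟩ | ⟨a, b, c⟩)
      · refine ⟨by omega, ?_⟩
        rw [a, b]; unfold ori; rw [if_pos (by omega)]; exact c
      · refine ⟨by omega, ?_⟩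
        rw [a, b]; unfold ori; rw [if_neg (by omega), c]; rfl
    rcases stage_cases (n := n) (g := g) t with ⟨_, _, hk, hab, _⟩ |
      ⟨u, hu, _, hf, _, e, hk, ha, hb⟩ | ⟨u, hu, _, _, _, _, _, hk, hab⟩
    · exact lev0 hk hab
    · obtain ⟨h1, h2⟩ := ih u hu
      obtain ⟨_, _, h3⟩ := fl_spec hu hf
      have hne := (AB_bounds (n := n) (g := g) u).2.2.2.2
      rw [ha, hb, hk]
      refine ⟨?_, ?_⟩
      · rw [min_comm, max_comm]
        refine le_trans (Nat.succ_le_succ h1) (chg_lt hu.le ?_)
        intro hc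
        rw [ori_minmax] at h2 h3
        rw [hc, h3] at h2
        cases h2
      · rw [ori_swap hne, h3]; rfl
    · exact lev0 hk hab

/-- the pairs of the records of level `k` which stay present are correctly oriented in the limit -/
theorem ori_final {k s₁ : ℕ} (hS : Stab n g k s₁)
    (hch : ∀ x y, {s | g x y (s + 1) ≠ g x y s}.encard ≤ n) {s t : ℕ} (hs : s₁ ≤ s) (ht : t < s)
    (hK : K n g t = k) (h1 : st n g s t ≤ 2) :
    ∃ s₀, ∀ s' ≥ s₀, ori g s' (A n g t) (B n g t) = true := by
  by_cases hkn : k < n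
  · obtain ⟨s₀, hs₀⟩ := no_event (n := n) (g := g) t
    refine ⟨max s₀ s, fun s' hs' => ?_⟩
    obtain ⟨a, b, _⟩ := hs₀ s' ((le_max_left _ _).trans hs')
    by_contra hc
    have hc' : ori g s' (A n g t) (B n g t) = false := by simpa using hc
    have := fl_of a (present_k' hS hs ht (by omega) h1 ((le_max_right _ _).trans hs'))
      (by omega) hc'
    rw [this] at b; cases b
  · refine ⟨t, fun s' hs' => ?_⟩
    obtain ⟨c1, c2⟩ := count_inv (n := n) (g := g) t
    have hKn := K_le (n := n) (g := g) t
    by_contra hc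
    have hne : g (min (A n g t) (B n g t)) (max (A n g t) (B n g t)) t ≠
        g (min (A n g t) (B n g t)) (max (A n g t) (B n g t)) s' := by
      intro he
      rw [ori_minmax] at c2 hc
      rw [he] at c2
      exact hc c2
    have h2 := chg_lt hs' hne
    have h3 := chg_le (hch (min (A n g t) (B n g t)) (max (A n g t) (B n g t))) s'
    omega

variable {L : ℕ → ℕ → Prop}

theorem lim_pair (hL : LinearExtension (fun x y => Le n g x y = true) L)
    (hlim : ∀ x y, ∃ s₀, ∀ s ≥ s₀, (g x y s = true ↔ L x y)) {a b : ℕ}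
    (h : ∃ s₀, ∀ s' ≥ s₀, ori g s' a b = true) : L a b := by
  obtain ⟨s₀, hs₀⟩ := h
  by_cases hab : a < b
  · obtain ⟨s₂, hs₂⟩ := hlim a b
    have h1 := hs₀ (max s₀ s₂) (le_max_left _ _)
    have h2 := hs₂ (max s₀ s₂) (le_max_right _ _)
    unfold ori at h1
    rw [if_pos hab] at h1
    exact h2.1 h1
  · obtain ⟨s₂, hs₂⟩ := hlim b a
    have h1 := hs₀ (max s₀ s₂) (le_max_left _ _)
    have h2 := hs₂ (max s₀ s₂) (le_max_right _ _)
    unfold ori at h1
    rw [if_neg hab] at h1
    have h3 : ¬ L b a := by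
      intro hc
      rw [h2.2 hc] at h1
      cases h1
    exact (hL.total a b).resolve_right h3

/-- main claim on the elements created by the records of level `k` -/
theorem main_claim {k s₁ : ℕ} (hS : Stab n g k s₁)
    (hL : LinearExtension (fun x y => Le n g x y = true) L)
    (hlim : ∀ x y, ∃ s₀, ∀ s ≥ s₀, (g x y s = true ↔ L x y))
    (hch : ∀ x y, {s | g x y (s + 1) ≠ g x y s}.encard ≤ n) {p : ℕ} (hp : s₁ ≤ p)
    (hpK : K n g p = k) : ∀ s, p < s →
    (∃ t₀ < s, st n g s t₀ ≤ 1 ∧ k ≤ K n g t₀ ∧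
      (∀ t, t₀ < t → t < s → st n g s t ≤ 1 → K n g t < k) ∧
      L (if st n g s t₀ = 0 then 3 * t₀ + 4 else A n g t₀) (3 * p + 4)) ∧
    ∀ t, p ≤ t → t < s → K n g t = k → L (3 * t + 4) (3 * p + 4) := by
  intro s hps
  induction s, (show p + 1 ≤ s from hps) using Nat.le_induction with
  | base =>
    refine ⟨⟨p, by omega, by rw [st_succ_self]; omega, hpK.ge, fun t a b => by omega, ?_⟩,
      fun t a b _ => ?_⟩
    · rw [if_pos (st_succ_self p)]; exact hL.refl _
    · obtain rfl : t = p := by omega
      exact hL.refl _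
  | succ s hs ih =>
    obtain ⟨⟨t₀, ht₀, hal, hkt₀, hmax, hLt₀⟩, hM⟩ := ih (by omega)
    -- after the action
    have hW' : ∃ t₀ < s, st' n g s t₀ ≤ 1 ∧ k ≤ K n g t₀ ∧
        (∀ t, t₀ < t → t < s → st' n g s t ≤ 1 → K n g t < k) ∧
        L (Top' n g s t₀) (3 * p + 4) := by
      have same : st' n g s t₀ = st n g s t₀ → L (Top' n g s t₀) (3 * p + 4) := by
        intro he
        unfold Top'
        rw [he]; exact hLt₀
      rcases stage_cases (n := n) (g := g) s with ⟨_, e, _⟩ | ⟨u, hu, ha, hf, _, e, _⟩ |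
        ⟨u, hu, ha, _, hj, _, e, _⟩
      · refine ⟨t₀, ht₀, by rw [e t₀ ht₀]; exact hal, hkt₀, fun t a b c => ?_, same (e t₀ ht₀)⟩
        rw [e t b] at c
        exact hmax t a b c
      · have hku := hS.flip s (by omega) u ha hf
        have e0 : st' n g s t₀ = st n g s t₀ := by rw [e t₀ ht₀, if_neg (by omega)]
        refine ⟨t₀, ht₀, by rw [e0]; exact hal, hkt₀, fun t a b c => ?_, same e0⟩
        rw [e t b] at c
        by_cases hc : K n g t ≤ K n g u
        · rw [if_pos hc] at c; omega
        · rw [if_neg hc] at c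
          exact hmax t a b c
      · have hku := hS.act s (by omega) u ha
        have hu0 := ju_st hj
        rcases Nat.lt_or_ge (K n g u) k with hlt | hge
        · have e0 : st' n g s t₀ = st n g s t₀ := by
            rw [e t₀ ht₀, if_neg (by omega), if_neg (by rintro rfl; omega), if_neg (by omega)]
          refine ⟨t₀, ht₀, by rw [e0]; exact hal, hkt₀, fun t a b c => ?_, same e0⟩
          rw [e t b] at c
          by_cases h1 : K n g t < K n g u
          · rw [if_pos h1] at c; omega
          rw [if_neg h1] at c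
          by_cases h2 : t = u
          · rw [h2]; exact hlt
          rw [if_neg h2] at c
          by_cases h3 : u < t ∧ K n g t = K n g u ∧ st n g s t ≤ 2
          · rw [if_pos h3] at c; omega
          · rw [if_neg h3] at c
            exact hmax t a b c
        · have hKu : K n g u = k := by omega
          have e1 : st' n g s u = 1 := by rw [e u hu, if_neg (by omega), if_pos rfl]
          refine ⟨u, hu, by omega, hge, fun t a b c => ?_, ?_⟩
          · by_contra hc
            rw [e t b, if_neg (by omega), if_neg (by omega)] at c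
            by_cases h3 : u < t ∧ K n g t = K n g u ∧ st n g s t ≤ 2
            · rw [if_pos h3] at c; omega
            · rw [if_neg h3] at c
              have := (inv (n := n) (g := g) s).lev u t a b (by omega) (by omega)
              exact h3 ⟨a, by omega, by omega⟩
          · unfold Top'
            rw [if_neg (by omega)]
            have hAB : L (A n g u) (B n g u) :=
              lim_pair hL hlim (ori_final hS hch (by omega) hu hKu (by omega))
            have hBp : L (B n g u) (3 * p + 4) := by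
              rcases lt_trichotomy u p with h1 | h1 | h1
              · have h2 : st n g (p + 1) u = 0 := by
                  have := st_mono (n := n) (g := g) (show u < p + 1 by omega) hs
                  omega
                have h3 := (inv (n := n) (g := g) (p + 1)).reg u p h1 (by omega) (by omega)
                  (by rw [st_succ_self]; omega) (Or.inl (by rw [st_succ_self]; omega))
                exact hL.extend _ _ (h3.2.2.2.1 h2).1
              · subst h1
                exact hL.extend _ _ (B_lt_Z u).1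
              · exact hL.trans _ _ _ (hL.extend _ _ (B_lt_Z u).1) (hM u (by omega) hu hKu)
            exact hL.trans _ _ _ hAB hBp
    obtain ⟨t₁, ht₁, hal1, hkt1, hmax1, hL1⟩ := hW'
    have hMs : K n g s = k → L (3 * s + 4) (3 * p + 4) := by
      intro hks
      have hnew : ∀ t, t₁ < t → t < s → ¬ st' n g s t ≤ 1 := by
        intro t a b c
        have h1 := hmax1 t a b c
        have h2 := K_le_of_present (n := n) (g := g) b (show st' n g s t ≤ 2 by omega)
        omega
      have hUp : Up n g s = Top' n g s t₁ := by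
        rcases Up_cases (n := n) (g := g) s with ⟨_, h2⟩ | ⟨t2, ht2, e', h2, h3⟩
        · exact absurd hal1 (h2 t₁ ht₁)
        · have : t2 = t₁ := by
            rcases lt_trichotomy t2 t₁ with h4 | h4 | h4
            · exact absurd hal1 (h3 t₁ h4 ht₁)
            · exact h4
            · exact absurd h2 (hnew t2 h4 ht2)
          rw [e', this]
      have h1 : Le n g (3 * s + 4) (Up n g s) = true := by
        rw [Le_new_left (s := s) (by omega) (by omega) (Up_lt s)]; exact Le_self _
      rw [hUp] at h1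
      exact hL.trans _ _ _ (hL.extend _ _ h1) hL1
    refine ⟨?_, fun t a b c => ?_⟩
    · by_cases hks : K n g s = k
      · refine ⟨s, by omega, by rw [st_succ_self]; omega, hks.ge, fun t a b => by omega, ?_⟩
        rw [if_pos (st_succ_self s)]
        exact hMs hks
      · have hklt : K n g s < k := by
          have := hS.kle s (by omega)
          omega
        have e0 : st n g (s + 1) t₁ = st' n g s t₁ := st_succ_lt ht₁
        refine ⟨t₁, by omega, by rw [e0]; exact hal1, hkt1, fun t a b c => ?_, ?_⟩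
        · rcases Nat.lt_or_ge t s with h1 | h1
          · rw [st_succ_lt h1] at c
            exact hmax1 t a h1 c
          · obtain rfl : t = s := by omega
            exact hklt
        · rw [e0]; exact hL1
    · rcases Nat.lt_or_ge t s with h1 | h1
      · exact hM t a h1 c
      · obtain rfl : t = s := by omega
        exact hMs c

/-- a linear extension approximated by `g` with at most `n` changes is not computably
well-founded -/
theorem not_wf (hKc : Computable (K n g))
    (hL : LinearExtension (fun x y => Le n g x y = true) L)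
    (hlim : ∀ x y, ∃ s₀, ∀ s ≥ s₀, (g x y s = true ↔ L x y))
    (hch : ∀ x y, {s | g x y (s + 1) ≠ g x y s}.encard ≤ n) :
    ∃ f : ℕ → ℕ, Computable f ∧ ∀ m, L (f (m + 1)) (f m) ∧ f (m + 1) ≠ f m := by
  obtain ⟨k, s₁, hS⟩ := exists_stab (n := n) (g := g)
  have hq : Computable (fun p => decide (s₁ ≤ p) && decide (K n g p = k)) := by
    have h1 : Computable (fun p : ℕ => decide (s₁ ≤ p)) :=
      (Primrec.nat_le.decide.comp (Primrec.const s₁) Primrec.id).to_comp
    have h2 : Computable (fun p : ℕ => decide (K n g p = k)) :=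
      (Primrec.eq (α := ℕ)).decide.to_comp.comp hKc (Computable.const k)
    exact Primrec.and.to_comp.comp h1 h2
  obtain ⟨f, hf, hmono, hfq⟩ := enum hq (by
    intro m
    obtain ⟨p, hp, hpK⟩ := hS.inf (max m s₁)
    refine ⟨p, (le_max_left _ _).trans hp, ?_⟩
    rw [Bool.and_eq_true]
    exact ⟨decide_eq_true ((le_max_right _ _).trans hp), decide_eq_true hpK⟩)
  have hfp : ∀ m, s₁ ≤ f m ∧ K n g (f m) = k := by
    intro m
    have := hfq m
    rw [Bool.and_eq_true] at this
    exact ⟨of_decide_eq_true this.1, of_decide_eq_true this.2⟩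
  refine ⟨fun m => 3 * f m + 4, ?_, fun m => ?_⟩
  · exact (Primrec.nat_add.comp (Primrec.nat_mul.comp (Primrec.const 3) Primrec.id)
      (Primrec.const 4)).to_comp.comp hf
  · have hlt : f m < f (m + 1) := hmono (Nat.lt_succ_self m)
    refine ⟨?_, by simp only; omega⟩
    exact (main_claim hS hL hlim hch (hfp m).1 (hfp m).2 (f (m + 1) + 1) (by omega)).2
      (f (m + 1)) hlt.le (by omega) (hfp (m + 1)).2

end Psi

end Low

/-! ### The construction is primitive recursive -/

namespace Low

section Prim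

variable {α : Type*} [Primcodable α]

theorem pr_eqTrue {f : α → Bool} (hf : Primrec f) : PrimrecPred (fun a => f a = true) :=
  Primrec.eq.comp hf (Primrec.const true)

theorem pr_kR {r : α → Rec} (h : Primrec r) : Primrec (fun a => kR (r a)) := Primrec.fst.comp h
theorem pr_t1 {r : α → Rec} (h : Primrec r) : Primrec (fun a => (r a).2) := Primrec.snd.comp h
theorem pr_t2 {r : α → Rec} (h : Primrec r) : Primrec (fun a => (r a).2.2) :=
  Primrec.snd.comp (pr_t1 h)
theorem pr_t3 {r : α → Rec} (h : Primrec r) : Primrec (fun a => (r a).2.2.2) :=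
  Primrec.snd.comp (pr_t2 h)
theorem pr_t4 {r : α → Rec} (h : Primrec r) : Primrec (fun a => (r a).2.2.2.2) :=
  Primrec.snd.comp (pr_t3 h)
theorem pr_t5 {r : α → Rec} (h : Primrec r) : Primrec (fun a => (r a).2.2.2.2.2) :=
  Primrec.snd.comp (pr_t4 h)
theorem pr_aR {r : α → Rec} (h : Primrec r) : Primrec (fun a => aR (r a)) :=
  Primrec.fst.comp (pr_t1 h)
theorem pr_bR {r : α → Rec} (h : Primrec r) : Primrec (fun a => bR (r a)) :=
  Primrec.fst.comp (pr_t2 h)
theorem pr_eR {r : α → Rec} (h : Primrec r) : Primrec (fun a => eR (r a)) :=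
  Primrec.fst.comp (pr_t3 h)
theorem pr_lR {r : α → Rec} (h : Primrec r) : Primrec (fun a => lR (r a)) :=
  Primrec.fst.comp (pr_t4 h)
theorem pr_uR {r : α → Rec} (h : Primrec r) : Primrec (fun a => uR (r a)) :=
  Primrec.fst.comp (pr_t5 h)
theorem pr_sR {r : α → Rec} (h : Primrec r) : Primrec (fun a => sR (r a)) :=
  Primrec.snd.comp (pr_t5 h)

theorem pr_gt {S : α → List Rec} {t : α → ℕ} (hS : Primrec S) (ht : Primrec t) :
    Primrec (fun a => gt (S a) (t a)) := (Primrec.list_getD d0).comp hS ht

theorem pr_idx {v : α → ℕ} (hv : Primrec v) : Primrec (fun a => (v a - 2) / 3) :=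
  Primrec.nat_div.comp (Primrec.nat_sub.comp hv (Primrec.const 2)) (Primrec.const 3)

theorem pr_loL {S : α → List Rec} {v : α → ℕ} (hS : Primrec S) (hv : Primrec v) :
    Primrec (fun a => loL (S a) (v a)) := by
  unfold loL
  refine Primrec.ite (Primrec.nat_lt.comp hv (Primrec.const 2)) (Primrec.const 0) ?_
  refine Primrec.ite (Primrec.eq.comp (Primrec.nat_mod.comp (Primrec.nat_sub.comp hv
    (Primrec.const 2)) (Primrec.const 3)) (Primrec.const 2)) ?_ ?_
  · exact pr_bR (pr_gt hS (pr_idx hv))
  · exact pr_lR (pr_gt hS (pr_idx hv))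

theorem pr_hiL {S : α → List Rec} {v : α → ℕ} (hS : Primrec S) (hv : Primrec v) :
    Primrec (fun a => hiL (S a) (v a)) := by
  unfold hiL
  exact Primrec.ite (Primrec.nat_lt.comp hv (Primrec.const 2)) (Primrec.const 1)
    (pr_uR (pr_gt hS (pr_idx hv)))

/-- one step of the decision procedure -/
def stp (lo hi : ℕ → ℕ) (q : ℕ × ℕ) : ℕ × ℕ :=
  if q.1 = q.2 then q else if q.1 < q.2 then (q.1, lo q.2) else if q.1 = 1 then q
    else (hi q.1, q.2)

theorem stp_fix1 {lo hi : ℕ → ℕ} {q : ℕ × ℕ} (h : stp lo hi q = q) :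
    ∀ k, (stp lo hi)^[k] q = q := by
  intro k
  induction k with
  | zero => rfl
  | succ k ih => rw [Function.iterate_succ_apply, h, ih]

theorem leF_iter (lo hi : ℕ → ℕ) : ∀ k x y,
    leF lo hi k x y = decide (((stp lo hi)^[k] (x, y)).1 = ((stp lo hi)^[k] (x, y)).2) := by
  intro k
  induction k with
  | zero => intro x y; rfl
  | succ k ih =>
    intro x y
    rw [Function.iterate_succ_apply]
    simp only [leF]
    by_cases h1 : x = y
    · have : stp lo hi (x, y) = (x, y) := by unfold stp; rw [if_pos h1]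
      rw [if_pos h1, this, stp_fix1 this]
      simp [h1]
    · rw [if_neg h1]
      by_cases h2 : x < y
      · have : stp lo hi (x, y) = (x, lo y) := by
          unfold stp; rw [if_neg h1, if_pos h2]
        rw [if_pos h2, this]
        exact ih x (lo y)
      · rw [if_neg h2]
        by_cases h3 : x = 1
        · have : stp lo hi (x, y) = (x, y) := by
            unfold stp; rw [if_neg h1, if_neg h2, if_pos h3]
          rw [if_pos h3, this, stp_fix1 this]
          simp [h1]
        · have : stp lo hi (x, y) = (hi x, y) := by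
            unfold stp; rw [if_neg h1, if_neg h2, if_neg h3]
          rw [if_neg h3, this]
          exact ih (hi x) y

theorem pr_le {S : α → List Rec} {x y : α → ℕ} (hS : Primrec S) (hx : Primrec x)
    (hy : Primrec y) : Primrec (fun a => le (loL (S a)) (hiL (S a)) (x a) (y a)) := by
  have hit : Primrec (fun a => (stp (loL (S a)) (hiL (S a)))^[x a + y a] (x a, y a)) := by
    refine Primrec.nat_iterate (h := fun a q => stp (loL (S a)) (hiL (S a)) q)
      (Primrec.nat_add.comp hx hy) (hx.pair hy) ?_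
    have h1 : Primrec (fun z : α × (ℕ × ℕ) => z.2.1) := Primrec.fst.comp Primrec.snd
    have h2 : Primrec (fun z : α × (ℕ × ℕ) => z.2.2) := Primrec.snd.comp Primrec.snd
    have hS' : Primrec (fun z : α × (ℕ × ℕ) => S z.1) := hS.comp Primrec.fst
    refine Primrec.ite (Primrec.eq.comp h1 h2) Primrec.snd ?_
    refine Primrec.ite (Primrec.nat_lt.comp h1 h2) (h1.pair (pr_loL hS' h2)) ?_
    exact Primrec.ite (Primrec.eq.comp h1 (Primrec.const 1)) Primrec.snd
      ((pr_hiL hS' h1).pair h2)
  have h3 : PrimrecPred (fun a => ((stp (loL (S a)) (hiL (S a)))^[x a + y a] (x a, y a)).1 =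
      ((stp (loL (S a)) (hiL (S a)))^[x a + y a] (x a, y a)).2) :=
    Primrec.eq.comp (Primrec.fst.comp hit) (Primrec.snd.comp hit)
  exact h3.decide.of_eq fun a => (leF_iter _ _ _ _ _).symm

theorem pr_lstP {p : α → ℕ → Bool} {m : α → ℕ} (hp : Primrec₂ p) (hm : Primrec m) :
    Primrec (fun a => lstP (p a) (m a)) := by
  have h1 : Primrec (fun a => Nat.rec (motive := fun _ => Option ℕ) none
      (fun t IH => bif p a t then some t else IH) (m a)) := by
    refine Primrec.nat_rec' (h := fun a (q : ℕ × Option ℕ) => bif p a q.1 then some q.1 else q.2)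
      hm (Primrec.const none) ?_
    exact Primrec.cond (hp.comp Primrec.fst (Primrec.fst.comp Primrec.snd))
      (Primrec.option_some.comp (Primrec.fst.comp Primrec.snd)) (Primrec.snd.comp Primrec.snd)
  refine h1.of_eq fun a => ?_
  induction m a with
  | zero => rfl
  | succ k ih => rw [lstP, ← ih]

theorem pr_fstP {p : α → ℕ → Bool} {m : α → ℕ} (hp : Primrec₂ p) (hm : Primrec m) :
    Primrec (fun a => fstP (p a) (m a)) := by
  have h1 : Primrec (fun a => Nat.rec (motive := fun _ => Option ℕ) none
      (fun t IH => Option.casesOn (motive := fun _ => Option ℕ) IH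
        (bif p a t then some t else none) (fun u => some u)) (m a)) := by
    refine Primrec.nat_rec' (h := fun a (q : ℕ × Option ℕ) =>
      Option.casesOn (motive := fun _ => Option ℕ) q.2
        (bif p a q.1 then some q.1 else none) (fun u => some u)) hm (Primrec.const none) ?_
    refine Primrec.option_casesOn (o := fun z : α × (ℕ × Option ℕ) => z.2.2)
      (f := fun z : α × (ℕ × Option ℕ) => bif p z.1 z.2.1 then some z.2.1 else none)
      (g := fun (_ : α × (ℕ × Option ℕ)) (u : ℕ) => some u)
      (Primrec.snd.comp Primrec.snd) ?_ (Primrec.option_some.comp Primrec.snd)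
    exact Primrec.cond (hp.comp Primrec.fst (Primrec.fst.comp Primrec.snd))
      (Primrec.option_some.comp (Primrec.fst.comp Primrec.snd)) (Primrec.const none)
  refine h1.of_eq fun a => ?_
  induction m a with
  | zero => rfl
  | succ k ih =>
    rw [fstP]
    change Option.rec (motive := fun _ => Option ℕ) (bif p a k then some k else none)
      (fun u => some u) (Nat.rec (motive := fun _ => Option ℕ) none
      (fun t IH => Option.rec (motive := fun _ => Option ℕ)
        (bif p a t then some t else none) (fun u => some u) IH) k) = _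
    rw [ih]
    cases fstP (p a) k <;> rfl

theorem pr_cntP {p : α → ℕ → Bool} {m : α → ℕ} (hp : Primrec₂ p) (hm : Primrec m) :
    Primrec (fun a => cntP (p a) (m a)) := by
  have h1 : Primrec (fun a => Nat.rec (motive := fun _ => ℕ) 0
      (fun t IH => IH + bif p a t then 1 else 0) (m a)) := by
    refine Primrec.nat_rec' (h := fun a (q : ℕ × ℕ) => q.2 + bif p a q.1 then 1 else 0)
      hm (Primrec.const 0) ?_
    exact Primrec.nat_add.comp (Primrec.snd.comp Primrec.snd)
      (Primrec.cond (hp.comp Primrec.fst (Primrec.fst.comp Primrec.snd))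
      (Primrec.const 1) (Primrec.const 0))
  refine h1.of_eq fun a => ?_
  induction m a with
  | zero => rfl
  | succ k ih => rw [cntP, ← ih]

theorem any_eq (p : ℕ → Bool) (s : ℕ) : (List.range s).any p = (lstP p s).isSome := by
  cases h : lstP p s with
  | some t =>
    obtain ⟨h1, h2, _⟩ := lstP_some h
    exact List.any_eq_true.2 ⟨t, List.mem_range.2 h1, h2⟩
  | none =>
    have := lstP_none h
    rw [Option.isSome_none, List.any_eq_false]
    intro x hx
    rw [this x (List.mem_range.1 hx)]; simp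

variable {G : ℕ → ℕ → ℕ → ℕ → Bool} {N : ℕ → ℕ}
  (hG : Primrec (fun q : ℕ × ℕ × ℕ × ℕ => G q.1 q.2.1 q.2.2.1 q.2.2.2)) (hN : Primrec N)

include hG in
theorem pr_G {i x y s : α → ℕ} (hi : Primrec i) (hx : Primrec x) (hy : Primrec y)
    (hs : Primrec s) : Primrec (fun a => G (i a) (x a) (y a) (s a)) :=
  (hG.comp (hi.pair (hx.pair (hy.pair hs))) :)

include hG in
theorem pr_ori {i s x y : α → ℕ} (hi : Primrec i) (hs : Primrec s) (hx : Primrec x)
    (hy : Primrec y) : Primrec (fun a => ori (G (i a)) (s a) (x a) (y a)) := by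
  unfold ori
  exact Primrec.ite (Primrec.nat_lt.comp hx hy) (pr_G hG hi hx hy hs)
    (Primrec.not.comp (pr_G hG hi hy hx hs))

include hG hN in
theorem pr_flipE {i s t : α → ℕ} {S : α → List Rec} (hi : Primrec i) (hS : Primrec S)
    (hs : Primrec s) (ht : Primrec t) :
    Primrec (fun a => flipE (N (i a)) (G (i a)) (S a) (s a) (t a)) := by
  unfold flipE
  have hg := pr_gt hS ht
  refine Primrec.and.comp (Primrec.nat_le.comp (pr_sR hg) (Primrec.const 2)).decide ?_
  exact Primrec.and.comp (Primrec.nat_lt.comp (pr_kR hg) (hN.comp hi)).decide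
    (Primrec.not.comp (pr_ori hG hi hs (pr_aR hg) (pr_bR hg)))

theorem pr_cvg {s e r q : α → ℕ} {S : α → List Rec} (hS : Primrec S) (hs : Primrec s)
    (he : Primrec e) (hr : Primrec r) (hq : Primrec q) :
    Primrec (fun a => cvg (S a) (s a) (e a) (r a) (q a)) := by
  have h1 : Primrec (fun a => Option.casesOn (motive := fun _ => Bool)
      (Code.evaln (s a) (Denumerable.ofNat Code (e a)) (q a)) false
      (fun v => decide (v < 3 * s a + 2) && le (loL (S a)) (hiL (S a)) v (r a))) := by
    refine Primrec.option_casesOn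
      (o := fun a => Code.evaln (s a) (Denumerable.ofNat Code (e a)) (q a))
      (f := fun _ => false)
      (g := fun a v => decide (v < 3 * s a + 2) && le (loL (S a)) (hiL (S a)) v (r a))
      ?_ (Primrec.const false) ?_
    · exact Code.primrec_evaln.comp ((hs.pair ((Primrec.ofNat Code).comp he)).pair hq)
    · refine Primrec.and.comp (Primrec.nat_lt.comp Primrec.snd (Primrec.nat_add.comp
        (Primrec.nat_mul.comp (Primrec.const 3) (hs.comp Primrec.fst)) (Primrec.const 2))).decide ?_
      exact pr_le (hS.comp Primrec.fst) Primrec.snd (hr.comp Primrec.fst)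
  refine h1.of_eq fun a => ?_
  unfold cvg
  cases Code.evaln (s a) (Denumerable.ofNat Code (e a)) (q a) <;> rfl

theorem pr_Z {t : α → ℕ} (c : ℕ) (ht : Primrec t) : Primrec (fun a => 3 * t a + c) :=
  Primrec.nat_add.comp (Primrec.nat_mul.comp (Primrec.const 3) ht) (Primrec.const c)

theorem pr_jumpE {s t : α → ℕ} {S : α → List Rec} (hS : Primrec S)
    (hs : Primrec s) (ht : Primrec t) :
    Primrec (fun a => jumpE (S a) (s a) (t a)) := by
  unfold jumpE
  have hg := pr_gt hS ht
  refine Primrec.and.comp (Primrec.eq.comp (pr_sR hg) (Primrec.const 0)).decide ?_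
  have h1 : Primrec (fun a => (lstP (fun q => cvg (S a) (s a) (eR (gt (S a) (t a)))
      (3 * t a + 4) q) (s a)).isSome) := by
    refine Primrec.option_isSome.comp (pr_lstP (p := fun a q =>
      cvg (S a) (s a) (eR (gt (S a) (t a))) (3 * t a + 4) q) ?_ hs)
    exact pr_cvg (hS.comp Primrec.fst) (hs.comp Primrec.fst) ((pr_eR hg).comp Primrec.fst)
      ((pr_Z 4 ht).comp Primrec.fst) Primrec.snd
  exact h1.of_eq fun a => (any_eq _ _).symm

include hG hN in
theorem pr_actE {i s : α → ℕ} {S : α → List Rec} (hi : Primrec i) (hS : Primrec S)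
    (hs : Primrec s) :
    Primrec (fun a => actE (N (i a)) (G (i a)) (S a) (s a)) := by
  unfold actE
  refine pr_fstP (p := fun a t => flipE (N (i a)) (G (i a)) (S a) (s a) t || jumpE (S a) (s a) t)
    ?_ hs
  exact Primrec.or.comp (pr_flipE hG hN (hi.comp Primrec.fst) (hS.comp Primrec.fst)
    (hs.comp Primrec.fst) Primrec.snd)
    (pr_jumpE (hS.comp Primrec.fst) (hs.comp Primrec.fst) Primrec.snd)

include hG hN in
theorem pr_newSt {i s t : α → ℕ} {S : α → List Rec} (hi : Primrec i) (hS : Primrec S)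
    (hs : Primrec s) (ht : Primrec t) :
    Primrec (fun a => newSt (N (i a)) (G (i a)) (S a) (s a) (t a)) := by
  have h1 : Primrec (fun a => Option.casesOn (motive := fun _ => ℕ)
      (actE (N (i a)) (G (i a)) (S a) (s a)) (sR (gt (S a) (t a)))
      (fun u => if flipE (N (i a)) (G (i a)) (S a) (s a) u = true then
          (if kR (gt (S a) (t a)) ≤ kR (gt (S a) u) then 3 else sR (gt (S a) (t a)))
        else if kR (gt (S a) (t a)) < kR (gt (S a) u) then 3 else if (t a) = u then 1
        else if u < (t a) ∧ kR (gt (S a) (t a)) = kR (gt (S a) u) ∧ sR (gt (S a) (t a)) ≤ 2 then 2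
        else sR (gt (S a) (t a)))) := by
    refine Primrec.option_casesOn
      (o := fun a => actE (N (i a)) (G (i a)) (S a) (s a))
      (f := fun a => sR (gt (S a) (t a)))
      (g := fun a u => if flipE (N (i a)) (G (i a)) (S a) (s a) u = true then
          (if kR (gt (S a) (t a)) ≤ kR (gt (S a) u) then 3 else sR (gt (S a) (t a)))
        else if kR (gt (S a) (t a)) < kR (gt (S a) u) then 3 else if (t a) = u then 1
        else if u < (t a) ∧ kR (gt (S a) (t a)) = kR (gt (S a) u) ∧ sR (gt (S a) (t a)) ≤ 2 then 2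
        else sR (gt (S a) (t a)))
      (pr_actE hG hN hi hS hs) (pr_sR (pr_gt hS ht)) ?_
    have hS' : Primrec (fun z : α × ℕ => S z.1) := hS.comp Primrec.fst
    have ht' : Primrec (fun z : α × ℕ => t z.1) := ht.comp Primrec.fst
    have hu : Primrec (fun z : α × ℕ => z.2) := Primrec.snd
    have hs' : Primrec (fun z : α × ℕ => s z.1) := hs.comp Primrec.fst
    have hi' : Primrec (fun z : α × ℕ => i z.1) := hi.comp Primrec.fst
    have hkt := pr_kR (pr_gt hS' ht')
    have hku := pr_kR (pr_gt hS' hu)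
    have hst := pr_sR (pr_gt hS' ht')
    refine Primrec.ite (pr_eqTrue (pr_flipE hG hN hi' hS' hs' hu))
      (Primrec.ite (Primrec.nat_le.comp hkt hku) (Primrec.const 3) hst) ?_
    refine Primrec.ite (Primrec.nat_lt.comp hkt hku) (Primrec.const 3) ?_
    refine Primrec.ite (Primrec.eq.comp ht' hu) (Primrec.const 1) ?_
    refine Primrec.ite ?_ (Primrec.const 2) hst
    exact (Primrec.nat_lt.comp hu ht').and ((Primrec.eq.comp hkt hku).and
      (Primrec.nat_le.comp hst (Primrec.const 2)))
  refine h1.of_eq fun a => ?_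
  unfold newSt
  cases actE (N (i a)) (G (i a)) (S a) (s a) <;> rfl

include hG hN in
theorem pr_newK {i s : α → ℕ} {S : α → List Rec} (hi : Primrec i) (hS : Primrec S)
    (hs : Primrec s) : Primrec (fun a => newK (N (i a)) (G (i a)) (S a) (s a)) := by
  have h1 : Primrec (fun a => Option.casesOn (motive := fun _ => ℕ)
      (actE (N (i a)) (G (i a)) (S a) (s a)) 0
      (fun u => if flipE (N (i a)) (G (i a)) (S a) (s a) u = true then kR (gt (S a) u) + 1
        else 0)) := by
    refine Primrec.option_casesOn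
      (o := fun a => actE (N (i a)) (G (i a)) (S a) (s a))
      (f := fun _ => 0)
      (g := fun a u => if flipE (N (i a)) (G (i a)) (S a) (s a) u = true then
        kR (gt (S a) u) + 1 else 0)
      (pr_actE hG hN hi hS hs) (Primrec.const 0) ?_
    have hS' : Primrec (fun z : α × ℕ => S z.1) := hS.comp Primrec.fst
    exact Primrec.ite (pr_eqTrue (pr_flipE hG hN (hi.comp Primrec.fst) hS' (hs.comp Primrec.fst)
      Primrec.snd)) (Primrec.succ.comp (pr_kR (pr_gt hS' Primrec.snd))) (Primrec.const 0)
  refine h1.of_eq fun a => ?_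
  unfold newK
  cases actE (N (i a)) (G (i a)) (S a) (s a) <;> rfl

include hG in
theorem pr_or0 {i s : α → ℕ} (hi : Primrec i) (hs : Primrec s) :
    PrimrecPred (fun a => G (i a) (3 * s a + 2) (3 * s a + 3) (s a) = true) :=
  pr_eqTrue (pr_G hG hi (pr_Z 2 hs) (pr_Z 3 hs) hs)

include hG hN in
theorem pr_newA {i s : α → ℕ} {S : α → List Rec} (hi : Primrec i) (hS : Primrec S)
    (hs : Primrec s) : Primrec (fun a => newA (N (i a)) (G (i a)) (S a) (s a)) := by
  have h0 : Primrec (fun a => if G (i a) (3 * s a + 2) (3 * s a + 3) (s a) = true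
      then 3 * s a + 2 else 3 * s a + 3) := Primrec.ite (pr_or0 hG hi hs) (pr_Z 2 hs) (pr_Z 3 hs)
  have h1 : Primrec (fun a => Option.casesOn (motive := fun _ => ℕ)
      (actE (N (i a)) (G (i a)) (S a) (s a))
      (if G (i a) (3 * s a + 2) (3 * s a + 3) (s a) = true then 3 * s a + 2 else 3 * s a + 3)
      (fun u => if flipE (N (i a)) (G (i a)) (S a) (s a) u = true then bR (gt (S a) u)
        else if G (i a) (3 * s a + 2) (3 * s a + 3) (s a) = true
          then 3 * s a + 2 else 3 * s a + 3)) := by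
    refine Primrec.option_casesOn
      (o := fun a => actE (N (i a)) (G (i a)) (S a) (s a))
      (f := fun a => if G (i a) (3 * s a + 2) (3 * s a + 3) (s a) = true
        then 3 * s a + 2 else 3 * s a + 3)
      (g := fun a u => if flipE (N (i a)) (G (i a)) (S a) (s a) u = true then bR (gt (S a) u)
        else if G (i a) (3 * s a + 2) (3 * s a + 3) (s a) = true
          then 3 * s a + 2 else 3 * s a + 3)
      (pr_actE hG hN hi hS hs) h0 ?_
    have hS' : Primrec (fun z : α × ℕ => S z.1) := hS.comp Primrec.fst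
    exact Primrec.ite (pr_eqTrue (pr_flipE hG hN (hi.comp Primrec.fst) hS' (hs.comp Primrec.fst)
      Primrec.snd)) (pr_bR (pr_gt hS' Primrec.snd)) (h0.comp Primrec.fst)
  refine h1.of_eq fun a => ?_
  unfold newA
  cases actE (N (i a)) (G (i a)) (S a) (s a) <;> rfl

include hG hN in
theorem pr_newB {i s : α → ℕ} {S : α → List Rec} (hi : Primrec i) (hS : Primrec S)
    (hs : Primrec s) : Primrec (fun a => newB (N (i a)) (G (i a)) (S a) (s a)) := by
  have h0 : Primrec (fun a => if G (i a) (3 * s a + 2) (3 * s a + 3) (s a) = true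
      then 3 * s a + 3 else 3 * s a + 2) := Primrec.ite (pr_or0 hG hi hs) (pr_Z 3 hs) (pr_Z 2 hs)
  have h1 : Primrec (fun a => Option.casesOn (motive := fun _ => ℕ)
      (actE (N (i a)) (G (i a)) (S a) (s a))
      (if G (i a) (3 * s a + 2) (3 * s a + 3) (s a) = true then 3 * s a + 3 else 3 * s a + 2)
      (fun u => if flipE (N (i a)) (G (i a)) (S a) (s a) u = true then aR (gt (S a) u)
        else if G (i a) (3 * s a + 2) (3 * s a + 3) (s a) = true
          then 3 * s a + 3 else 3 * s a + 2)) := by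
    refine Primrec.option_casesOn
      (o := fun a => actE (N (i a)) (G (i a)) (S a) (s a))
      (f := fun a => if G (i a) (3 * s a + 2) (3 * s a + 3) (s a) = true
        then 3 * s a + 3 else 3 * s a + 2)
      (g := fun a u => if flipE (N (i a)) (G (i a)) (S a) (s a) u = true then aR (gt (S a) u)
        else if G (i a) (3 * s a + 2) (3 * s a + 3) (s a) = true
          then 3 * s a + 3 else 3 * s a + 2)
      (pr_actE hG hN hi hS hs) h0 ?_
    have hS' : Primrec (fun z : α × ℕ => S z.1) := hS.comp Primrec.fst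
    exact Primrec.ite (pr_eqTrue (pr_flipE hG hN (hi.comp Primrec.fst) hS' (hs.comp Primrec.fst)
      Primrec.snd)) (pr_aR (pr_gt hS' Primrec.snd)) (h0.comp Primrec.fst)
  refine h1.of_eq fun a => ?_
  unfold newB
  cases actE (N (i a)) (G (i a)) (S a) (s a) <;> rfl

include hG hN in
theorem pr_newE {i s : α → ℕ} {S : α → List Rec} (hi : Primrec i) (hS : Primrec S)
    (hs : Primrec s) : Primrec (fun a => newE (N (i a)) (G (i a)) (S a) (s a)) := by
  unfold newE
  refine pr_cntP (p := fun a t => decide (newSt (N (i a)) (G (i a)) (S a) (s a) t ≤ 1) &&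
    decide (kR (gt (S a) t) = newK (N (i a)) (G (i a)) (S a) (s a))) ?_ hs
  have hS' : Primrec (fun z : α × ℕ => S z.1) := hS.comp Primrec.fst
  have hs' : Primrec (fun z : α × ℕ => s z.1) := hs.comp Primrec.fst
  have hi' : Primrec (fun z : α × ℕ => i z.1) := hi.comp Primrec.fst
  exact Primrec.and.comp (Primrec.nat_le.comp (pr_newSt hG hN hi' hS' hs' Primrec.snd)
    (Primrec.const 1)).decide
    (Primrec.eq.comp (pr_kR (pr_gt hS' Primrec.snd)) (pr_newK hG hN hi' hS' hs')).decide

include hG hN in
theorem pr_newLo {i s : α → ℕ} {S : α → List Rec} (hi : Primrec i) (hS : Primrec S)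
    (hs : Primrec s) : Primrec (fun a => newLo (N (i a)) (G (i a)) (S a) (s a)) := by
  have hl : Primrec (fun a => lstP (fun t =>
      decide (newSt (N (i a)) (G (i a)) (S a) (s a) t = 0)) (s a)) := by
    refine pr_lstP (p := fun a t => decide (newSt (N (i a)) (G (i a)) (S a) (s a) t = 0)) ?_ hs
    exact (Primrec.eq.comp (pr_newSt hG hN (hi.comp Primrec.fst) (hS.comp Primrec.fst)
      (hs.comp Primrec.fst) Primrec.snd) (Primrec.const 0)).decide
  have h1 : Primrec (fun a => Option.casesOn (motive := fun _ => ℕ) (lstP (fun t =>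
      decide (newSt (N (i a)) (G (i a)) (S a) (s a) t = 0)) (s a)) 0
      (fun t => bR (gt (S a) t))) := by
    refine Primrec.option_casesOn
      (o := fun a => lstP (fun t => decide (newSt (N (i a)) (G (i a)) (S a) (s a) t = 0)) (s a))
      (f := fun _ => 0) (g := fun a t => bR (gt (S a) t)) hl (Primrec.const 0) ?_
    exact pr_bR (pr_gt (hS.comp Primrec.fst) Primrec.snd)
  refine h1.of_eq fun a => ?_
  unfold newLo
  cases lstP (fun t => decide (newSt (N (i a)) (G (i a)) (S a) (s a) t = 0)) (s a) <;> rfl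

include hG hN in
theorem pr_newUp {i s : α → ℕ} {S : α → List Rec} (hi : Primrec i) (hS : Primrec S)
    (hs : Primrec s) : Primrec (fun a => newUp (N (i a)) (G (i a)) (S a) (s a)) := by
  have hl : Primrec (fun a => lstP (fun t =>
      decide (newSt (N (i a)) (G (i a)) (S a) (s a) t ≤ 1)) (s a)) := by
    refine pr_lstP (p := fun a t => decide (newSt (N (i a)) (G (i a)) (S a) (s a) t ≤ 1)) ?_ hs
    exact (Primrec.nat_le.comp (pr_newSt hG hN (hi.comp Primrec.fst) (hS.comp Primrec.fst)
      (hs.comp Primrec.fst) Primrec.snd) (Primrec.const 1)).decide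
  have h1 : Primrec (fun a => Option.casesOn (motive := fun _ => ℕ) (lstP (fun t =>
      decide (newSt (N (i a)) (G (i a)) (S a) (s a) t ≤ 1)) (s a)) 1
      (fun t => if newSt (N (i a)) (G (i a)) (S a) (s a) t = 0 then 3 * t + 4
        else aR (gt (S a) t))) := by
    refine Primrec.option_casesOn
      (o := fun a => lstP (fun t => decide (newSt (N (i a)) (G (i a)) (S a) (s a) t ≤ 1)) (s a))
      (f := fun _ => 1) (g := fun a t => if newSt (N (i a)) (G (i a)) (S a) (s a) t = 0
        then 3 * t + 4 else aR (gt (S a) t)) hl (Primrec.const 1) ?_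
    refine Primrec.ite (Primrec.eq.comp (pr_newSt hG hN (hi.comp Primrec.fst)
      (hS.comp Primrec.fst) (hs.comp Primrec.fst) Primrec.snd) (Primrec.const 0))
      (pr_Z 4 Primrec.snd) (pr_aR (pr_gt (hS.comp Primrec.fst) Primrec.snd))
  refine h1.of_eq fun a => ?_
  unfold newUp
  cases lstP (fun t => decide (newSt (N (i a)) (G (i a)) (S a) (s a) t ≤ 1)) (s a) <;> rfl

include hG hN in
theorem pr_next {i s : α → ℕ} {S : α → List Rec} (hi : Primrec i) (hS : Primrec S)
    (hs : Primrec s) : Primrec (fun a => next (N (i a)) (G (i a)) (S a) (s a)) := by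
  unfold next
  refine Primrec.list_append.comp ?_ ?_
  · refine Primrec.list_map (g := fun a t => setS (gt (S a) t)
      (newSt (N (i a)) (G (i a)) (S a) (s a) t)) (Primrec.list_range.comp hs) ?_
    have hg : Primrec (fun z : α × ℕ => gt (S z.1) z.2) := pr_gt (hS.comp Primrec.fst) Primrec.snd
    have hn : Primrec (fun z : α × ℕ => newSt (N (i z.1)) (G (i z.1)) (S z.1) (s z.1) z.2) :=
      pr_newSt hG hN (hi.comp Primrec.fst) (hS.comp Primrec.fst) (hs.comp Primrec.fst) Primrec.snd
    unfold setS
    exact (pr_kR hg).pair ((pr_aR hg).pair ((pr_bR hg).pair ((pr_eR hg).pair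
      ((pr_lR hg).pair ((pr_uR hg).pair hn)))))
  · refine Primrec.list_cons.comp ?_ (Primrec.const [])
    exact (pr_newK hG hN hi hS hs).pair ((pr_newA hG hN hi hS hs).pair
      ((pr_newB hG hN hi hS hs).pair ((pr_newE hG hN hi hS hs).pair
      ((pr_newLo hG hN hi hS hs).pair ((pr_newUp hG hN hi hS hs).pair (Primrec.const 0))))))

include hG hN in
theorem pr_St {i s : α → ℕ} (hi : Primrec i) (hs : Primrec s) :
    Primrec (fun a => St (N (i a)) (G (i a)) (s a)) := by
  have h1 : Primrec (fun a => Nat.rec (motive := fun _ => List Rec) []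
      (fun t IH => next (N (i a)) (G (i a)) IH t) (s a)) := by
    refine Primrec.nat_rec' (h := fun a (q : ℕ × List Rec) => next (N (i a)) (G (i a)) q.2 q.1)
      hs (Primrec.const []) ?_
    exact pr_next hG hN (hi.comp Primrec.fst) (Primrec.snd.comp Primrec.snd)
      (Primrec.fst.comp Primrec.snd)
  refine h1.of_eq fun a => ?_
  induction s a with
  | zero => rfl
  | succ k ih => rw [St, ← ih]

include hG hN in
theorem pr_Le {i x y : α → ℕ} (hi : Primrec i) (hx : Primrec x) (hy : Primrec y) :
    Primrec (fun a => Le (N (i a)) (G (i a)) (x a) (y a)) := by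
  have h1 := pr_le (pr_St hG hN hi (Primrec.nat_add.comp hx hy)) hx hy
  refine h1.of_eq fun a => ?_
  exact le_stage (by omega) (by omega)

include hG hN in
theorem pr_K (i : ℕ) : Primrec (K (N i) (G i)) := by
  have h1 : Primrec (fun t : ℕ => newK (N i) (G i) (St (N i) (G i) t) t) :=
    pr_newK hG hN (i := fun _ : ℕ => i) (Primrec.const i)
      (pr_St hG hN (Primrec.const i) Primrec.id) Primrec.id
  exact h1

end Prim

end Low

/-! ### Total approximations and the final order -/

namespace Low

theorem all_lt {α : Type*} [Primcodable α] {R : ℕ → α → Prop} {f : α → ℕ} (hR : PrimrecRel R)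
    (hf : Primrec f) : PrimrecPred fun a => ∀ x < f a, R x a :=
  (hR.forall_mem_list.comp (Primrec.list_range.comp hf) Primrec.id).of_eq (by simp)

/-- the first `m` values of the approximation with index `c` have been computed by stage `s` -/
def okd (c x y s m : ℕ) : Prop :=
  ∀ t < m, (Code.evaln s (Denumerable.ofNat Code c) (Nat.pair x (Nat.pair y t))).isSome = true

instance (c x y s m : ℕ) : Decidable (okd c x y s m) := by unfold okd; infer_instance

def tau (c x y s : ℕ) : ℕ := Nat.findGreatest (okd c x y s) s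

/-- delayed total version of the approximation with index `c` -/
def Gd (c x y s : ℕ) : Bool :=
  if tau c x y s = 0 then false
  else decide (Code.evaln s (Denumerable.ofNat Code c)
    (Nat.pair x (Nat.pair y (tau c x y s - 1))) = some 1)

def G (i x y s : ℕ) : Bool := Gd i.unpair.1 (Nat.pair i x) (Nat.pair i y) s
def N (i : ℕ) : ℕ := i.unpair.2

theorem primrec_okd : PrimrecRel (fun (a : ℕ × ℕ × ℕ × ℕ) (m : ℕ) =>
    okd a.1 a.2.1 a.2.2.1 a.2.2.2 m) := by
  refine all_lt (α := (ℕ × ℕ × ℕ × ℕ) × ℕ) (R := fun t z =>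
    (Code.evaln z.1.2.2.2 (Denumerable.ofNat Code z.1.1)
      (Nat.pair z.1.2.1 (Nat.pair z.1.2.2.1 t))).isSome = true)
    (f := fun z => z.2) ?_ Primrec.snd
  have z1 : Primrec (fun w : ℕ × ((ℕ × ℕ × ℕ × ℕ) × ℕ) => w.2.1) := Primrec.fst.comp Primrec.snd
  have hc : Primrec (fun w : ℕ × ((ℕ × ℕ × ℕ × ℕ) × ℕ) => w.2.1.1) := Primrec.fst.comp z1
  have z2 : Primrec (fun w : ℕ × ((ℕ × ℕ × ℕ × ℕ) × ℕ) => w.2.1.2) := Primrec.snd.comp z1
  have hx : Primrec (fun w : ℕ × ((ℕ × ℕ × ℕ × ℕ) × ℕ) => w.2.1.2.1) := Primrec.fst.comp z2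
  have z3 : Primrec (fun w : ℕ × ((ℕ × ℕ × ℕ × ℕ) × ℕ) => w.2.1.2.2) := Primrec.snd.comp z2
  have hy : Primrec (fun w : ℕ × ((ℕ × ℕ × ℕ × ℕ) × ℕ) => w.2.1.2.2.1) := Primrec.fst.comp z3
  have hs : Primrec (fun w : ℕ × ((ℕ × ℕ × ℕ × ℕ) × ℕ) => w.2.1.2.2.2) := Primrec.snd.comp z3
  have h1 : Primrec (fun w : ℕ × ((ℕ × ℕ × ℕ × ℕ) × ℕ) =>
      (Code.evaln w.2.1.2.2.2 (Denumerable.ofNat Code w.2.1.1)
        (Nat.pair w.2.1.2.1 (Nat.pair w.2.1.2.2.1 w.1))).isSome) := by
    refine Primrec.option_isSome.comp ?_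
    exact Code.primrec_evaln.comp ((hs.pair ((Primrec.ofNat Code).comp hc)).pair
      (Primrec₂.natPair.comp hx (Primrec₂.natPair.comp hy Primrec.fst)))
  exact Primrec.eq.comp h1 (Primrec.const true)

theorem primrec_tau : Primrec (fun a : ℕ × ℕ × ℕ × ℕ => tau a.1 a.2.1 a.2.2.1 a.2.2.2) :=
  Primrec.nat_findGreatest (p := fun (a : ℕ × ℕ × ℕ × ℕ) m => okd a.1 a.2.1 a.2.2.1 a.2.2.2 m)
    (Primrec.snd.comp (Primrec.snd.comp Primrec.snd)) primrec_okd

theorem primrec_Gd : Primrec (fun a : ℕ × ℕ × ℕ × ℕ => Gd a.1 a.2.1 a.2.2.1 a.2.2.2) := by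
  unfold Gd
  refine Primrec.ite (Primrec.eq.comp primrec_tau (Primrec.const 0)) (Primrec.const false) ?_
  have h2 : Primrec (fun a : ℕ × ℕ × ℕ × ℕ => a.2) := Primrec.snd
  have hx : Primrec (fun a : ℕ × ℕ × ℕ × ℕ => a.2.1) := Primrec.fst.comp h2
  have h3 : Primrec (fun a : ℕ × ℕ × ℕ × ℕ => a.2.2) := Primrec.snd.comp h2
  have hy : Primrec (fun a : ℕ × ℕ × ℕ × ℕ => a.2.2.1) := Primrec.fst.comp h3
  have hs : Primrec (fun a : ℕ × ℕ × ℕ × ℕ => a.2.2.2) := Primrec.snd.comp h3
  have he : Primrec (fun a : ℕ × ℕ × ℕ × ℕ => Code.evaln a.2.2.2 (Denumerable.ofNat Code a.1)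
      (Nat.pair a.2.1 (Nat.pair a.2.2.1 (tau a.1 a.2.1 a.2.2.1 a.2.2.2 - 1)))) :=
    Code.primrec_evaln.comp ((hs.pair ((Primrec.ofNat Code).comp Primrec.fst)).pair
      (Primrec₂.natPair.comp hx (Primrec₂.natPair.comp hy
        (Primrec.nat_sub.comp primrec_tau (Primrec.const 1)))))
  exact (Primrec.eq.comp he (Primrec.const (some 1))).decide

theorem primrec_G : Primrec (fun q : ℕ × ℕ × ℕ × ℕ => G q.1 q.2.1 q.2.2.1 q.2.2.2) := by
  have h2 : Primrec (fun a : ℕ × ℕ × ℕ × ℕ => a.2) := Primrec.snd
  have hx : Primrec (fun a : ℕ × ℕ × ℕ × ℕ => a.2.1) := Primrec.fst.comp h2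
  have h3 : Primrec (fun a : ℕ × ℕ × ℕ × ℕ => a.2.2) := Primrec.snd.comp h2
  have hy : Primrec (fun a : ℕ × ℕ × ℕ × ℕ => a.2.2.1) := Primrec.fst.comp h3
  have hs : Primrec (fun a : ℕ × ℕ × ℕ × ℕ => a.2.2.2) := Primrec.snd.comp h3
  have hu : Primrec (fun a : ℕ × ℕ × ℕ × ℕ => a.1.unpair.1) :=
    Primrec.fst.comp (Primrec.unpair.comp Primrec.fst)
  have := primrec_Gd.comp (hu.pair ((Primrec₂.natPair.comp Primrec.fst hx).pair
    ((Primrec₂.natPair.comp Primrec.fst hy).pair hs)))
  exact this

theorem primrec_N : Primrec N := Primrec.snd.comp Primrec.unpair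

theorem exists_change' {F : ℕ → Bool} {t s : ℕ} (h : t ≤ s) (hne : F s ≠ F t) :
    ∃ u, t ≤ u ∧ u < s ∧ F (u + 1) ≠ F u := by
  by_contra hc
  push Not at hc
  apply hne
  clear hne
  induction s, h using Nat.le_induction with
  | base => rfl
  | succ s hs ih =>
    rw [hc s hs (by omega)]
    exact ih fun u h1 h2 => hc u h1 (by omega)

theorem mono_changes (F : ℕ → Bool) {τ : ℕ → ℕ} (hτ : Monotone τ) :
    {s | F (τ (s + 1)) ≠ F (τ s)}.encard ≤ {t | F (t + 1) ≠ F t}.encard := by
  classical
  have hex : ∀ s, F (τ (s + 1)) ≠ F (τ s) → ∃ u, τ s ≤ u ∧ u < τ (s + 1) ∧ F (u + 1) ≠ F u :=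
    fun s hs => exists_change' (hτ (Nat.le_succ s)) hs
  set φ : ℕ → ℕ := fun s => if h : F (τ (s + 1)) ≠ F (τ s) then Classical.choose (hex s h) else 0
    with hφ
  have hspec : ∀ s, F (τ (s + 1)) ≠ F (τ s) →
      τ s ≤ φ s ∧ φ s < τ (s + 1) ∧ F (φ s + 1) ≠ F (φ s) := by
    intro s hs
    have := Classical.choose_spec (hex s hs)
    rw [hφ]
    simp only [dif_pos hs]
    exact this
  refine Set.encard_le_encard_of_injOn (f := φ) (fun s hs => (hspec s hs).2.2) ?_
  have key : ∀ s s', F (τ (s + 1)) ≠ F (τ s) → F (τ (s' + 1)) ≠ F (τ s') → s < s' →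
      φ s ≠ φ s' := by
    intro s s' hs hs' hlt he
    have h1 := (hspec s hs).2.1
    have h2 := (hspec s' hs').1
    have h3 := hτ (show s + 1 ≤ s' from hlt)
    omega
  intro s hs s' hs' he
  rcases lt_trichotomy s s' with h | h | h
  · exact absurd he (key s s' hs hs' h)
  · exact h
  · exact absurd he.symm (key s' s hs' hs h)

theorem okd_mono {c x y s s' m : ℕ} (hs : s ≤ s') (h : okd c x y s m) : okd c x y s' m := by
  intro t ht
  obtain ⟨v, hv⟩ := Option.isSome_iff_exists.1 (h t ht)
  exact Option.isSome_iff_exists.2 ⟨v, Code.evaln_mono hs hv⟩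

theorem tau_mono (c x y : ℕ) : Monotone (tau c x y) := by
  intro s s' hs
  unfold tau
  rcases Nat.eq_zero_or_pos (Nat.findGreatest (okd c x y s) s) with h0 | h0
  · rw [h0]; exact Nat.zero_le _
  · refine Nat.le_findGreatest ((Nat.findGreatest_le s).trans hs) ?_
    exact okd_mono hs (Nat.findGreatest_of_ne_zero rfl (by omega))

section Delay

variable {c : ℕ} {g : ℕ → ℕ → ℕ → Bool}
  (hc : ∀ z, Code.eval (Denumerable.ofNat Code c) z =
    Part.some (g z.unpair.1 z.unpair.2.unpair.1 z.unpair.2.unpair.2).toNat)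

include hc in
theorem evaln_val {s x y t v : ℕ}
    (h : Code.evaln s (Denumerable.ofNat Code c) (Nat.pair x (Nat.pair y t)) = some v) :
    v = (g x y t).toNat := by
  have h1 := Code.evaln_sound h
  rw [hc] at h1
  simp only [Nat.unpair_pair] at h1
  exact Part.mem_some_iff.1 h1

/-- the approximation preceded by the value `false` -/
def pre (F : ℕ → Bool) : ℕ → Bool
  | 0 => false
  | t + 1 => F t

include hc in
theorem Gd_eq (x y s : ℕ) : Gd c x y s = pre (g x y) (tau c x y s) := by
  unfold Gd
  by_cases h0 : tau c x y s = 0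
  · rw [if_pos h0, h0]; rfl
  · rw [if_neg h0]
    obtain ⟨m, hm⟩ := Nat.exists_eq_succ_of_ne_zero h0
    have hok : okd c x y s (tau c x y s) := by
      unfold tau
      refine Nat.findGreatest_of_ne_zero rfl ?_
      exact h0
    have h1 := hok m (by omega)
    obtain ⟨v, hv⟩ := Option.isSome_iff_exists.1 h1
    have hv' := evaln_val hc hv
    rw [hm]
    simp only [Nat.succ_eq_add_one, Nat.add_sub_cancel]
    rw [hv, hv']
    show _ = g x y m
    cases g x y m <;> simp

include hc in
theorem tau_unbounded (x y T : ℕ) : ∃ s₀, ∀ s ≥ s₀, T ≤ tau c x y s := by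
  have : ∃ s₀, okd c x y s₀ T := by
    induction T with
    | zero => exact ⟨0, fun t ht => by omega⟩
    | succ T ih =>
      obtain ⟨a, ha⟩ := ih
      have hm : (g x y T).toNat ∈ Code.eval (Denumerable.ofNat Code c)
          (Nat.pair x (Nat.pair y T)) := by
        rw [hc]; simp only [Nat.unpair_pair]; exact Part.mem_some _
      obtain ⟨b, hb⟩ := Code.evaln_complete.1 hm
      refine ⟨max a b, fun t ht => ?_⟩
      rcases Nat.lt_or_ge t T with h | h
      · exact okd_mono (le_max_left a b) ha t h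
      · obtain rfl : t = T := by omega
        exact Option.isSome_iff_exists.2 ⟨_, Code.evaln_mono (le_max_right a b) hb⟩
  obtain ⟨s₀, h⟩ := this
  refine ⟨max s₀ T, fun s hs => ?_⟩
  unfold tau
  exact Nat.le_findGreatest ((le_max_right _ _).trans hs)
    (okd_mono ((le_max_left _ _).trans hs) h)

include hc in
theorem Gd_lim {x y : ℕ} {Q : Prop} (h : ∃ s₀, ∀ s ≥ s₀, (g x y s = true ↔ Q)) :
    ∃ s₀, ∀ s ≥ s₀, (Gd c x y s = true ↔ Q) := by
  obtain ⟨t₀, ht₀⟩ := h
  obtain ⟨s₀, hs₀⟩ := tau_unbounded hc x y (t₀ + 1)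
  refine ⟨s₀, fun s hs => ?_⟩
  rw [Gd_eq hc]
  obtain ⟨m, hm⟩ := Nat.exists_eq_succ_of_ne_zero
    (show tau c x y s ≠ 0 by have := hs₀ s hs; omega)
  rw [hm]
  show g x y m = true ↔ Q
  exact ht₀ m (by have := hs₀ s hs; omega)

theorem pre_changes (F : ℕ → Bool) :
    {t | pre F (t + 1) ≠ pre F t}.encard ≤ {t | F (t + 1) ≠ F t}.encard + 1 := by
  have hsub : {t | pre F (t + 1) ≠ pre F t} ⊆
      insert 0 ((fun t => t + 1) '' {t | F (t + 1) ≠ F t}) := by
    intro t ht
    cases t with
    | zero => exact Set.mem_insert _ _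
    | succ t => exact Set.mem_insert_of_mem _ ⟨t, ht, rfl⟩
  exact (Set.encard_le_encard hsub).trans ((Set.encard_insert_le _ _).trans
    (add_le_add (Set.encard_image_le _ _) le_rfl))

include hc in
theorem Gd_changes {n x y : ℕ} (h : {s | g x y (s + 1) ≠ g x y s}.encard ≤ n) :
    {s | Gd c x y (s + 1) ≠ Gd c x y s}.encard ≤ ((n + 1 : ℕ) : ℕ∞) := by
  have e : {s | Gd c x y (s + 1) ≠ Gd c x y s} =
      {s | pre (g x y) (tau c x y (s + 1)) ≠ pre (g x y) (tau c x y s)} := by
    ext s
    show _ ≠ _ ↔ _ ≠ _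
    rw [Gd_eq hc, Gd_eq hc]
  rw [e]
  refine (mono_changes (pre (g x y)) (tau_mono c x y)).trans ((pre_changes _).trans ?_)
  push_cast
  gcongr

end Delay

/-- the poset: disjoint union of all the orders of the construction -/
def Pos (x y : ℕ) : Prop :=
  x.unpair.1 = y.unpair.1 ∧ Le (N x.unpair.1) (G x.unpair.1) x.unpair.2 y.unpair.2 = true

instance (x y : ℕ) : Decidable (Pos x y) := by unfold Pos; infer_instance

theorem Pos_pair {i x y : ℕ} : Pos (Nat.pair i x) (Nat.pair i y) ↔ Le (N i) (G i) x y = true := by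
  unfold Pos
  simp only [Nat.unpair_pair, true_and]

theorem Pos_poset : ComputablePoset Pos := by
  refine ⟨fun x => ⟨rfl, Le_self _⟩, ?_, ?_, ?_⟩
  · rintro x y z ⟨h1, h2⟩ ⟨h3, h4⟩
    refine ⟨h1.trans h3, ?_⟩
    rw [← h1] at h4
    exact Le_trans h2 h4
  · rintro x y ⟨h1, h2⟩ ⟨_, h4⟩
    rw [← h1] at h4
    have := Le_antisymm h2 h4
    rw [← Nat.pair_unpair x, ← Nat.pair_unpair y, h1, this]
  · refine ⟨fun _ => inferInstance, ?_⟩
    have u1 : Primrec (fun p : ℕ × ℕ => p.1.unpair.1) :=
      Primrec.fst.comp (Primrec.unpair.comp Primrec.fst)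
    have u2 : Primrec (fun p : ℕ × ℕ => p.1.unpair.2) :=
      Primrec.snd.comp (Primrec.unpair.comp Primrec.fst)
    have v1 : Primrec (fun p : ℕ × ℕ => p.2.unpair.1) :=
      Primrec.fst.comp (Primrec.unpair.comp Primrec.snd)
    have v2 : Primrec (fun p : ℕ × ℕ => p.2.unpair.2) :=
      Primrec.snd.comp (Primrec.unpair.comp Primrec.snd)
    have h1 : Primrec (fun p : ℕ × ℕ => decide (p.1.unpair.1 = p.2.unpair.1) &&
        Le (N p.1.unpair.1) (G p.1.unpair.1) p.1.unpair.2 p.2.unpair.2) :=
      Primrec.and.comp (Primrec.eq.comp u1 v1).decide (pr_Le primrec_G primrec_N u1 u2 v2)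
    refine (h1.of_eq fun p => ?_).to_comp
    unfold Pos
    simp

theorem Pos_wf : CompWF Pos := by
  rintro ⟨f, hf, hd⟩
  have hi : ∀ m, (f m).unpair.1 = (f 0).unpair.1 := by
    intro m
    induction m with
    | zero => rfl
    | succ m ih => rw [(hd m).1.1, ih]
  refine Le_wf (n := N (f 0).unpair.1) (g := G (f 0).unpair.1)
    ⟨fun m => (f m).unpair.2, Computable.snd.comp (Primrec.unpair.to_comp.comp hf), fun m => ?_⟩
  obtain ⟨⟨h1, h2⟩, h3⟩ := hd m
  rw [hi (m + 1)] at h2
  refine ⟨h2, fun h4 => h3 ?_⟩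
  have h4' : (f (m + 1)).unpair.2 = (f m).unpair.2 := h4
  rw [← Nat.pair_unpair (f (m + 1)), ← Nat.pair_unpair (f m), h1, h4']

theorem not_wf_ext {n : ℕ} {L : ℕ → ℕ → Prop} (hL : LinearExtension Pos L)
    (hM : MindChanges L (fun _ _ => n)) : ¬ CompWF L := by
  obtain ⟨g, hg, hch, hlim⟩ := hM
  have hh : Computable (fun z : ℕ => (g z.unpair.1 z.unpair.2.unpair.1 z.unpair.2.unpair.2).toNat) := by
    have u1 : Primrec (fun z : ℕ => z.unpair.1) := Primrec.fst.comp Primrec.unpair
    have u2 : Primrec (fun z : ℕ => z.unpair.2) := Primrec.snd.comp Primrec.unpair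
    have hb : Computable (fun z : ℕ => g z.unpair.1 z.unpair.2.unpair.1 z.unpair.2.unpair.2) := by
      have := hg.comp (u1.pair ((u1.comp u2).pair (u2.comp u2))).to_comp
      exact this
    refine (Computable.cond hb (Computable.const 1) (Computable.const 0)).of_eq fun z => ?_
    cases g z.unpair.1 z.unpair.2.unpair.1 z.unpair.2.unpair.2 <;> rfl
  obtain ⟨c, hc⟩ := exists_index hh
  set i := Nat.pair c (n + 1) with hi
  have hL' : LinearExtension (fun x y => Le (N i) (G i) x y = true)
      (fun x y => L (Nat.pair i x) (Nat.pair i y)) := by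
    refine ⟨fun x => hL.refl _, fun x y z => hL.trans _ _ _, fun x y h1 h2 => ?_,
      fun x y => hL.total _ _, fun x y h => hL.extend _ _ (Pos_pair.2 h)⟩
    have := hL.antisymm _ _ h1 h2
    exact (Nat.pair_eq_pair.1 this).2
  have hG : ∀ x y s, G i x y s = Gd c (Nat.pair i x) (Nat.pair i y) s := by
    intro x y s
    unfold G
    rw [hi, Nat.unpair_pair]
  have hN : N i = n + 1 := by unfold N; rw [hi, Nat.unpair_pair]
  have hKc : Computable (K (N i) (G i)) := (pr_K primrec_G primrec_N i).to_comp
  obtain ⟨f, hf, hd⟩ := not_wf hKc hL' (fun x y => by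
      simp only [hG]
      exact Gd_lim hc (hlim _ _))
    (fun x y => by
      simp only [hG]
      rw [hN]
      exact Gd_changes hc (hch _ _))
  intro hwf
  refine hwf ⟨fun m => Nat.pair i (f m), (Primrec₂.natPair.comp (Primrec.const i)
    Primrec.id).to_comp.comp hf, fun m => ⟨(hd m).1, fun h => (hd m).2 ?_⟩⟩
  exact (Nat.pair_eq_pair.1 h).2

end Low

/-- a linear order with a co-c.e. relation is computable -/
theorem mind_of_pi {P L : ℕ → ℕ → Prop} (hL : LinearExtension P L)
    (hq : REPred (fun p : ℕ × ℕ => ¬ L p.1 p.2)) : MindChanges L (fun _ _ => 0) := by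
  have h1 : REPred (fun p : ℕ × ℕ => L p.1 p.2) := by
    have hq' : Partrec (fun p : ℕ × ℕ => Part.assert (¬ L p.1 p.2) fun _ => Part.some ()) := hq
    have hs : Computable (fun p : ℕ × ℕ => (p.2, p.1)) := Computable.snd.pair Computable.fst
    have hsw := Partrec.comp hq' hs
    have hc : Computable (fun p : ℕ × ℕ => decide (p.1 = p.2)) :=
      (Primrec.eq (α := ℕ)).decide.to_comp
    have hu : Computable (fun _ : ℕ × ℕ => ()) := Computable.const ()
    have h2 := Partrec.cond hc hu.partrec hsw
    refine Partrec.of_eq h2 fun p => ?_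
    by_cases he : p.1 = p.2
    · have : L p.1 p.2 := by rw [he]; exact hL.refl _
      rw [decide_eq_true he]
      simp only [cond_true]
      ext u
      simp [Part.mem_assert_iff, this]
    · rw [decide_eq_false he]
      simp only [cond_false]
      have hiff : ¬ L p.2 p.1 ↔ L p.1 p.2 := by
        constructor
        · intro h; exact (hL.total p.1 p.2).resolve_right h
        · intro h h'; exact he (hL.antisymm _ _ h h')
      ext u
      simp [Part.mem_assert_iff, hiff]
  classical
  obtain ⟨hdec, hcomp⟩ := ComputablePred.computable_iff_re_compl_re.2 ⟨h1, hq⟩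
  have hcomp' : Computable (fun q : ℕ × ℕ => @decide (L q.1 q.2) (hdec q)) := hcomp
  have hp : Computable (fun p : ℕ × ℕ × ℕ => (p.1, p.2.1)) :=
    Computable.fst.pair (Computable.fst.comp Computable.snd)
  have h3 := hcomp'.comp hp
  refine ⟨fun x y _ => decide (L x y), ?_, fun x y => by simp, fun x y => ⟨0, fun s _ => by simp⟩⟩
  refine h3.of_eq fun p => ?_
  simp

/-- **Main theorem.** There is a single computable, computably well-founded poset none of whose
computably well-founded linear extensions is `Π⁰₁`, or approximable with a bounded number of mind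
changes; and conversely every computable, computably well-founded poset has computably
well-founded linear extensions approximable with at most `h` mind changes, for every computable
nondecreasing unbounded `h`. -/
theorem result :
    (∃ P : ℕ → ℕ → Prop, ComputablePoset P ∧ CompWF P ∧
      (∀ L : ℕ → ℕ → Prop, LinearExtension P L → REPred (fun p : ℕ × ℕ => ¬ L p.1 p.2) →
        ¬ CompWF L) ∧
      ∀ n : ℕ, ∀ L : ℕ → ℕ → Prop, LinearExtension P L → MindChanges L (fun _ _ => n) →
        ¬ CompWF L) ∧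
    (∀ P : ℕ → ℕ → Prop, ComputablePoset P → CompWF P →
      ∀ h : ℕ → ℕ, Computable h → Monotone h → (∀ m, ∃ x, m ≤ h x) →
        ∃ L : ℕ → ℕ → Prop, LinearExtension P L ∧ CompWF L ∧
          MindChanges L (fun x y => h (Nat.pair x y))) :=
  ⟨⟨Low.Pos, Low.Pos_poset, Low.Pos_wf,
    fun _ hL hq => Low.not_wf_ext hL (mind_of_pi hL hq),
    fun _ _ hL hM => Low.not_wf_ext hL hM⟩,
    fun _ hP hwf _ hh hm hu => upper hP hwf hh hm hu⟩


end Pool.Agent.Results.MP_f7ace6_lc.SharpErshov
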